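import Pool.Agent.Q171.PT.Mart

/-!
# The finite variation part is not absolutely continuous
-/

set_option autoImplicit false

namespace Pool.Agent.Q171.PT

open MeasureTheory ProbabilityTheory Set Filter Topology
open Pool.Agent.TH970
open scoped ENNReal NNReal

/-- the running maximum is locally constant off the set where it equals the path -/
lemma mx_loc {w : ℝ≥0 → ℝ} (hw : Continuous w) {v : ℝ≥0} (h : w v < mx w 0 v) :
    ∀ᶠ r in 𝓝 v, mx w 0 r = mx w 0 v := by
  have h1 : {r | w r < mx w 0 v} ∈ 𝓝 v := (isOpen_lt hw continuous_const).mem_nhds h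
  obtain ⟨δ, hδ, hball⟩ := Metric.mem_nhds_iff.mp h1
  filter_upwards [Metric.ball_mem_nhds v hδ] with r hr
  rw [Metric.mem_ball, NNReal.dist_eq] at hr
  rcases le_total v r with hvr | hvr
  · refine le_antisymm (mx_le zero_le fun s _ hs => ?_) (mx_mono' hw hvr)
    rcases le_total s v with h2 | h2
    · exact le_mx hw zero_le h2
    · refine (hball ?_ : w s < mx w 0 v).le
      rw [Metric.mem_ball, NNReal.dist_eq]
      refine lt_of_le_of_lt ?_ hr
      have e1 : (v:ℝ) ≤ s := h2
      have e2 : (s:ℝ) ≤ r := hs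
      rw [abs_of_nonneg (by linarith), abs_of_nonneg (by linarith)]
      linarith
  · refine le_antisymm (mx_mono' hw hvr) ?_
    obtain ⟨s, _, hs, he⟩ := exists_mx hw (zero_le (a := v))
    rcases le_total r s with h2 | h2
    · exfalso
      have h3 : w s < mx w 0 v := by
        refine hball ?_
        rw [Metric.mem_ball, NNReal.dist_eq]
        refine lt_of_le_of_lt ?_ hr
        have e1 : (r:ℝ) ≤ s := h2
        have e2 : (s:ℝ) ≤ v := hs
        rw [abs_sub_comm, abs_sub_comm (r:ℝ), abs_of_nonneg (by linarith),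
          abs_of_nonneg (by linarith)]
        linarith
      linarith
    · rw [he]
      exact le_mx hw zero_le h2

/-- absolute continuity with respect to a Lipschitz function on `[0, 1]` -/
lemma ac_of {f g : ℝ≥0 → ℝ} (h : AbsContWrt f g) {K : ℝ} (hK : 0 < K)
    (hg : ∀ a b : ℝ≥0, a ≤ b → b ≤ 1 → |g b - g a| ≤ K * (b - a)) :
    AbsolutelyContinuousOnInterval (fun v : ℝ => f v.toNNReal) 0 1 := by
  rw [absolutelyContinuousOnInterval_iff]
  intro ε hε
  obtain ⟨δ, hδ, h1⟩ := h 1 ε hε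
  refine ⟨δ / K, div_pos hδ hK, fun E hE hsum => ?_⟩
  obtain ⟨hE1, hE2⟩ := hE
  rw [uIcc_of_le zero_le_one] at hE1
  set a : ℕ → ℝ≥0 := fun i => (min (E.2 i).1 (E.2 i).2).toNNReal with ha
  set b : ℕ → ℝ≥0 := fun i => (max (E.2 i).1 (E.2 i).2).toNNReal with hb
  have hca : ∀ i < E.1, ((a i : ℝ≥0) : ℝ) = min (E.2 i).1 (E.2 i).2 := by
    intro i hi
    have := hE1 i (Finset.mem_range.mpr hi)
    exact Real.coe_toNNReal _ (le_min this.1.1 this.2.1)
  have hcb : ∀ i < E.1, ((b i : ℝ≥0) : ℝ) = max (E.2 i).1 (E.2 i).2 := by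
    intro i hi
    have := hE1 i (Finset.mem_range.mpr hi)
    exact Real.coe_toNNReal _ (le_max_of_le_left this.1.1)
  have hab : ∀ i < E.1, a i ≤ b i ∧ b i ≤ 1 := by
    intro i hi
    have h2 := hE1 i (Finset.mem_range.mpr hi)
    refine ⟨Real.toNNReal_le_toNNReal (min_le_max), ?_⟩
    have h3 : ((b i : ℝ≥0) : ℝ) ≤ 1 := by
      rw [hcb i hi]
      exact max_le h2.1.2 h2.2.2
    exact_mod_cast h3
  have hdist : ∀ i < E.1, (b i : ℝ) - a i = dist (E.2 i).1 (E.2 i).2 := by
    intro i hi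
    rw [hca i hi, hcb i hi, Real.dist_eq, max_sub_min_eq_abs']
  have h2 := h1 E.1 a b hab ?_ ?_
  · refine lt_of_le_of_lt (Finset.sum_le_sum fun i _ => ?_) h2
    rw [Real.dist_eq]
    simp only [ha, hb]
    rcases le_total (E.2 i).1 (E.2 i).2 with h3 | h3
    · rw [min_eq_left h3, max_eq_right h3, abs_sub_comm]
    · rw [min_eq_right h3, max_eq_left h3]
  · intro i hi j hj hij
    have h3 := hE2 (Finset.mem_coe.mpr (Finset.mem_range.mpr hi))
      (Finset.mem_coe.mpr (Finset.mem_range.mpr hj)) hij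
    simp only [Function.onFun] at h3
    rw [Set.disjoint_left] at h3 ⊢
    intro x hx1 hx2
    refine h3 (a := (x:ℝ)) ?_ ?_
    · rw [uIoc, ← hca i hi, ← hcb i hi]
      exact ⟨hx1.1, hx1.2⟩
    · rw [uIoc, ← hca j hj, ← hcb j hj]
      exact ⟨hx2.1, hx2.2⟩
  · calc ∑ i ∈ Finset.range E.1, |g (b i) - g (a i)|
        ≤ ∑ i ∈ Finset.range E.1, K * dist (E.2 i).1 (E.2 i).2 := by
          refine Finset.sum_le_sum fun i hi => ?_
          have hi' := Finset.mem_range.mp hi
          rw [← hdist i hi']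
          exact hg _ _ (hab i hi').1 (hab i hi').2
      _ = K * ∑ i ∈ Finset.range E.1, dist (E.2 i).1 (E.2 i).2 := by rw [Finset.mul_sum]
      _ < K * (δ / K) := by gcongr
      _ = δ := by field_simp

variable {Ω : Type*} [mΩ : MeasurableSpace Ω] {P : Measure Ω} [IsProbabilityMeasure P]
  {X : ℝ≥0 → Ω → ℝ}

lemma ae_q_pos (hX : CBM P X) :
    ∀ᵐ ω ∂P, ∀ᵐ v : ℝ, 0 < v → 0 < (pq X v.toNNReal ω).2 := by
  have hm : Measurable (Function.uncurry fun (v : ℝ) (ω : Ω) => (pq X v.toNNReal ω).2) := by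
    refine measurable_uncurry_of_continuous_of_measurable (fun ω => ?_) (fun v => ?_)
    · exact ((cont_pq hX ω).comp continuous_real_toNNReal).snd
    · exact (meas_pq hX _).snd
  have hS : MeasurableSet {z : Ω × ℝ | 0 < z.2 → 0 < (pq X z.2.toNNReal z.1).2} := by
    have h1 : MeasurableSet {z : Ω × ℝ | 0 < z.2} := measurableSet_lt measurable_const measurable_snd
    have h2 : MeasurableSet {z : Ω × ℝ | 0 < (pq X z.2.toNNReal z.1).2} :=
      measurableSet_lt measurable_const (hm.comp measurable_swap)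
    have e : {z : Ω × ℝ | 0 < z.2 → 0 < (pq X z.2.toNNReal z.1).2} =
        {z : Ω × ℝ | 0 < z.2}ᶜ ∪ {z : Ω × ℝ | 0 < (pq X z.2.toNNReal z.1).2} := by
      ext z
      simp only [Set.mem_ofPred_eq, mem_union, mem_compl_iff]
      tauto
    rw [e]
    exact h1.compl.union h2
  rw [Measure.ae_ae_comm (p := fun (ω : Ω) (v : ℝ) => 0 < v → 0 < (pq X v.toNNReal ω).2) hS]
  refine Eventually.of_forall fun v => ?_
  by_cases hv : 0 < v
  · filter_upwards [pq_pos_ae hX (Real.toNNReal_pos.mpr hv)] with ω hω _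
    exact hω.2
  · exact Eventually.of_forall fun ω h => absurd h hv

theorem not_ac (hX : CBM P X) :
    ∀ᵐ ω ∂P, ¬ AbsContWrt (fun t => AA X t ω) (fun t => QQ X t ω) := by
  filter_upwards [ae_q_pos hX, pq_pos_ae hX (t := 1) zero_lt_one] with ω h1 h2 hac
  have hw := hX.cont ω
  have hc : Continuous (fun s : ℝ≥0 => 4 * RR X s ω ^ 2) := by
    have := cont_RR hX ω
    fun_prop
  have hc' : Continuous (fun s : ℝ => 4 * RR X s.toNNReal ω ^ 2) :=
    hc.comp continuous_real_toNNReal
  obtain ⟨K, hK⟩ := (isCompact_Icc (a := (0:ℝ≥0)) (b := 1)).bddAbove_image hc.continuousOn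
  have hKb : ∀ s : ℝ≥0, s ≤ 1 → 4 * RR X s ω ^ 2 ≤ K := fun s hs =>
    hK ⟨s, ⟨zero_le, hs⟩, rfl⟩
  have hg : ∀ a b : ℝ≥0, a ≤ b → b ≤ 1 → |QQ X b ω - QQ X a ω| ≤ (|K| + 1) * (b - a) := by
    intro a b hab hb
    have e : QQ X b ω - QQ X a ω = ∫ s in (a:ℝ)..b, 4 * RR X s.toNNReal ω ^ 2 := by
      unfold QQ
      rw [intervalIntegral.integral_interval_sub_left (hc'.intervalIntegrable _ _)
        (hc'.intervalIntegrable _ _)]
    have hab' : (a:ℝ) ≤ b := hab
    have h3 := intervalIntegral.norm_integral_le_of_norm_le_const (a := (a:ℝ)) (b := b)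
      (f := fun s => 4 * RR X s.toNNReal ω ^ 2) (C := |K| + 1) (by
        intro s hs
        rw [uIoc_of_le hab'] at hs
        rw [Real.norm_eq_abs, abs_of_nonneg (by positivity)]
        have : s.toNNReal ≤ 1 := by
          have h4 : s ≤ 1 := hs.2.trans (by exact_mod_cast hb)
          exact Real.toNNReal_le_one.mpr h4
        have h5 := hKb _ this
        have h6 := le_abs_self K
        linarith)
    rw [Real.norm_eq_abs, abs_of_nonneg (by linarith : (0:ℝ) ≤ b - a)] at h3
    rw [e]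
    exact h3
  have hA := ac_of hac (K := |K| + 1) (by positivity) hg
  have hL : AbsolutelyContinuousOnInterval (fun v : ℝ => 2 * (v.toNNReal : ℝ)) 0 1 := by
    refine LipschitzOnWith.absolutelyContinuousOnInterval (K := 2) ?_
    refine LipschitzWith.lipschitzOnWith ?_
    have h3 : LipschitzWith 1 (fun v : ℝ => (v.toNNReal : ℝ)) :=
      (LipschitzWith.id.max_const 0 : LipschitzWith 1 fun v : ℝ => max v 0)
    refine LipschitzWith.of_dist_le_mul fun x y => ?_
    have h4 := h3.dist_le_mul x y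
    rw [Real.dist_eq] at h4 ⊢
    rw [← mul_sub, abs_mul]
    simp only [Nat.abs_ofNat, NNReal.coe_ofNat, NNReal.coe_one, one_mul] at h4 ⊢
    linarith
  have hS := hA.add hL
  have e : (fun v : ℝ => AA X v.toNNReal ω) + (fun v : ℝ => 2 * (v.toNNReal : ℝ)) =
      fun v : ℝ => 2 * mx (path X ω) 0 v.toNNReal ^ 2 := by
    funext v
    simp only [Pi.add_apply]
    unfold AA pq
    simp only
    ring
  rw [e] at hS
  obtain ⟨C, hC⟩ := hS.const_of_ae_hasDerivAt_zero (by
    have h0 : ∀ᵐ v : ℝ, v ≠ 0 := by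
      rw [ae_iff]
      simp
    filter_upwards [h1, h0] with v hv hv0 hvI
    rw [uIcc_of_le zero_le_one] at hvI
    have hvpos : 0 < v := lt_of_le_of_ne hvI.1 (Ne.symm hv0)
    have h3 := hv hvpos
    have h4 : path X ω v.toNNReal < mx (path X ω) 0 v.toNNReal := by
      have : (pq X v.toNNReal ω).2 = mx (path X ω) 0 v.toNNReal - path X ω v.toNNReal := rfl
      rw [this] at h3
      linarith
    have h5 := mx_loc hw h4
    have h6 : ∀ᶠ r : ℝ in 𝓝 v, mx (path X ω) 0 r.toNNReal = mx (path X ω) 0 v.toNNReal :=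
      (continuous_real_toNNReal.tendsto v).eventually h5
    refine (hasDerivAt_const v (2 * mx (path X ω) 0 v.toNNReal ^ 2)).congr_of_eventuallyEq ?_
    filter_upwards [h6] with r hr
    rw [hr])
  have c0 := hC 0 (by simp)
  have c1 := hC 1 (by simp)
  rw [← c0] at c1
  simp only [Real.toNNReal_zero, Real.toNNReal_one] at c1
  rw [mx_zero, hX.path_zero] at c1
  have h3 : 0 < mx (path X ω) 0 1 := h2.1
  nlinarith

end Pool.Agent.Q171.PT
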