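import Pool.Agent.Q171.PT.Proc

/-!
# Conditional law and second moments
-/

set_option autoImplicit false

namespace Pool.Agent.Q171.PT

open MeasureTheory ProbabilityTheory Set Filter Topology
open Pool.Agent.TH970
open scoped ENNReal NNReal

variable {Ω : Type*} [mΩ : MeasurableSpace Ω] {P : Measure Ω} [IsProbabilityMeasure P]
  {X : ℝ≥0 → Ω → ℝ}

lemma UA_univ (hX : CBM P X) (t : ℝ≥0) : UA P X univ t := by
  rcases eq_or_lt_of_le (zero_le (a := t)) with h | h
  · rw [← h]
    exact UA_zero hX _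
  · exact UA_step hX h MeasurableSet.univ (UA_zero hX _)

lemma UA_fin (hX : CBM P X) (I : Finset ℝ≥0) (f : ℝ≥0 → Set Ω) :
    (∀ u ∈ I, MeasurableSet[MeasurableSpace.comap (RR X u) inferInstance] (f u)) →
    ∀ t, (∀ u ∈ I, u ≤ t) → UA P X (⋂ u ∈ I, f u) t := by
  induction I using Finset.induction_on_max with
  | empty =>
    intro _ t _
    simp only [Finset.notMem_empty, iInter_of_empty, iInter_univ]
    exact UA_univ hX t
  | insert m I hmax ih =>
    intro hf t ht
    have hf' : ∀ u ∈ I, MeasurableSet[MeasurableSpace.comap (RR X u) inferInstance] (f u) :=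
      fun u hu => hf u (Finset.mem_insert_of_mem hu)
    have h1 := ih hf' m fun u hu => (hmax u hu).le
    have h2 := UA_inter hX h1 (hf m (Finset.mem_insert_self _ _))
    have h3 : ⋂ u ∈ insert m I, f u = (⋂ u ∈ I, f u) ∩ f m := by
      rw [Finset.set_biInter_insert, inter_comm]
    rw [h3]
    have hmt : m ≤ t := ht m (Finset.mem_insert_self _ _)
    rcases eq_or_lt_of_le hmt with h | h
    · rw [← h]
      exact h2
    · refine UA_step hX h ?_ h2
      refine MeasurableSet.inter ?_ ?_
      · refine Finset.measurableSet_biInter (m := GX X m) _ fun u hu => ?_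
        exact (meas_RR_GX X (hmax u hu).le).comap_le _ (hf' u hu)
      · exact (meas_RR_GX X le_rfl).comap_le _ (hf m (Finset.mem_insert_self _ _))

/-- Given the past of `2 max - X`, the pair is uniform on its segment. -/
theorem cond_law (hX : CBM P X) (t : ℝ≥0) {A : Set Ω} (hA : MeasurableSet[natF (RR X) t] A)
    {g : ℝ × ℝ → ℝ≥0∞} (hg : Measurable g) (hfin : ∫⁻ ω, g (pq X t ω) ∂P ≠ ∞) :
    ∫⁻ ω in A, g (pq X t ω) ∂P = ∫⁻ ω in A, Lam g (RR X t ω) ∂P := by
  have hle : natF (RR X) t ≤ mΩ := (natF_le_GX X t).trans (GX_le hX t)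
  have hgm : Measurable (fun ω => g (pq X t ω)) := hg.comp (meas_pq hX t)
  have hLm : Measurable (fun ω => Lam g (RR X t ω)) := (measurable_Lam hg).comp (meas_RR hX t)
  set μ₁ := (P.withDensity (fun ω => g (pq X t ω))).trim hle with hμ₁
  set μ₂ := (P.withDensity (fun ω => Lam g (RR X t ω))).trim hle with hμ₂
  have hf1 : IsFiniteMeasure (P.withDensity (fun ω => g (pq X t ω))) :=
    isFiniteMeasure_withDensity hfin
  have hf2 : IsFiniteMeasure μ₁ := by
    rw [hμ₁]
    exact isFiniteMeasure_trim hle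
  have key : μ₁ = μ₂ := by
    refine @ext_of_generate_finite Ω (natF (RR X) t) μ₁ μ₂
      (piiUnionInter (fun u => {s | MeasurableSet[MeasurableSpace.comap (RR X u) inferInstance] s})
        (Iic t)) ?_ ?_ hf2 ?_ ?_
    · exact (generateFrom_piiUnionInter_measurableSet
        (fun u => MeasurableSpace.comap (RR X u) inferInstance) (Iic t)).symm
    · refine isPiSystem_piiUnionInter _ (fun u => ?_) _
      exact @MeasurableSpace.isPiSystem_measurableSet Ω (MeasurableSpace.comap (RR X u) _)
    · rintro _ ⟨I, hI, f, hf, rfl⟩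
      have hm : MeasurableSet[natF (RR X) t] (⋂ u ∈ I, f u) := by
        refine Finset.measurableSet_biInter (m := natF (RR X) t) _ fun u hu => ?_
        have h1 : MeasurableSpace.comap (RR X u) inferInstance ≤ natF (RR X) t :=
          le_iSup₂_of_le (f := fun u (_ : u ∈ Iic t) =>
            MeasurableSpace.comap (RR X u) inferInstance) u (hI hu) le_rfl
        exact h1 _ (hf u hu)
      rw [hμ₁, hμ₂, trim_measurableSet_eq hle hm, trim_measurableSet_eq hle hm,
        withDensity_apply _ (hle _ hm), withDensity_apply _ (hle _ hm)]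
      exact UA_fin hX I f hf t (fun u hu => hI hu) g hg
    · rw [hμ₁, hμ₂, trim_measurableSet_eq hle MeasurableSet.univ,
        trim_measurableSet_eq hle MeasurableSet.univ,
        withDensity_apply _ MeasurableSet.univ, withDensity_apply _ MeasurableSet.univ]
      exact UA_univ hX t g hg
  have h1 : μ₁ A = μ₂ A := by rw [key]
  rw [hμ₁, hμ₂, trim_measurableSet_eq hle hA, trim_measurableSet_eq hle hA,
    withDensity_apply _ (hle _ hA), withDensity_apply _ (hle _ hA)] at h1
  exact h1

/-! ### moments -/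

lemma memLp_X (hX : CBM P X) (t : ℝ≥0) (p : ℝ≥0) : MemLp (X t) p P := by
  have h1 : MemLp (fun x : ℝ => x) p (P.map (X t)) := by
    rw [law_eq hX]
    exact memLp_id_gaussianReal p
  exact (memLp_map_measure_iff h1.1 (hX.meas t).aemeasurable).mp h1

lemma int_X (hX : CBM P X) (t : ℝ≥0) : ∫ ω, X t ω ∂P = 0 := hX.pre.integral_eval t

lemma int_X_sq (hX : CBM P X) (t : ℝ≥0) : ∫ ω, X t ω ^ 2 ∂P = t := by
  have h1 := variance_eq_sub (memLp_X hX t 2)
  rw [int_X hX] at h1
  have h2 : Var[X t; P] = t := by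
    rw [← covariance_self (hX.meas t).aemeasurable, hX.pre.covariance_eval, min_self]
  rw [h2] at h1
  simp only [ne_eq, OfNat.ofNat_ne_zero, not_false_eq_true, zero_pow, sub_zero] at h1
  exact h1.symm

lemma lint_shift_sq (hX : CBM P X) (t : ℝ≥0) (a : ℝ) :
    ∫⁻ ω, ENNReal.ofReal ((a + X t ω) ^ 2) ∂P = ENNReal.ofReal (a ^ 2 + t) := by
  have i1 : Integrable (X t) P := (memLp_X hX t 1).integrable (by simp)
  have i2 : Integrable (fun ω => X t ω ^ 2) P := (memLp_X hX t 2).integrable_sq
  have e : (fun ω => (a + X t ω) ^ 2) = fun ω => a ^ 2 + (2 * a * X t ω + X t ω ^ 2) := by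
    funext ω
    ring
  have i3 : Integrable (fun ω => 2 * a * X t ω + X t ω ^ 2) P := (i1.const_mul _).add i2
  have i4 : Integrable (fun ω => (a + X t ω) ^ 2) P := by
    rw [e]
    exact (integrable_const _).add i3
  rw [← ofReal_integral_eq_lintegral_ofReal i4 (Eventually.of_forall fun ω => sq_nonneg _)]
  congr 1
  rw [e, integral_add (integrable_const _) i3, integral_add (i1.const_mul _) i2,
    integral_const_mul, int_X hX, int_X_sq hX]
  simp

/-- the law of the distance to the maximum -/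
lemma dist_law (hX : CBM P X) {T : ℝ≥0} (hT : 0 < T) {q : ℝ} (hq : 0 ≤ q) :
    P.map (fun ω => max q (mx (path X ω) 0 T) - X T ω) = P.map (fun ω => |q + X T ω|) := by
  have m1 : Measurable (fun ω => max q (mx (path X ω) 0 T) - X T ω) :=
    (measurable_const.max (meas_mx hX T)).sub (hX.meas T)
  have m2 : Measurable (fun ω => |q + X T ω|) := (measurable_const.add (hX.meas T)).abs
  have hp1 : IsProbabilityMeasure (P.map (fun ω => max q (mx (path X ω) 0 T) - X T ω)) :=
    Measure.isProbabilityMeasure_map m1.aemeasurable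
  have hp2 : IsProbabilityMeasure (P.map (fun ω => |q + X T ω|)) :=
    Measure.isProbabilityMeasure_map m2.aemeasurable
  refine ext_of_generate_finite (range Ioi) ?_ isPi_Ioi ?_ ?_
  · rw [← borel_eq_generateFrom_Ioi]
    exact (inferInstance : BorelSpace ℝ).measurable_eq
  · rintro _ ⟨y, rfl⟩
    rw [Measure.map_apply m1 measurableSet_Ioi, Measure.map_apply m2 measurableSet_Ioi]
    rcases lt_or_ge y 0 with hy | hy
    · have e1 : (fun ω => max q (mx (path X ω) 0 T) - X T ω) ⁻¹' (Ioi y) = univ := by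
        ext ω
        simp only [mem_preimage, mem_Ioi, mem_univ, iff_true]
        have h1 := (pq_nonneg hX T ω).2
        have h2 : (pq X T ω).2 = mx (path X ω) 0 T - X T ω := rfl
        have h3 := le_max_right q (mx (path X ω) 0 T)
        linarith
      have e2 : (fun ω => |q + X T ω|) ⁻¹' (Ioi y) = univ := by
        ext ω
        simp only [mem_preimage, mem_Ioi, mem_univ, iff_true]
        exact lt_of_lt_of_le hy (abs_nonneg _)
      rw [e1, e2]
    · have h1 := dist_tail hX hT hq hy
      have h2 : P.real {ω | y < |q + X T ω|} = tl P X T (y - q) + tl P X T (y + q) := by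
        have e : {ω | y < |q + X T ω|} = {ω | y - q < X T ω} ∪ {ω | X T ω < -(y + q)} := by
          ext ω
          simp only [Set.mem_ofPred_eq, mem_union, lt_abs]
          constructor
          · rintro (h | h)
            · left; linarith
            · right; linarith
          · rintro (h | h)
            · left; linarith
            · right; linarith
        rw [e, measureReal_union]
        · congr 1
          unfold tl Measure.real
          rw [gt_symm hX]
        · rw [Set.disjoint_left]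
          intro ω h3 h4
          simp only [Set.mem_ofPred_eq] at h3 h4
          linarith
        · exact measurableSet_lt (hX.meas T) measurable_const
      have h3 : P.real {ω | y < max q (mx (path X ω) 0 T) - X T ω} =
          P.real {ω | y < |q + X T ω|} := by rw [h1, h2]
      exact (measureReal_eq_measureReal_iff (by finiteness) (by finiteness)).mp h3
  · simp

lemma dist_sq (hX : CBM P X) {T : ℝ≥0} {q : ℝ} (hq : 0 ≤ q) :
    ∫⁻ ω, ENNReal.ofReal ((max q (mx (path X ω) 0 T) - X T ω) ^ 2) ∂P =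
      ENNReal.ofReal (q ^ 2 + T) := by
  rcases eq_or_lt_of_le (zero_le (a := T)) with h | hT
  · subst h
    have : ∀ ω, max q (mx (path X ω) 0 0) - X 0 ω = q := by
      intro ω
      rw [mx_zero, hX.path_zero, hX.zero, max_eq_left hq, sub_zero]
    simp only [this]
    simp
  have m1 : Measurable (fun ω => max q (mx (path X ω) 0 T) - X T ω) :=
    (measurable_const.max (meas_mx hX T)).sub (hX.meas T)
  have m2 : Measurable (fun ω => |q + X T ω|) := (measurable_const.add (hX.meas T)).abs
  have m3 : Measurable (fun y : ℝ => ENNReal.ofReal (y ^ 2)) := by fun_prop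
  rw [← lint_shift_sq hX T q]
  have h1 : ∫⁻ ω, ENNReal.ofReal ((max q (mx (path X ω) 0 T) - X T ω) ^ 2) ∂P =
      ∫⁻ y, ENNReal.ofReal (y ^ 2) ∂(P.map (fun ω => max q (mx (path X ω) 0 T) - X T ω)) := by
    rw [lintegral_map m3 m1]
  rw [h1, dist_law hX hT hq, lintegral_map m3 m2]
  simp only [sq_abs]

/-- conditional second moment of the distance to the maximum -/
lemma cond_q_sq (hX : CBM P X) (s u : ℝ≥0) {A : Set Ω} (hA : MeasurableSet[GX X s] A) :
    ∫⁻ ω in A, ENNReal.ofReal ((pq X (s + u) ω).2 ^ 2) ∂P =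
      ∫⁻ ω in A, ENNReal.ofReal ((pq X s ω).2 ^ 2 + u) ∂P := by
  have h1 := markov hX s hA (H := fun z => ENNReal.ofReal ((stp u z.1 z.2).2 ^ 2)) 
    (((measurable_stp u).snd.pow_const 2).ennreal_ofReal)
  simp only at h1
  have h2 : ∀ ω, ∫⁻ ω', ENNReal.ofReal ((stp u (pq X s ω) (path X ω')).2 ^ 2) ∂P =
      ENNReal.ofReal ((pq X s ω).2 ^ 2 + u) := by
    intro ω
    rw [← dist_sq hX (T := u) (pq_nonneg hX s ω).2]
    refine lintegral_congr fun ω' => ?_
    congr 2
    unfold stp
    simp only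
    rw [← max_sub_sub_right]
    have e1 : (pq X s ω).1 - ((pq X s ω).1 - (pq X s ω).2) = (pq X s ω).2 := by ring
    have e2 : (pq X s ω).1 - (pq X s ω).2 + mx (path X ω') 0 u -
        ((pq X s ω).1 - (pq X s ω).2) = mx (path X ω') 0 u := by ring
    rw [e1, e2]
    rfl
  simp only [h2] at h1
  rw [← h1]
  refine lintegral_congr fun ω => ?_
  rw [pq_add hX]

/-- conditional second moment of Brownian motion -/
lemma cond_X_sq (hX : CBM P X) (s u : ℝ≥0) {A : Set Ω} (hA : MeasurableSet[GX X s] A) :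
    ∫⁻ ω in A, ENNReal.ofReal (X (s + u) ω ^ 2) ∂P =
      ∫⁻ ω in A, ENNReal.ofReal (X s ω ^ 2 + u) ∂P := by
  have h1 := markov hX s hA (H := fun z => ENNReal.ofReal ((z.1.1 - z.1.2 + z.2 u) ^ 2)) (by
    have : Measurable (fun z : (ℝ × ℝ) × (ℝ≥0 → ℝ) => z.2 u) :=
      (measurable_pi_apply u).comp measurable_snd
    fun_prop)
  simp only at h1
  have e : ∀ ω, (pq X s ω).1 - (pq X s ω).2 = X s ω := by
    intro ω
    unfold pq
    simp only
    ring
  have h2 : ∀ ω, ∫⁻ ω', ENNReal.ofReal (((pq X s ω).1 - (pq X s ω).2 + path X ω' u) ^ 2) ∂P =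
      ENNReal.ofReal (X s ω ^ 2 + u) := by
    intro ω
    rw [e]
    exact lint_shift_sq hX u (X s ω)
  simp only [h2] at h1
  rw [← h1]
  refine lintegral_congr fun ω => ?_
  rw [e]
  congr 2
  ring

lemma lint_q_sq (hX : CBM P X) (t : ℝ≥0) :
    ∫⁻ ω, ENNReal.ofReal ((pq X t ω).2 ^ 2) ∂P = ENNReal.ofReal t := by
  have h1 := cond_q_sq hX 0 t (A := univ) MeasurableSet.univ
  rw [zero_add, Measure.restrict_univ] at h1
  rw [h1]
  have h2 : ∀ ω, (pq X 0 ω).2 = 0 := by
    intro ω
    unfold pq
    simp only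
    rw [mx_zero, hX.path_zero, hX.zero, sub_zero]
  simp only [h2]
  simp

lemma lint_X_sq (hX : CBM P X) (t : ℝ≥0) :
    ∫⁻ ω, ENNReal.ofReal (X t ω ^ 2) ∂P = ENNReal.ofReal t := by
  have := lint_shift_sq hX t 0
  simpa using this

lemma Lam_sq (r : ℝ) : Lam (fun a => ENNReal.ofReal (a.2 ^ 2)) r = ENNReal.ofReal (r ^ 2 / 3) := by
  unfold Lam
  simp only
  have hi : ∫ θ in (0:ℝ)..1, ((1 - θ) * r) ^ 2 = r ^ 2 / 3 := by
    have : ∀ θ : ℝ, ((1 - θ) * r) ^ 2 = r ^ 2 - 2 * r ^ 2 * θ + r ^ 2 * θ ^ 2 := fun θ => by ring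
    simp only [this]
    rw [intervalIntegral.integral_add (Continuous.intervalIntegrable (by fun_prop) _ _)
      (Continuous.intervalIntegrable (by fun_prop) _ _),
      intervalIntegral.integral_sub (Continuous.intervalIntegrable (by fun_prop) _ _)
      (Continuous.intervalIntegrable (by fun_prop) _ _),
      intervalIntegral.integral_const_mul, intervalIntegral.integral_const_mul]
    simp
    ring
  rw [← ofReal_integral_eq_lintegral_ofReal]
  · rw [← integral_Ioc_eq_integral_Ioo, ← intervalIntegral.integral_of_le zero_le_one, hi]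
  · have hc : Continuous (fun θ : ℝ => ((1 - θ) * r) ^ 2) := by fun_prop
    exact (hc.integrableOn_Icc (a := 0) (b := 1)).mono_set Ioo_subset_Icc_self
  · exact Eventually.of_forall fun θ => sq_nonneg _

/-- second moment of `2 max - X` and of the distance to the maximum -/
lemma RR_q (hX : CBM P X) (t : ℝ≥0) {A : Set Ω} (hA : MeasurableSet[natF (RR X) t] A) :
    ∫⁻ ω in A, ENNReal.ofReal ((pq X t ω).2 ^ 2) ∂P =
      ∫⁻ ω in A, ENNReal.ofReal (RR X t ω ^ 2 / 3) ∂P := by
  have h := cond_law hX t hA (g := fun a => ENNReal.ofReal (a.2 ^ 2)) (by fun_prop) (by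
    rw [lint_q_sq hX]
    exact ENNReal.ofReal_ne_top)
  rw [h]
  exact lintegral_congr fun ω => Lam_sq _

lemma cond_RR_sq (hX : CBM P X) (s u : ℝ≥0) {A : Set Ω}
    (hA : MeasurableSet[natF (RR X) s] A) :
    ∫⁻ ω in A, ENNReal.ofReal (RR X (s + u) ω ^ 2) ∂P =
      ∫⁻ ω in A, ENNReal.ofReal (RR X s ω ^ 2 + 3 * u) ∂P := by
  have h1 := RR_q hX (s + u) (natF_mono (RR X) le_self_add A hA)
  have h2 := RR_q hX s hA
  have h3 := cond_q_sq hX s u (natF_le_GX X s A hA)
  have m1 : ∀ t, Measurable (fun ω => ENNReal.ofReal (RR X t ω ^ 2 / 3)) := by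
    intro t
    have := meas_RR hX t
    fun_prop
  have m2 : Measurable (fun ω => ENNReal.ofReal ((pq X s ω).2 ^ 2)) :=
    ((meas_pq hX s).snd.pow_const 2).ennreal_ofReal
  have e1 : ∀ t ω, ENNReal.ofReal (RR X t ω ^ 2) = 3 * ENNReal.ofReal (RR X t ω ^ 2 / 3) := by
    intro t ω
    have : RR X t ω ^ 2 = 3 * (RR X t ω ^ 2 / 3) := by ring
    rw [this, ENNReal.ofReal_mul (by norm_num)]
    congr 1
    · simp
    · congr 1
      ring
  have e2 : ∀ ω, ENNReal.ofReal ((pq X s ω).2 ^ 2 + u) =
      ENNReal.ofReal ((pq X s ω).2 ^ 2) + u := by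
    intro ω
    rw [ENNReal.ofReal_add (sq_nonneg _) (NNReal.coe_nonneg u), ENNReal.ofReal_coe_nnreal]
  have e3 : ∀ ω, ENNReal.ofReal (RR X s ω ^ 2 + 3 * u) =
      3 * ENNReal.ofReal (RR X s ω ^ 2 / 3) + 3 * u := by
    intro ω
    rw [ENNReal.ofReal_add (sq_nonneg _) (by positivity), e1, ENNReal.ofReal_mul (by norm_num),
      ENNReal.ofReal_coe_nnreal]
    simp
  simp only [e1 (s + u), e3]
  rw [lintegral_const_mul _ (m1 _), ← h1, h3]
  simp only [e2]
  rw [lintegral_add_left m2, h2, mul_add, lintegral_add_left ((m1 s).const_mul 3),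
    lintegral_const_mul _ (m1 _)]
  congr 1
  simp only [lintegral_const]
  ring

end Pool.Agent.Q171.PT
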