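import Mathlib

/-!
# Continuous semimartingales and their regularity: definitions
-/

set_option autoImplicit false

namespace Pool.Agent.Q171.PT

open MeasureTheory ProbabilityTheory Set Filter Topology
open scoped ENNReal NNReal

variable {Ω : Type*} [mΩ : MeasurableSpace Ω]

/-- The filtration `F` contains the `P`-null sets in its time-zero σ-field. -/
def HasNull (F : Filtration ℝ≥0 mΩ) (P : Measure Ω) : Prop :=
  ∀ A : Set Ω, P A = 0 → MeasurableSet[F 0] A

/-- `M` is a continuous local martingale with respect to the filtration `F`: it is adapted, all its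
paths are continuous, and `M - M_0` is locally a martingale (Mathlib's `Locally`: there is a
localizing sequence of stopping times such that all the stopped processes are martingales). -/
structure ContLocMart (F : Filtration ℝ≥0 mΩ) (P : Measure Ω) (M : ℝ≥0 → Ω → ℝ) : Prop where
  adapted : ∀ t, Measurable[F t] (M t)
  cont : ∀ ω, Continuous fun t => M t ω
  loc : Locally (fun Y : ℝ≥0 → Ω → ℝ => Martingale Y F P) F (fun t ω => M t ω - M 0 ω) P

/-- `Y = N + A` is the decomposition of the continuous `G`-semimartingale `Y` into a continuous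
`G`-local martingale `N` and a continuous `G`-adapted process `A` with `A 0 = 0` whose paths have
finite variation on compact intervals. -/
structure Decomp (G : Filtration ℝ≥0 mΩ) (P : Measure Ω) (Y N A : ℝ≥0 → Ω → ℝ) : Prop where
  mart : ContLocMart G P N
  adapted : ∀ t, Measurable[G t] (A t)
  cont : ∀ ω, Continuous fun t => A t ω
  fv : ∀ ω, LocallyBoundedVariationOn (fun t => A t ω) univ
  zero : ∀ ω, A 0 ω = 0
  eq : ∀ t ω, Y t ω = N t ω + A t ω

/-- `Q` is the quadratic variation `[X, X]` of the process `X`: it is continuous, nondecreasing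
and null at zero, and for every `t` the sums of the squares of the increments of `X` over any
sequence of partitions of `[0, t]` whose mesh tends to `0` converge to `Q t` in probability. -/
def IsQV (P : Measure Ω) (X Q : ℝ≥0 → Ω → ℝ) : Prop :=
  (∀ ω, Continuous (fun t => Q t ω) ∧ Monotone (fun t => Q t ω) ∧ Q 0 ω = 0) ∧
  ∀ (t : ℝ≥0) (n : ℕ → ℕ) (π : ℕ → ℕ → ℝ≥0),
    (∀ k, Monotone (π k)) → (∀ k, π k 0 = 0) → (∀ k, π k (n k) = t) →
    (∀ ε : ℝ, 0 < ε → ∀ᶠ k in atTop, ∀ i < n k, (π k (i + 1) : ℝ) - π k i < ε) →
    TendstoInMeasure P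
      (fun k ω => ∑ i ∈ Finset.range (n k), (X (π k (i + 1)) ω - X (π k i) ω) ^ 2) atTop (Q t)

/-- The function `f` on `[0, ∞)` is absolutely continuous with respect to the function `g`: on
every interval `[0, T]`, the sum of the increments of `f` over finitely many disjoint intervals is
small as soon as the sum of the increments of `g` over these intervals is small. -/
def AbsContWrt (f g : ℝ≥0 → ℝ) : Prop :=
  ∀ T : ℝ≥0, ∀ ε : ℝ, 0 < ε → ∃ δ : ℝ, 0 < δ ∧ ∀ (n : ℕ) (a b : ℕ → ℝ≥0),
    (∀ i < n, a i ≤ b i ∧ b i ≤ T) →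
    (∀ i < n, ∀ j < n, i ≠ j → Disjoint (Ioc (a i) (b i)) (Ioc (a j) (b j))) →
    ∑ i ∈ Finset.range n, |g (b i) - g (a i)| < δ →
    ∑ i ∈ Finset.range n, |f (b i) - f (a i)| < ε

end Pool.Agent.Q171.PT
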