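import Pool.Agent.Q171.PT.Refl

/-!
# The joint law of the maximum and of the distance to the maximum
-/

set_option autoImplicit false

namespace Pool.Agent.Q171.PT

open MeasureTheory ProbabilityTheory Set Filter Topology
open Pool.Agent.TH970
open scoped ENNReal NNReal

variable {Ω : Type*} [MeasurableSpace Ω] {P : Measure Ω} [IsProbabilityMeasure P]
  {X : ℝ≥0 → Ω → ℝ}

/-- the tail of `X T` -/
noncomputable def tl (P : Measure Ω) (X : ℝ≥0 → Ω → ℝ) (T : ℝ≥0) (z : ℝ) : ℝ :=
  P.real {ω | z < X T ω}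

lemma tl_nonneg (P : Measure Ω) (X : ℝ≥0 → Ω → ℝ) (T : ℝ≥0) (z : ℝ) : 0 ≤ tl P X T z :=
  measureReal_nonneg

lemma tl_anti (T : ℝ≥0) : Antitone (tl P X T) := by
  intro a b hab
  refine measureReal_mono ?_
  intro ω hω
  exact lt_of_le_of_lt hab hω

lemma law_eq (hX : CBM P X) (T : ℝ≥0) : P.map (X T) = gaussianReal 0 T :=
  (hX.pre.hasLaw_eval T).map_eq

lemma tl_eq (hX : CBM P X) (T : ℝ≥0) (z : ℝ) : tl P X T z = (gaussianReal 0 T).real (Ioi z) := by
  rw [← law_eq hX, map_measureReal_apply (hX.meas T) measurableSet_Ioi]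
  rfl

lemma null_eq (hX : CBM P X) {T : ℝ≥0} (hT : 0 < T) (z : ℝ) : P {ω | X T ω = z} = 0 := by
  have h1 : (P.map (X T)) {z} = 0 := by
    rw [law_eq hX]
    have : NullSingletonClass (gaussianReal 0 T) := nullSingletonClass_gaussianReal hT.ne'
    exact measure_singleton z
  rwa [Measure.map_apply (hX.meas T) (measurableSet_singleton z)] at h1

lemma tl_cont (hX : CBM P X) {T : ℝ≥0} (hT : 0 < T) : Continuous (tl P X T) := by
  rw [continuous_iff_continuousAt]
  intro z
  have h1 : ∀ z, tl P X T z = ∫ ω, ({ω | z < X T ω}).indicator (fun _ => (1:ℝ)) ω ∂P := by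
    intro z
    rw [integral_indicator_const _ (measurableSet_lt measurable_const (hX.meas T))]
    simp [tl]
  have h2 : tl P X T = fun z => ∫ ω, ({ω | z < X T ω}).indicator (fun _ => (1:ℝ)) ω ∂P :=
    funext h1
  rw [h2]
  refine continuousAt_of_dominated (bound := fun _ => (1:ℝ)) ?_ ?_ (integrable_const _) ?_
  · refine Eventually.of_forall fun z => ?_
    exact (measurable_const.indicator
      (measurableSet_lt measurable_const (hX.meas T))).aestronglyMeasurable
  · refine Eventually.of_forall fun z => Eventually.of_forall fun ω => ?_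
    by_cases h : ω ∈ {ω | z < X T ω}
    · simp [indicator_of_mem h]
    · simp [indicator_of_notMem h]
  · have h3 : ∀ᵐ ω ∂P, X T ω ≠ z := by
      rw [ae_iff]
      simpa using null_eq hX hT z
    filter_upwards [h3] with ω hω
    rcases lt_or_gt_of_ne hω with h | h
    · have : (fun z => ({ω | z < X T ω}).indicator (fun _ => (1:ℝ)) ω) =ᶠ[𝓝 z] fun _ => 0 := by
        filter_upwards [lt_mem_nhds h] with y hy
        refine indicator_of_notMem ?_ _
        simp only [Set.mem_ofPred_eq, not_lt]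
        exact hy.le
      exact continuousAt_const.congr this.symm
    · have : (fun z => ({ω | z < X T ω}).indicator (fun _ => (1:ℝ)) ω) =ᶠ[𝓝 z] fun _ => 1 := by
        filter_upwards [gt_mem_nhds h] with y hy
        refine indicator_of_mem ?_ _
        simp only [Set.mem_ofPred_eq]
        exact hy
      exact continuousAt_const.congr this.symm

lemma tl_tendsto (hX : CBM P X) (T : ℝ≥0) : Tendsto (tl P X T) atTop (𝓝 0) := by
  have h1 : ∀ z, tl P X T z = 1 - cdf (gaussianReal 0 T) z := by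
    intro z
    rw [tl_eq hX, cdf_eq_real, ← probReal_compl_eq_one_sub measurableSet_Iic]
    congr 1
    ext x
    simp
  have h2 := (tendsto_cdf_atTop (gaussianReal 0 T)).const_sub 1
  rw [sub_self] at h2
  exact h2.congr fun z => (h1 z).symm

lemma meas_mx (hX : CBM P X) (T : ℝ≥0) : Measurable (fun ω => mx (path X ω) 0 T) :=
  (measurable_mx 0 T).comp hX.mpath

lemma real_refl (hX : CBM P X) {T : ℝ≥0} (hT : 0 < T) {a d : ℝ} (ha : 0 ≤ a) (hd : d ≤ a) :
    P.real {ω | a < mx (path X ω) 0 T ∧ X T ω < d} = tl P X T (2 * a - d) := by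
  have h := joint_reflection hX hT ha (c := a - d) (by linarith)
  have e1 : a - (a - d) = d := by ring
  have e2 : a + (a - d) = 2 * a - d := by ring
  rw [e1, e2] at h
  simp only [Measure.real, tl, h]

lemma real_slice (hX : CBM P X) {T : ℝ≥0} (hT : 0 < T) {a a' d : ℝ} (ha : 0 ≤ a) (hd : d ≤ a)
    (haa : a ≤ a') :
    P.real {ω | (a < mx (path X ω) 0 T ∧ mx (path X ω) 0 T ≤ a') ∧ X T ω < d} =
      tl P X T (2 * a - d) - tl P X T (2 * a' - d) := by
  rw [← real_refl hX hT ha hd, ← real_refl hX hT (ha.trans haa) (hd.trans haa)]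
  have h1 : {ω | (a < mx (path X ω) 0 T ∧ mx (path X ω) 0 T ≤ a') ∧ X T ω < d} =
      {ω | a < mx (path X ω) 0 T ∧ X T ω < d} \ {ω | a' < mx (path X ω) 0 T ∧ X T ω < d} := by
    ext ω
    constructor
    · rintro ⟨⟨h1, h2⟩, h3⟩
      exact ⟨⟨h1, h3⟩, fun h4 => absurd h2 (not_le.mpr h4.1)⟩
    · rintro ⟨⟨h1, h3⟩, h4⟩
      refine ⟨⟨h1, ?_⟩, h3⟩
      by_contra h5
      exact h4 ⟨not_le.mp h5, h3⟩
  rw [h1, measureReal_sdiff]
  · intro ω hω
    exact ⟨lt_of_le_of_lt haa hω.1, hω.2⟩
  · exact (measurableSet_lt measurable_const (meas_mx hX T)).inter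
      (measurableSet_lt (hX.meas T) measurable_const)

lemma telescope (f : ℝ → ℝ) (z δ : ℝ) (n : ℕ) :
    ∑ i ∈ Finset.range n, (f (z + i * δ) - f (z + (i + 2) * δ)) =
      f z + f (z + δ) - f (z + n * δ) - f (z + (n + 1) * δ) := by
  induction n with
  | zero => simp
  | succ n ih =>
    rw [Finset.sum_range_succ, ih]
    push_cast
    have e : z + ((n:ℝ) + 1 + 1) * δ = z + (n + 2) * δ := by ring
    rw [e]
    ring

section
variable (hX : CBM P X) {T : ℝ≥0} (hT : 0 < T)
include hX hT

lemma joint_lower {x y δ : ℝ} (hx : 0 ≤ x) (hy : 0 ≤ y) (hδ : 0 < δ) (n : ℕ) :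
    tl P X T (x + y) + tl P X T (x + y + δ) - tl P X T (x + y + n * δ) -
      tl P X T (x + y + (n + 1) * δ) ≤
    P.real {ω | x < mx (path X ω) 0 T ∧ y < mx (path X ω) 0 T - X T ω} := by
  rw [← telescope]
  set E : ℕ → Set Ω := fun i => {ω | (x + i * δ < mx (path X ω) 0 T ∧
    mx (path X ω) 0 T ≤ x + (i + 1) * δ) ∧ X T ω < x + i * δ - y} with hE
  have h1 : ∀ i ∈ Finset.range n, tl P X T (x + y + i * δ) - tl P X T (x + y + (i + 2) * δ) =
      P.real (E i) := by
    intro i _
    have hi : (0:ℝ) ≤ i * δ := by positivity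
    rw [hE]
    simp only
    rw [real_slice hX hT (by linarith) (by linarith) (by nlinarith)]
    congr 2 <;> ring
  rw [Finset.sum_congr rfl h1, ← measureReal_biUnion_finset]
  · refine measureReal_mono ?_
    intro ω hω
    simp only [mem_iUnion] at hω
    obtain ⟨i, _, ⟨h2, h3⟩, h4⟩ := hω
    have hi : (0:ℝ) ≤ i * δ := by positivity
    refine ⟨by linarith, by linarith⟩
  · intro i _ j _ hij
    simp only [Function.onFun]
    rw [Set.disjoint_left]
    rintro ω ⟨⟨h2, h3⟩, _⟩ ⟨⟨h5, h6⟩, _⟩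
    rcases lt_or_gt_of_ne hij with h | h
    · have : (i:ℝ) + 1 ≤ j := by exact_mod_cast h
      nlinarith
    · have : (j:ℝ) + 1 ≤ i := by exact_mod_cast h
      nlinarith
  · intro i _
    exact ((measurableSet_lt measurable_const (meas_mx hX T)).inter
      (measurableSet_le (meas_mx hX T) measurable_const)).inter
      (measurableSet_lt (hX.meas T) measurable_const)

lemma joint_upper {x y δ : ℝ} (hx : 0 ≤ x) (hδ : 0 < δ) (hδy : δ ≤ y) (n : ℕ) :
    P.real {ω | x < mx (path X ω) 0 T ∧ y < mx (path X ω) 0 T - X T ω} ≤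
      tl P X T (x + y - δ) + tl P X T (x + y) + 2 * tl P X T (x + n * δ) := by
  set E : ℕ → Set Ω := fun i => {ω | (x + i * δ < mx (path X ω) 0 T ∧
    mx (path X ω) 0 T ≤ x + (i + 1) * δ) ∧ X T ω < x + (i + 1) * δ - y} with hE
  have h0 : {ω | x < mx (path X ω) 0 T ∧ y < mx (path X ω) 0 T - X T ω} ⊆
      (⋃ i ∈ Finset.range n, E i) ∪ {ω | x + n * δ < mx (path X ω) 0 T} := by
    rintro ω ⟨h1, h2⟩
    by_cases h3 : x + n * δ < mx (path X ω) 0 T
    · exact Or.inr h3
    left
    push Not at h3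
    set m := mx (path X ω) 0 T with hm
    set k := ⌈(m - x) / δ⌉₊ with hk
    have hpos : 0 < (m - x) / δ := div_pos (by linarith) hδ
    have hk0 : 0 < k := Nat.ceil_pos.mpr hpos
    have hk1 : (m - x) / δ ≤ k := Nat.le_ceil _
    have hk2 : ((k - 1 : ℕ) : ℝ) < (m - x) / δ := by
      rw [← Nat.lt_ceil]
      omega
    have hkn : k ≤ n := by
      rw [hk]
      refine Nat.ceil_le.mpr ?_
      rw [div_le_iff₀ hδ]
      linarith
    rw [div_le_iff₀ hδ] at hk1
    rw [lt_div_iff₀ hδ] at hk2
    have hk3 : ((k - 1 : ℕ) : ℝ) = (k:ℝ) - 1 := by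
      rw [Nat.cast_sub hk0]
      simp
    simp only [mem_iUnion]
    refine ⟨k - 1, Finset.mem_range.mpr (by omega), ⟨?_, ?_⟩, ?_⟩
    · linarith
    · rw [hk3]
      linarith
    · rw [hk3]
      have : (k:ℝ) - 1 + 1 = k := by ring
      rw [this]
      linarith
  have h1 : ∀ i ∈ Finset.range n, P.real (E i) =
      tl P X T (x + y - δ + i * δ) - tl P X T (x + y - δ + (i + 2) * δ) := by
    intro i _
    have hi : (0:ℝ) ≤ i * δ := by positivity
    rw [hE]
    simp only
    rw [real_slice hX hT (by linarith) (by linarith) (by nlinarith)]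
    congr 2 <;> ring
  calc P.real {ω | x < mx (path X ω) 0 T ∧ y < mx (path X ω) 0 T - X T ω}
      ≤ P.real ((⋃ i ∈ Finset.range n, E i) ∪ {ω | x + n * δ < mx (path X ω) 0 T}) :=
        measureReal_mono h0
    _ ≤ P.real (⋃ i ∈ Finset.range n, E i) + P.real {ω | x + n * δ < mx (path X ω) 0 T} :=
        measureReal_union_le _ _
    _ ≤ (∑ i ∈ Finset.range n, P.real (E i)) + 2 * tl P X T (x + n * δ) := by
        refine add_le_add (measureReal_biUnion_finset_le _ _) ?_
        rw [Measure.real, reflection hX hT (by positivity)]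
        simp [tl, Measure.real]
    _ ≤ _ := by
        rw [Finset.sum_congr rfl h1, telescope]
        have h3 := tl_nonneg P X T (x + y - δ + n * δ)
        have h4 := tl_nonneg P X T (x + y - δ + (n + 1) * δ)
        have e : x + y - δ + δ = x + y := by ring
        rw [e]
        linarith

/-- the joint law of the maximum and of the distance to the maximum -/
lemma joint_tail {x y : ℝ} (hx : 0 ≤ x) (hy : 0 ≤ y) :
    P.real {ω | x < mx (path X ω) 0 T ∧ y < mx (path X ω) 0 T - X T ω} =
      2 * tl P X T (x + y) := by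
  have hc := tl_cont hX hT
  have hlim := tl_tendsto hX T
  have hn : ∀ (z : ℝ) (δ : ℝ), 0 < δ → Tendsto (fun n : ℕ => tl P X T (z + n * δ)) atTop (𝓝 0) := by
    intro z δ hδ
    refine hlim.comp ?_
    refine tendsto_atTop_add_const_left _ _ ?_
    exact tendsto_natCast_atTop_atTop.atTop_mul_const hδ
  have hseq : Tendsto (fun n : ℕ => 1 / ((n:ℝ) + 1)) atTop (𝓝 0) :=
    tendsto_one_div_add_atTop_nhds_zero_nat
  apply le_antisymm
  · rcases eq_or_lt_of_le hy with rfl | hy0
    · calc P.real {ω | x < mx (path X ω) 0 T ∧ 0 < mx (path X ω) 0 T - X T ω}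
          ≤ P.real {ω | x < mx (path X ω) 0 T} := measureReal_mono fun ω hω => hω.1
        _ = 2 * tl P X T (x + 0) := by
          rw [Measure.real, reflection hX hT hx, add_zero]
          simp [tl, Measure.real]
    · have h1 : ∀ δ : ℝ, 0 < δ → δ ≤ y →
          P.real {ω | x < mx (path X ω) 0 T ∧ y < mx (path X ω) 0 T - X T ω} ≤
            tl P X T (x + y - δ) + tl P X T (x + y) := by
        intro δ hδ hδy
        have h2 := (hn x δ hδ).const_mul 2 |>.const_add (tl P X T (x + y - δ) + tl P X T (x + y))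
        rw [mul_zero, add_zero] at h2
        exact ge_of_tendsto' h2 fun n => joint_upper hX hT hx hδ hδy n
      have h3 : Tendsto (fun n : ℕ => tl P X T (x + y - 1 / ((n:ℝ) + 1)) + tl P X T (x + y)) atTop
          (𝓝 (tl P X T (x + y - 0) + tl P X T (x + y))) := by
        refine Tendsto.add ?_ tendsto_const_nhds
        exact (hc.tendsto _).comp (hseq.const_sub (x + y))
      rw [sub_zero, ← two_mul] at h3
      refine ge_of_tendsto h3 ?_
      have h4 : ∀ᶠ n : ℕ in atTop, 1 / ((n:ℝ) + 1) < y := hseq.eventually_lt_const hy0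
      filter_upwards [h4] with n hn'
      exact h1 _ (by positivity) hn'.le
  · have h1 : ∀ δ : ℝ, 0 < δ → tl P X T (x + y) + tl P X T (x + y + δ) ≤
        P.real {ω | x < mx (path X ω) 0 T ∧ y < mx (path X ω) 0 T - X T ω} := by
      intro δ hδ
      have h2 := (hn (x + y) δ hδ).const_sub (tl P X T (x + y) + tl P X T (x + y + δ))
      have h3 : Tendsto (fun n : ℕ => tl P X T (x + y + ((n:ℝ) + 1) * δ)) atTop (𝓝 0) := by
        have := hn (x + y + δ) δ hδ
        refine this.congr fun n => ?_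
        congr 1
        ring
      have h4 := h2.sub h3
      rw [sub_zero, sub_zero] at h4
      exact le_of_tendsto' h4 fun n => joint_lower hX hT hx hy hδ n
    have h3 : Tendsto (fun n : ℕ => tl P X T (x + y) + tl P X T (x + y + 1 / ((n:ℝ) + 1))) atTop
        (𝓝 (tl P X T (x + y) + tl P X T (x + y + 0))) := by
      refine Tendsto.add tendsto_const_nhds ?_
      exact (hc.tendsto _).comp (hseq.const_add (x + y))
    rw [add_zero, ← two_mul] at h3
    exact le_of_tendsto' h3 fun n => h1 _ (by positivity)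

end

end Pool.Agent.Q171.PT
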