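import Pool.Agent.Q171.PT.QVb

/-!
# The filtrations and the martingales
-/

set_option autoImplicit false

namespace Pool.Agent.Q171.PT

open MeasureTheory ProbabilityTheory Set Filter Topology
open Pool.Agent.TH970
open scoped ENNReal NNReal

variable {Ω : Type*} [mΩ : MeasurableSpace Ω] {P : Measure Ω}

/-- the completion of a filtration -/
def cpl (P : Measure Ω) [P.IsComplete] (m : ℝ≥0 → MeasurableSpace Ω)
    (hm : Monotone m) (hle : ∀ t, m t ≤ mΩ) : Filtration ℝ≥0 mΩ where
  seq t := eventuallyMeasurableSpace (m t) (ae P)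
  mono' := by
    rintro s t hst A ⟨B, hB, hAB⟩
    exact ⟨B, hm hst B hB, hAB⟩
  le' := by
    rintro t A ⟨B, hB, hAB⟩
    have h1 : NullMeasurableSet A P := (hle t B hB).nullMeasurableSet.congr hAB.symm
    exact h1.measurable_of_complete

section
variable [P.IsComplete] {m : ℝ≥0 → MeasurableSpace Ω} {hm : Monotone m} {hle : ∀ t, m t ≤ mΩ}

lemma cpl_ex {t : ℝ≥0} {A : Set Ω} (hA : MeasurableSet[cpl P m hm hle t] A) :
    ∃ B, MeasurableSet[m t] B ∧ A =ᵐ[P] B := hA

lemma le_cpl (t : ℝ≥0) : m t ≤ cpl P m hm hle t := fun A hA => ⟨A, hA, EventuallyEq.refl _ _⟩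

lemma cpl_null : HasNull (cpl P m hm hle) P := by
  intro A hA
  exact ⟨∅, @MeasurableSet.empty Ω (m 0), ae_eq_empty.mpr hA⟩

end

/-- martingales from conditional expectations of nonnegative processes -/
lemma mart_of [IsProbabilityMeasure P] (F : Filtration ℝ≥0 mΩ) {m : ℝ≥0 → MeasurableSpace Ω}
    (hF : ∀ s A, MeasurableSet[F s] A → ∃ B, MeasurableSet[m s] B ∧ A =ᵐ[P] B)
    {Z : ℝ≥0 → Ω → ℝ} (hZ0 : ∀ t ω, 0 ≤ Z t ω) (hZm : ∀ t, Measurable[F t] (Z t)) (c : ℝ≥0)
    (hfin : ∀ t, ∫⁻ ω, ENNReal.ofReal (Z t ω) ∂P ≠ ∞)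
    (h : ∀ s u B, MeasurableSet[m s] B →
      ∫⁻ ω in B, ENNReal.ofReal (Z (s + u) ω) ∂P =
        ∫⁻ ω in B, ENNReal.ofReal (Z s ω + c * u) ∂P) :
    Martingale (fun t ω => Z t ω - c * t) F P := by
  have hZM : ∀ t, Measurable (Z t) := fun t => (hZm t).mono (F.le t) le_rfl
  have hi : ∀ t, Integrable (Z t) P := by
    intro t
    refine ⟨(hZM t).aestronglyMeasurable, ?_⟩
    rw [hasFiniteIntegral_iff_ofReal (Eventually.of_forall (hZ0 t))]
    exact (hfin t).lt_top
  have hi' : ∀ t : ℝ≥0, Integrable (fun ω => Z t ω - c * t) P := fun t =>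
    (hi t).sub (integrable_const _)
  have hm' : ∀ t : ℝ≥0, Measurable[F t] (fun ω => Z t ω - c * t) := fun t =>
    (hZm t).sub_const _
  refine ⟨fun t => (hm' t).stronglyMeasurable, fun s t hst => ?_⟩
  refine (ae_eq_condExp_of_forall_setIntegral_eq (F.le s) (hi' t)
    (fun A _ _ => (hi' s).integrableOn) (fun A hA _ => ?_)
    (hm' s).stronglyMeasurable.aestronglyMeasurable).symm
  obtain ⟨B, hB, hAB⟩ := hF s A hA
  rw [setIntegral_congr_set hAB, setIntegral_congr_set hAB]
  obtain ⟨u, rfl⟩ := exists_add_of_le hst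
  have h1 : ∫ ω in B, Z (s + u) ω ∂P = ∫ ω in B, (Z s ω + c * u) ∂P := by
    rw [integral_eq_lintegral_of_nonneg_ae (Eventually.of_forall (hZ0 _))
      (hZM _).aestronglyMeasurable, integral_eq_lintegral_of_nonneg_ae
      (Eventually.of_forall fun ω => add_nonneg (hZ0 _ _) (by positivity))
      ((hZM s).add_const _).aestronglyMeasurable, h s u B hB]
  rw [integral_sub (hi s).integrableOn (integrable_const _).integrableOn,
    integral_sub (hi (s + u)).integrableOn (integrable_const _).integrableOn, h1,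
    integral_add (hi s).integrableOn (integrable_const _).integrableOn]
  simp only [integral_const, NNReal.coe_add]
  simp only [smul_eq_mul]
  ring

variable [IsProbabilityMeasure P] {X : ℝ≥0 → Ω → ℝ}

section
variable [P.IsComplete] (hX : CBM P X)
include hX

/-- the completed filtration of the Brownian motion -/
noncomputable def GG : Filtration ℝ≥0 mΩ :=
  cpl P (GX X) (fun _ _ h => GX_mono X h) (GX_le hX)

/-- the completed filtration of `2 max - X` -/
noncomputable def FF : Filtration ℝ≥0 mΩ :=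
  cpl P (natF (RR X)) (fun _ _ h => natF_mono _ h) fun t => (natF_le_GX X t).trans (GX_le hX t)

lemma FF_le_GG (t : ℝ≥0) : FF hX t ≤ GG hX t := by
  rintro A ⟨B, hB, hAB⟩
  exact ⟨B, natF_le_GX X t B hB, hAB⟩

lemma pq_adapted (t : ℝ≥0) : Measurable[GG hX t] (pq X t) :=
  (meas_pq_GX X le_rfl).mono (le_cpl (P := P) t) le_rfl

lemma X_adapted (t : ℝ≥0) : Measurable[GG hX t] (X t) :=
  (meas_X_GX X le_rfl).mono (le_cpl (P := P) t) le_rfl

lemma RR_adapted (t : ℝ≥0) : Measurable[FF hX t] (RR X t) := by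
  have h1 : MeasurableSpace.comap (RR X t) inferInstance ≤ natF (RR X) t :=
    le_iSup₂_of_le (f := fun u (_ : u ∈ Iic t) => MeasurableSpace.comap (RR X u) inferInstance)
      t (mem_Iic.mpr le_rfl) le_rfl
  have h2 : MeasurableSpace.comap (RR X t) inferInstance ≤ FF hX t :=
    h1.trans (le_cpl (P := P) t)
  exact Measurable.mono (comap_measurable _) h2 le_rfl

lemma q_mart : Martingale (fun t ω => (pq X t ω).2 ^ 2 - (1 : ℝ≥0) * t) (GG hX) P := by
  refine mart_of (GG hX) (m := GX X) (Z := fun t ω => (pq X t ω).2 ^ 2)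
    (fun s A hA => cpl_ex hA) (fun t ω => sq_nonneg _)
    (fun t => (measurable_snd.comp (pq_adapted hX t)).pow_const 2) 1
    (fun t => by
      rw [lint_q_sq hX]
      exact ENNReal.ofReal_ne_top) (fun s u B hB => ?_)
  rw [cond_q_sq hX s u hB]
  simp

lemma X_mart : Martingale (fun t ω => X t ω ^ 2 - (1 : ℝ≥0) * t) (GG hX) P := by
  refine mart_of (GG hX) (m := GX X) (fun s A hA => cpl_ex hA) (fun t ω => sq_nonneg _)
    (fun t => (X_adapted hX t).pow_const 2) 1
    (fun t => by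
      rw [lint_X_sq hX]
      exact ENNReal.ofReal_ne_top) (fun s u B hB => ?_)
  rw [cond_X_sq hX s u hB]
  simp

lemma lint_RR_sq (t : ℝ≥0) : ∫⁻ ω, ENNReal.ofReal (RR X t ω ^ 2) ∂P ≠ ∞ := by
  have h1 := cond_RR_sq hX 0 t (A := univ) MeasurableSet.univ
  rw [zero_add, Measure.restrict_univ] at h1
  rw [h1]
  have h2 : ∀ ω, RR X 0 ω = 0 := by
    intro ω
    rw [RR_eq, mx_zero, hX.path_zero, hX.zero]
    ring
  simp only [h2]
  simp
  finiteness

lemma R_mart : Martingale (fun t ω => RR X t ω ^ 2 - (3 : ℝ≥0) * t) (FF hX) P := by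
  refine mart_of (FF hX) (m := natF (RR X)) (fun s A hA => cpl_ex hA) (fun t ω => sq_nonneg _)
    (fun t => (RR_adapted hX t).pow_const 2) 3 (lint_RR_sq hX) (fun s u B hB => ?_)
  exact cond_RR_sq hX s u hB

/-- the process `(2 max - X)² - 3 t` -/
noncomputable def MM (X : ℝ≥0 → Ω → ℝ) (t : ℝ≥0) (ω : Ω) : ℝ := RR X t ω ^ 2 - 3 * t

lemma M_mart : Martingale (MM X) (FF hX) P := by
  have h := R_mart hX
  exact h

lemma N_mart : Martingale (NN X) (GG hX) P := by
  have h := ((q_mart hX).smul (2:ℝ)).sub (X_mart hX)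
  have e : (2:ℝ) • (fun (t : ℝ≥0) ω => (pq X t ω).2 ^ 2 - ((1 : ℝ≥0) : ℝ) * t) -
      (fun (t : ℝ≥0) ω => X t ω ^ 2 - ((1 : ℝ≥0) : ℝ) * t) = NN X := by
    funext t ω
    unfold NN
    simp only [Pi.sub_apply, Pi.smul_apply, smul_eq_mul, NNReal.coe_one, one_mul]
    ring
  rw [e] at h
  exact h

lemma zero_at : ∀ ω, pq X 0 ω = (0, 0) := by
  intro ω
  unfold pq
  rw [mx_zero, hX.path_zero, hX.zero, sub_zero]

lemma MM_zero (ω : Ω) : MM X 0 ω = 0 := by
  unfold MM RR
  rw [zero_at hX ω]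
  simp

lemma NN_zero (ω : Ω) : NN X 0 ω = 0 := by
  unfold NN
  rw [zero_at hX ω, hX.zero]
  simp

lemma M_loc : ContLocMart (FF hX) P (MM X) := by
  refine ⟨fun t => ?_, fun ω => ?_, ?_⟩
  · exact ((RR_adapted hX t).pow_const 2).sub_const _
  · have h := cont_RR hX ω
    have h2 : Continuous (fun t : ℝ≥0 => (t:ℝ)) := NNReal.continuous_coe
    unfold MM
    fun_prop
  · have e : (fun (t : ℝ≥0) ω => MM X t ω - MM X 0 ω) = MM X := by
      funext t ω
      rw [MM_zero hX, sub_zero]
    rw [e]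
    exact Locally.of_prop (M_mart hX)

lemma N_loc : ContLocMart (GG hX) P (NN X) := by
  have hN := N_mart hX
  refine ⟨fun t => (hN.1 t).measurable, fun ω => ?_, ?_⟩
  · have h := cont_pq hX ω
    have h1 := h.snd
    have h2 : Continuous (fun t : ℝ≥0 => (t:ℝ)) := NNReal.continuous_coe
    have h3 : Continuous (fun t => X t ω) := hX.cont ω
    exact ((continuous_const.mul (h1.pow 2)).sub (h3.pow 2)).sub h2
  · have e : (fun (t : ℝ≥0) ω => NN X t ω - NN X 0 ω) = NN X := by
      funext t ω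
      rw [NN_zero hX, sub_zero]
    rw [e]
    exact Locally.of_prop hN

end

lemma fv_sub {g h : ℝ≥0 → ℝ} (hg : LocallyBoundedVariationOn g univ)
    (hh : LocallyBoundedVariationOn h univ) :
    LocallyBoundedVariationOn (fun t => g t - h t) univ := by
  intro a b ha hb
  have h1 := hg a b ha hb
  have h2 := hh a b ha hb
  refine ne_top_of_le_ne_top (ENNReal.add_ne_top.mpr ⟨h1, h2⟩) (iSup_le ?_)
  rintro ⟨n, u, hu, hus⟩
  have h3 := eVariationOn.sum_le (f := g) (s := univ ∩ Icc a b) (n := n) hu hus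
  have h4 := eVariationOn.sum_le (f := h) (s := univ ∩ Icc a b) (n := n) hu hus
  refine le_trans ?_ (add_le_add h3 h4)
  rw [← Finset.sum_add_distrib]
  refine Finset.sum_le_sum fun i _ => ?_
  simp only
  rw [sub_eq_add_neg, sub_eq_add_neg]
  refine (edist_add_add_le _ _ _ _).trans ?_
  rw [edist_neg_neg]

theorem decomp [P.IsComplete] (hX : CBM P X) : Decomp (GG hX) P (MM X) (NN X) (AA X) := by
  refine ⟨N_loc hX, fun t => ?_, fun ω => ?_, fun ω => ?_, fun ω => ?_, fun t ω => ?_⟩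
  · exact (((measurable_fst.comp (pq_adapted hX t)).pow_const 2).const_mul 2).sub_const _
  · have h := (cont_pq hX ω).fst
    have h2 : Continuous (fun t : ℝ≥0 => (t:ℝ)) := NNReal.continuous_coe
    exact (continuous_const.mul (h.pow 2)).sub (continuous_const.mul h2)
  · unfold AA
    refine fv_sub ?_ ?_
    · refine MonotoneOn.locallyBoundedVariationOn ?_
      intro s _ t _ hst
      have h1 : (pq X s ω).1 ≤ (pq X t ω).1 := mx_mono' (hX.cont ω) hst
      have h2 := (pq_nonneg hX s ω).1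
      simp only
      gcongr
    · refine MonotoneOn.locallyBoundedVariationOn ?_
      intro s _ t _ hst
      have h1 : (s:ℝ) ≤ t := hst
      simp only
      linarith
  · unfold AA
    rw [zero_at hX ω]
    simp
  · unfold MM NN AA RR
    have e : X t ω = (pq X t ω).1 - (pq X t ω).2 := by
      unfold pq
      simp only
      ring
    rw [e]
    ring

end Pool.Agent.Q171.PT
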