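import Pool.Agent.Q171.PT.Unif

/-!
# The conditional law of the maximum given the past of `2 max - X`
-/

set_option autoImplicit false

namespace Pool.Agent.Q171.PT

open MeasureTheory ProbabilityTheory Set Filter Topology
open Pool.Agent.TH970
open scoped ENNReal NNReal

section paths

variable {w : ℝ≥0 → ℝ}

lemma mx_zero (w : ℝ≥0 → ℝ) : mx w 0 0 = w 0 := by
  unfold mx
  have : ∀ n, w (max 0 (min (dq n) 0)) = w 0 := by
    intro n
    simp
  simp only [this]
  exact ciSup_const

lemma mx_add (hw : Continuous w) (s u : ℝ≥0) :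
    mx w 0 (s + u) = max (mx w 0 s) (w s + mx (fun r => w (s + r) - w s) 0 u) := by
  have hw' : Continuous (fun r => w (s + r) - w s) := by fun_prop
  apply le_antisymm
  · refine mx_le zero_le fun v _ hv => ?_
    rcases le_total v s with h | h
    · exact le_max_of_le_left (le_mx hw zero_le h)
    · refine le_max_of_le_right ?_
      have h1 : v - s ≤ u := tsub_le_iff_left.mpr hv
      have h2 := le_mx hw' (zero_le (a := v - s)) h1
      simp only [add_tsub_cancel_of_le h] at h2
      linarith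
  · refine max_le (mx_mono hw zero_le le_self_add) ?_
    obtain ⟨r, _, hr, he⟩ := exists_mx hw' (zero_le (a := u))
    rw [he]
    have h2 := le_mx hw (zero_le (a := s + r)) (add_le_add_right hr s)
    linarith

end paths

section
variable {Ω : Type*}

/-- the pair (maximum, distance to the maximum) -/
noncomputable def pq (X : ℝ≥0 → Ω → ℝ) (t : ℝ≥0) (ω : Ω) : ℝ × ℝ :=
  (mx (path X ω) 0 t, mx (path X ω) 0 t - X t ω)

/-- the process `2 max - X` -/
noncomputable def RR (X : ℝ≥0 → Ω → ℝ) (t : ℝ≥0) (ω : Ω) : ℝ := (pq X t ω).1 + (pq X t ω).2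

/-- the information given by the path up to time `s` -/
@[reducible] def GX (X : ℝ≥0 → Ω → ℝ) (s : ℝ≥0) : MeasurableSpace Ω :=
  MeasurableSpace.comap (fun ω (u : Iic s) => X u ω) inferInstance

/-- the information given by the process `Y` up to time `s` -/
@[reducible] def natF (Y : ℝ≥0 → Ω → ℝ) (s : ℝ≥0) : MeasurableSpace Ω :=
  ⨆ u ∈ Iic s, MeasurableSpace.comap (Y u) inferInstance

lemma meas_pq_of [MeasurableSpace Ω] {X : ℝ≥0 → Ω → ℝ} {u : ℝ≥0}
    (h : ∀ v, v ≤ u → Measurable (X v)) : Measurable (pq X u) := by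
  have h1 : Measurable (fun ω => mx (path X ω) 0 u) := by
    unfold mx path
    exact Measurable.iSup fun n => h _ (max_le zero_le (min_le_right _ _))
  exact h1.prodMk (h1.sub (h u le_rfl))

lemma meas_X_GX (X : ℝ≥0 → Ω → ℝ) {u s : ℝ≥0} (h : u ≤ s) : Measurable[GX X s] (X u) := by
  have h1 : Measurable[GX X s] (fun ω (u : Iic s) => X u ω) := comap_measurable _
  exact (measurable_pi_apply (⟨u, h⟩ : Iic s)).comp h1

lemma meas_pq_GX (X : ℝ≥0 → Ω → ℝ) {u s : ℝ≥0} (h : u ≤ s) : Measurable[GX X s] (pq X u) :=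
  @meas_pq_of Ω (GX X s) X u fun _ hv => meas_X_GX X (hv.trans h)

lemma meas_RR_GX (X : ℝ≥0 → Ω → ℝ) {u s : ℝ≥0} (h : u ≤ s) : Measurable[GX X s] (RR X u) := by
  have h1 := meas_pq_GX X h
  exact (measurable_fst.add measurable_snd).comp h1

lemma natF_le_GX (X : ℝ≥0 → Ω → ℝ) (s : ℝ≥0) : natF (RR X) s ≤ GX X s := by
  refine iSup₂_le fun u hu => ?_
  exact (meas_RR_GX X hu).comap_le

lemma GX_mono (X : ℝ≥0 → Ω → ℝ) {s t : ℝ≥0} (h : s ≤ t) : GX X s ≤ GX X t := by
  have h1 : Measurable[GX X t] (fun ω (u : Iic s) => X u ω) :=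
    @measurable_pi_lambda _ _ _ (GX X t) _ _ fun u => meas_X_GX X (le_trans u.2 h)
  exact h1.comap_le

lemma natF_mono (Y : ℝ≥0 → Ω → ℝ) {s t : ℝ≥0} (h : s ≤ t) : natF Y s ≤ natF Y t := by
  refine iSup₂_le fun u hu => ?_
  exact le_iSup₂_of_le (f := fun u (_ : u ∈ Iic t) => MeasurableSpace.comap (Y u) inferInstance)
    u (le_trans hu h) le_rfl

lemma RR_eq (X : ℝ≥0 → Ω → ℝ) (t : ℝ≥0) (ω : Ω) :
    RR X t ω = 2 * mx (path X ω) 0 t - X t ω := by
  unfold RR pq
  ring

end

variable {Ω : Type*} [MeasurableSpace Ω] {P : Measure Ω} [IsProbabilityMeasure P]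
  {X : ℝ≥0 → Ω → ℝ}

lemma GX_le (hX : CBM P X) (s : ℝ≥0) : GX X s ≤ (inferInstance : MeasurableSpace Ω) := by
  have h1 : Measurable (fun ω (u : Iic s) => X u ω) := measurable_pi_lambda _ fun u => hX.meas _
  exact h1.comap_le

lemma meas_pq (hX : CBM P X) (t : ℝ≥0) : Measurable (pq X t) := meas_pq_of fun _ _ => hX.meas _

lemma meas_RR (hX : CBM P X) (t : ℝ≥0) : Measurable (RR X t) :=
  (measurable_fst.add measurable_snd).comp (meas_pq hX t)

lemma pq_nonneg (hX : CBM P X) (t : ℝ≥0) (ω : Ω) : 0 ≤ (pq X t ω).1 ∧ 0 ≤ (pq X t ω).2 := by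
  refine ⟨?_, ?_⟩
  · have := le_mx (hX.cont ω) (zero_le (a := 0)) (zero_le (a := t))
    rw [hX.path_zero] at this
    exact this
  · have := le_mx (hX.cont ω) (zero_le (a := t)) le_rfl
    exact sub_nonneg.mpr this

lemma pq_add (hX : CBM P X) (s u : ℝ≥0) (ω : Ω) :
    pq X (s + u) ω = stp u (pq X s ω) (fun r => X (s + r) ω - X s ω) := by
  have h1 := mx_add (hX.cont ω) s u
  have h2 : (pq X s ω).1 - (pq X s ω).2 = X s ω := by
    unfold pq
    simp only
    ring
  unfold stp
  rw [h2]
  have h3 : mx (path X ω) 0 (s + u) =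
      max (pq X s ω).1 (X s ω + mx (fun r => X (s + r) ω - X s ω) 0 u) := h1
  unfold pq at h3 ⊢
  rw [h3]
  congr 1
  ring

/-- The Markov property. -/
lemma markov (hX : CBM P X) (s : ℝ≥0) {A : Set Ω} (hA : MeasurableSet[GX X s] A)
    {H : (ℝ × ℝ) × (ℝ≥0 → ℝ) → ℝ≥0∞} (hH : Measurable H) :
    ∫⁻ ω in A, H (pq X s ω, fun r => X (s + r) ω - X s ω) ∂P =
      ∫⁻ ω in A, (∫⁻ ω', H (pq X s ω, path X ω') ∂P) ∂P := by
  set X' : ℝ≥0 → Ω → ℝ := fun t ω => X (s + t) ω - X s ω with hX'
  have hm' : ∀ t, Measurable (X' t) := fun t => (hX.meas _).sub (hX.meas _)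
  set res : Ω → (Iic s → ℝ) := fun ω t => X t ω with hres
  have hr : Measurable res := measurable_pi_iff.mpr fun t => hX.meas _
  have hind : IndepFun (path X') res P := hX.pre.indepFun_shift s
  have hlaw : P.map (path X') = P.map (path X) :=
    law_unique (hX.pre.shift s) hX.pre hm' hX.meas
  have hj := (indepFun_iff_map_prod_eq_prod_map_map (measurable_path hm').aemeasurable
    hr.aemeasurable).mp hind
  obtain ⟨A', hA', rfl⟩ := hA
  set Y : ℝ≥0 → (Iic s → ℝ) → ℝ := fun v f => f ⟨min v s, mem_Iic.mpr (min_le_right _ _)⟩ with hY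
  have hYm : ∀ v, Measurable (Y v) := fun v => measurable_pi_apply _
  have hpY : Measurable (pq Y s) := meas_pq_of fun v _ => hYm v
  have hpe : ∀ ω, pq Y s (res ω) = pq X s ω := by
    intro ω
    have h1 : Y s (res ω) = X s ω := by
      simp only [hY, hres, min_self]
    have h2 : mx (path Y (res ω)) 0 s = mx (path X ω) 0 s := by
      unfold mx
      congr 1
      funext n
      simp only [path, hY, hres]
      congr 1
      exact min_eq_left (max_le zero_le (min_le_right _ _))
    unfold pq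
    rw [h1, h2]
  have hCm : Measurable (fun q : (ℝ≥0 → ℝ) × (Iic s → ℝ) =>
      A'.indicator (fun _ => (1:ℝ≥0∞)) q.2 * H (pq Y s q.2, q.1)) := by
    refine Measurable.mul ?_ ?_
    · exact (measurable_const.indicator hA').comp measurable_snd
    · exact hH.comp ((hpY.comp measurable_snd).prodMk measurable_fst)
  have hAm : MeasurableSet (res ⁻¹' A') := hr hA'
  have hp1 : IsProbabilityMeasure (P.map (path X)) :=
    Measure.isProbabilityMeasure_map hX.mpath.aemeasurable
  have hp2 : IsProbabilityMeasure (P.map res) :=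
    Measure.isProbabilityMeasure_map hr.aemeasurable
  have hL : ∫⁻ ω in res ⁻¹' A', H (pq X s ω, fun r => X (s + r) ω - X s ω) ∂P =
      ∫⁻ q, A'.indicator (fun _ => (1:ℝ≥0∞)) q.2 * H (pq Y s q.2, q.1)
        ∂((P.map (path X)).prod (P.map res)) := by
    rw [← hlaw, ← hj, lintegral_map hCm ((measurable_path hm').prodMk hr),
      ← lintegral_indicator hAm]
    refine lintegral_congr fun ω => ?_
    simp only
    rw [hpe]
    by_cases h : ω ∈ res ⁻¹' A'
    · rw [indicator_of_mem h, indicator_of_mem (show res ω ∈ A' from h), one_mul]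
      rfl
    · rw [indicator_of_notMem h, indicator_of_notMem (show res ω ∉ A' from h), zero_mul]
  change ∫⁻ ω in res ⁻¹' A', H (pq X s ω, fun r => X (s + r) ω - X s ω) ∂P = _
  rw [hL, lintegral_prod_symm _ hCm.aemeasurable]
  have h3 : Measurable fun y => ∫⁻ x, A'.indicator (fun _ => (1:ℝ≥0∞)) y * H (pq Y s y, x)
      ∂(P.map (path X)) := hCm.lintegral_prod_left'
  rw [lintegral_map h3 hr, ← lintegral_indicator (show MeasurableSet
    ((fun ω (u : Iic s) => X u ω) ⁻¹' A') from hAm)]
  refine lintegral_congr fun ω => ?_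
  rw [hpe]
  by_cases h : ω ∈ res ⁻¹' A'
  · have h4 : Measurable (fun x : ℝ≥0 → ℝ => H (pq X s ω, x)) :=
      hH.comp (measurable_const.prodMk measurable_id)
    rw [indicator_of_mem (show ω ∈ ((fun ω (u : Iic s) => X u ω) ⁻¹' A') from h),
      indicator_of_mem (show res ω ∈ A' from h)]
    simp only [one_mul]
    rw [lintegral_map h4 hX.mpath]
  · rw [indicator_of_notMem (show ω ∉ ((fun ω (u : Iic s) => X u ω) ⁻¹' A') from h),
      indicator_of_notMem (show res ω ∉ A' from h)]
    simp

/-- on the event `A`, the pair at time `t` is uniform on its segment -/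
def UA (P : Measure Ω) (X : ℝ≥0 → Ω → ℝ) (A : Set Ω) (t : ℝ≥0) : Prop :=
  ∀ g : ℝ × ℝ → ℝ≥0∞, Measurable g →
    ∫⁻ ω in A, g (pq X t ω) ∂P = ∫⁻ ω in A, Lam g (RR X t ω) ∂P

lemma UA_zero (hX : CBM P X) (A : Set Ω) : UA P X A 0 := by
  intro g _
  refine lintegral_congr fun ω => ?_
  have h1 : pq X 0 ω = (0, 0) := by
    unfold pq
    rw [mx_zero, hX.path_zero, hX.zero, sub_zero]
  unfold RR Lam
  rw [h1]
  simp

lemma UA_inter (hX : CBM P X) {A : Set Ω} {t : ℝ≥0} (h : UA P X A t)
    {B : Set Ω} (hB : MeasurableSet[MeasurableSpace.comap (RR X t) inferInstance] B) :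
    UA P X (A ∩ B) t := by
  obtain ⟨B', hB', rfl⟩ := hB
  intro g hg
  have hBm : MeasurableSet (RR X t ⁻¹' B') := meas_RR hX t hB'
  have h1 := h (fun a => B'.indicator (fun _ => (1:ℝ≥0∞)) (a.1 + a.2) * g a) (by
    refine Measurable.mul ?_ hg
    exact (measurable_const.indicator hB').comp (by fun_prop))
  have h2 : ∫⁻ ω in A ∩ RR X t ⁻¹' B', g (pq X t ω) ∂P =
      ∫⁻ ω in A, B'.indicator (fun _ => (1:ℝ≥0∞)) ((pq X t ω).1 + (pq X t ω).2) *
        g (pq X t ω) ∂P := by
    rw [inter_comm, ← Measure.restrict_restrict hBm, ← lintegral_indicator hBm]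
    refine lintegral_congr fun ω => ?_
    by_cases hω : ω ∈ RR X t ⁻¹' B'
    · rw [indicator_of_mem hω, indicator_of_mem (show (pq X t ω).1 + (pq X t ω).2 ∈ B' from hω),
        one_mul]
    · rw [indicator_of_notMem hω,
        indicator_of_notMem (show (pq X t ω).1 + (pq X t ω).2 ∉ B' from hω), zero_mul]
  rw [h2, h1, inter_comm, ← Measure.restrict_restrict hBm, ← lintegral_indicator hBm]
  refine lintegral_congr fun ω => ?_
  unfold Lam
  have e : ∀ θ : ℝ, θ * RR X t ω + (1 - θ) * RR X t ω = RR X t ω := fun θ => by ring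
  simp only [e]
  by_cases hω : ω ∈ RR X t ⁻¹' B'
  · rw [indicator_of_mem hω, indicator_of_mem (show RR X t ω ∈ B' from hω)]
    simp only [one_mul]
  · rw [indicator_of_notMem hω, indicator_of_notMem (show RR X t ω ∉ B' from hω)]
    simp

lemma pq_pos_ae (hX : CBM P X) {t : ℝ≥0} (ht : 0 < t) :
    ∀ᵐ ω ∂P, 0 < (pq X t ω).1 ∧ 0 < (pq X t ω).2 := by
  have h1 := joint_tail hX ht (x := 0) (y := 0) le_rfl le_rfl
  have h2 : 2 * tl P X t (0 + 0) = 1 := by
    have h3 : tl P X t 0 = P.real {ω | X t ω < 0} := by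
      unfold tl Measure.real
      rw [gt_symm hX, neg_zero]
    have h4 : P.real {ω | 0 < X t ω} + P.real {ω | X t ω < 0} + P.real {ω | X t ω = 0} = 1 := by
      rw [← measureReal_union, ← measureReal_union]
      · have : {ω | 0 < X t ω} ∪ {ω | X t ω < 0} ∪ {ω | X t ω = 0} = univ := by
          ext ω
          simp only [mem_union, Set.mem_ofPred_eq, mem_univ, iff_true]
          rcases lt_trichotomy (X t ω) 0 with h | h | h
          · exact Or.inl (Or.inr h)
          · exact Or.inr h
          · exact Or.inl (Or.inl h)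
        rw [this]
        simp
      · rw [Set.disjoint_left]
        rintro ω (h | h) h'
        · exact absurd h' (ne_of_gt h)
        · exact absurd h' (ne_of_lt h)
      · exact measurableSet_eq_fun (hX.meas t) measurable_const
      · rw [Set.disjoint_left]
        intro ω h h'
        exact lt_asymm (show 0 < X t ω from h) h'
      · exact measurableSet_lt (hX.meas t) measurable_const
    have h5 : P.real {ω | X t ω = 0} = 0 := by
      rw [Measure.real, null_eq hX ht 0]
      rfl
    rw [h5, ← h3] at h4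
    rw [add_zero, two_mul]
    have h6 : P.real {ω | 0 < X t ω} = tl P X t 0 := rfl
    rw [h6] at h4
    linarith
  rw [h2] at h1
  have hm : MeasurableSet {ω | 0 < mx (path X ω) 0 t ∧ 0 < mx (path X ω) 0 t - X t ω} :=
    (measurableSet_lt measurable_const (meas_mx hX t)).inter
      (measurableSet_lt measurable_const ((meas_mx hX t).sub (hX.meas t)))
  have h7 : ∀ᵐ ω ∂P, ω ∈ {ω | 0 < mx (path X ω) 0 t ∧ 0 < mx (path X ω) 0 t - X t ω} := by
    refine (mem_ae_iff_prob_eq_one hm).mpr ?_
    exact (ENNReal.toReal_eq_one_iff _).mp h1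
  filter_upwards [h7] with ω hω
  exact hω

lemma UA_step (hX : CBM P X) {A : Set Ω} {s t : ℝ≥0} (hst : s < t)
    (hA : MeasurableSet[GX X s] A) (h : UA P X A s) : UA P X A t := by
  obtain ⟨u, rfl⟩ := exists_add_of_le hst.le
  have hu : 0 < u := by
    rcases eq_or_lt_of_le (zero_le (a := u)) with h | h
    · exfalso
      rw [← h, add_zero] at hst
      exact lt_irrefl _ hst
    · exact h
  have hAm : MeasurableSet A := GX_le hX s A hA
  have htail : ∀ x y : ℝ, ∫⁻ ω in A, gg P X u x y (pq X s ω) ∂P =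
      (P.restrict A).map (pq X (s + u)) (Ioi x ×ˢ Ioi y) := by
    intro x y
    have hS : MeasurableSet (Ioi x ×ˢ Ioi y) := measurableSet_Ioi.prod measurableSet_Ioi
    rw [Measure.map_apply (meas_pq hX _) hS, ← lintegral_indicator_one (meas_pq hX _ hS)]
    have h1 := markov hX s hA (H := fun z => (Ioi x ×ˢ Ioi y).indicator (fun _ => (1:ℝ≥0∞))
      (stp u z.1 z.2)) ((measurable_const.indicator hS).comp (measurable_stp u))
    simp only at h1
    have h2 : ∀ ω, ∫⁻ ω', (Ioi x ×ˢ Ioi y).indicator (fun _ => (1:ℝ≥0∞))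
        (stp u (pq X s ω) (path X ω')) ∂P = gg P X u x y (pq X s ω) := by
      intro ω
      have hS' : MeasurableSet {ω' | stp u (pq X s ω) (path X ω') ∈ Ioi x ×ˢ Ioi y} :=
        meas_stp hX u _ hS
      unfold gg
      have e : {ω' | x < (stp u (pq X s ω) (path X ω')).1 ∧ y < (stp u (pq X s ω) (path X ω')).2} =
          {ω' | stp u (pq X s ω) (path X ω') ∈ Ioi x ×ˢ Ioi y} := rfl
      rw [e, ← lintegral_indicator_one hS']
      rfl
    simp only [h2] at h1
    rw [← h1]
    refine lintegral_congr fun ω => ?_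
    rw [← pq_add hX]
    rfl
  intro g hg
  have hfin : IsFiniteMeasure ((P.restrict A).map (pq X (s + u))) := by infer_instance
  have h3 := unif_of_tail (ν := (P.restrict A).map (pq X (s + u))) ?_ ?_ hg
  · rw [lintegral_map hg (meas_pq hX _), lintegral_map _ (meas_pq hX _)] at h3
    · exact h3
    · exact (measurable_Lam hg).comp (by fun_prop)
  · rw [ae_map_iff (meas_pq hX _).aemeasurable]
    · exact ae_restrict_of_ae (pq_pos_ae hX (lt_of_lt_of_le hu le_add_self))
    · exact (measurableSet_lt measurable_const measurable_fst).inter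
        (measurableSet_lt measurable_const measurable_snd)
  · intro x y h' hx hy hh
    rw [← htail, ← htail]
    have m1 : ∀ x y, Measurable (gg P X u x y) := by
      intro x y
      have hS : MeasurableSet (Ioi x ×ˢ Ioi y) := measurableSet_Ioi.prod measurableSet_Ioi
      have e : gg P X u x y = fun a => ∫⁻ ω', (Ioi x ×ˢ Ioi y).indicator (fun _ => (1:ℝ≥0∞))
          (stp u a (path X ω')) ∂P := by
        funext a
        have hS' : MeasurableSet {ω' | stp u a (path X ω') ∈ Ioi x ×ˢ Ioi y} :=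
          meas_stp hX u _ hS
        unfold gg
        have e : {ω' | x < (stp u a (path X ω')).1 ∧ y < (stp u a (path X ω')).2} =
          {ω' | stp u a (path X ω') ∈ Ioi x ×ˢ Ioi y} := rfl
        rw [e, ← lintegral_indicator_one hS']
        rfl
      rw [e]
      have hm : Measurable (fun z : (ℝ × ℝ) × Ω => (Ioi x ×ˢ Ioi y).indicator
          (fun _ => (1:ℝ≥0∞)) (stp u z.1 (path X z.2))) := by
        have hm0 : Measurable (fun z : (ℝ × ℝ) × Ω => (z.1, path X z.2)) :=
          measurable_fst.prodMk (hX.mpath.comp measurable_snd)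
        have hm1 : Measurable (fun z : (ℝ × ℝ) × Ω => stp u z.1 (path X z.2)) :=
          (measurable_stp u).comp hm0
        exact (measurable_const.indicator hS).comp hm1
      exact hm.lintegral_prod_right'
    rw [h _ (m1 _ _), h _ (m1 _ _)]
    refine lintegral_congr fun ω => ?_
    have hn := pq_nonneg hX s ω
    exact Lam_shift hX hu hx hy hh (add_nonneg hn.1 hn.2)

end Pool.Agent.Q171.PT
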