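import Pool.Agent.Q171.PT.Cond
import Pool.Agent.Q171.PT.Defs

/-!
# Quadratic variation: the probabilistic part
-/

set_option autoImplicit false

namespace Pool.Agent.Q171.PT

open MeasureTheory ProbabilityTheory Set Filter Topology
open Pool.Agent.TH970
open scoped ENNReal NNReal

lemma mm2 {Ω : Type*} {m : MeasurableSpace Ω} {f g : Ω → ℝ} (hf : Measurable[m] f)
    (hg : Measurable[m] g) {φ : ℝ × ℝ → ℝ} (hφ : Measurable φ) :
    Measurable[m] (fun ω => φ (f ω, g ω)) := hφ.comp (hf.prodMk hg)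

lemma mm3 {Ω : Type*} {m : MeasurableSpace Ω} {f g h : Ω → ℝ} (hf : Measurable[m] f)
    (hg : Measurable[m] g) (hh : Measurable[m] h) {φ : ℝ × ℝ × ℝ → ℝ} (hφ : Measurable φ) :
    Measurable[m] (fun ω => φ (f ω, g ω, h ω)) := hφ.comp (hf.prodMk (hg.prodMk hh))

variable {Ω : Type*} [mΩ : MeasurableSpace Ω] {P : Measure Ω} [IsProbabilityMeasure P]
  {X : ℝ≥0 → Ω → ℝ}

/-- the fourth moment of the standard Gaussian law -/
noncomputable def m4 : ℝ := ∫ z, z ^ 4 ∂(gaussianReal 0 1)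

/-- the variance of the square -/
noncomputable def c2 : ℝ := ∫ z, (z ^ 2 - 1) ^ 2 ∂(gaussianReal 0 1)

lemma m4_nonneg : 0 ≤ m4 := integral_nonneg fun z => by positivity

lemma c2_nonneg : 0 ≤ c2 := integral_nonneg fun z => by positivity

lemma gauss_scale (u : ℝ≥0) {f : ℝ → ℝ} (hf : Measurable f) :
    ∫ x, f x ∂(gaussianReal 0 u) = ∫ z, f (√u * z) ∂(gaussianReal 0 1) := by
  have h1 := gaussianReal_map_const_mul (μ := 0) (v := 1) (√(u:ℝ))
  have h2 : NNReal.mk (√(u:ℝ) ^ 2) (sq_nonneg _) * 1 = u := by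
    rw [mul_one]
    ext
    exact Real.sq_sqrt u.coe_nonneg
  rw [mul_zero, h2] at h1
  rw [← h1, integral_map (by fun_prop) hf.aestronglyMeasurable]

lemma law_incr (hX : CBM P X) (s u : ℝ≥0) :
    P.map (fun ω => X (s + u) ω - X s ω) = gaussianReal 0 u :=
  ((hX.pre.shift s).hasLaw_eval u).map_eq

lemma meas_incr (hX : CBM P X) (s u : ℝ≥0) : Measurable (fun ω => X (s + u) ω - X s ω) :=
  (hX.meas _).sub (hX.meas _)

lemma int_incr_of (hX : CBM P X) (s u : ℝ≥0) {f : ℝ → ℝ} (hf : Measurable f) :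
    ∫ ω, f (X (s + u) ω - X s ω) ∂P = ∫ z, f (√u * z) ∂(gaussianReal 0 1) := by
  rw [← gauss_scale u hf, ← law_incr hX s u,
    integral_map (meas_incr hX s u).aemeasurable hf.aestronglyMeasurable]

lemma memLp_incr (hX : CBM P X) (s u : ℝ≥0) (p : ℝ≥0) :
    MemLp (fun ω => X (s + u) ω - X s ω) p P := by
  have h1 : MemLp (fun x : ℝ => x) p (P.map (fun ω => X (s + u) ω - X s ω)) := by
    rw [law_incr hX]
    exact memLp_id_gaussianReal p
  exact (memLp_map_measure_iff h1.1 (meas_incr hX s u).aemeasurable).mp h1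

lemma int_pow4 (hX : CBM P X) (t : ℝ≥0) : ∫ ω, X t ω ^ 4 ∂P = t ^ 2 * m4 := by
  have h := int_incr_of hX 0 t (f := fun x => x ^ 4) (by fun_prop)
  simp only [zero_add, hX.zero, sub_zero] at h
  rw [h]
  unfold m4
  rw [← integral_const_mul]
  congr 1
  funext z
  have : √(t:ℝ) ^ 4 = (t:ℝ) ^ 2 := by
    have h1 := Real.sq_sqrt t.coe_nonneg
    calc √(t:ℝ) ^ 4 = (√(t:ℝ) ^ 2) ^ 2 := by ring
      _ = _ := by rw [h1]
  rw [mul_pow, this]

lemma integrable_pow {Y : Ω → ℝ} {n : ℕ} (h : MemLp Y n P) (hn : n ≠ 0) :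
    Integrable (fun ω => Y ω ^ n) P := by
  have h1 := h.integrable_norm_pow hn
  refine h1.mono (h.1.pow n) (Eventually.of_forall fun ω => ?_)
  simp

lemma int_pow4' (hX : CBM P X) (t : ℝ≥0) : Integrable (fun ω => X t ω ^ 4) P :=
  integrable_pow (memLp_X hX t 4) (by norm_num)

/-- the centred squared increment -/
noncomputable def xi (X : ℝ≥0 → Ω → ℝ) (s u : ℝ≥0) (ω : Ω) : ℝ := (X (s + u) ω - X s ω) ^ 2 - u

lemma meas_xi (hX : CBM P X) (s u : ℝ≥0) : Measurable (xi X s u) :=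
  ((meas_incr hX s u).pow_const 2).sub measurable_const

lemma xi_sq_int (hX : CBM P X) (s u : ℝ≥0) : Integrable (fun ω => xi X s u ω ^ 2) P := by
  have h4 := integrable_pow (memLp_incr hX s u 4) (n := 4) (by norm_num)
  have h2 := integrable_pow (memLp_incr hX s u 2) (n := 2) (by norm_num)
  have e : (fun ω => xi X s u ω ^ 2) = fun ω => (X (s + u) ω - X s ω) ^ 4 -
      2 * u * (X (s + u) ω - X s ω) ^ 2 + (u:ℝ) ^ 2 := by
    funext ω
    unfold xi
    ring
  rw [e]
  exact (h4.sub (h2.const_mul _)).add (integrable_const _)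

lemma xi_memLp (hX : CBM P X) (s u : ℝ≥0) : MemLp (xi X s u) 2 P :=
  (memLp_two_iff_integrable_sq (meas_xi hX s u).aestronglyMeasurable).mpr (xi_sq_int hX s u)

lemma xi_mean (hX : CBM P X) (s u : ℝ≥0) : ∫ ω, xi X s u ω ∂P = 0 := by
  have h2 := integrable_pow (memLp_incr hX s u 2) (n := 2) (by norm_num)
  unfold xi
  rw [integral_sub h2 (integrable_const _)]
  have h3 := int_incr_of hX s u (f := fun x => x ^ 2) (by fun_prop)
  have h4 := int_incr_of hX 0 u (f := fun x => x ^ 2) (by fun_prop)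
  simp only [zero_add, hX.zero, sub_zero] at h4
  rw [int_X_sq hX] at h4
  rw [h3, ← h4]
  simp

lemma xi_var (hX : CBM P X) (s u : ℝ≥0) : ∫ ω, xi X s u ω ^ 2 ∂P = u ^ 2 * c2 := by
  have h := int_incr_of hX s u (f := fun x => (x ^ 2 - u) ^ 2) (by fun_prop)
  have e : ∫ ω, xi X s u ω ^ 2 ∂P = ∫ ω, ((X (s + u) ω - X s ω) ^ 2 - u) ^ 2 ∂P := rfl
  rw [e, h]
  unfold c2
  rw [← integral_const_mul]
  congr 1
  funext z
  have h1 := Real.sq_sqrt u.coe_nonneg
  rw [mul_pow, h1]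
  ring

/-- increments are independent of the past -/
lemma indep_incr (hX : CBM P X) (s u : ℝ≥0) {Y : Ω → ℝ} (hY : Measurable[GX X s] Y) :
    IndepFun Y (xi X s u) P := by
  have hind : IndepFun (fun ω t => X (s + t) ω - X s ω) (fun ω (t : Iic s) => X t ω) P :=
    hX.pre.indepFun_shift s
  have h1 : IndepFun (fun ω (t : Iic s) => X t ω) (xi X s u) P := by
    have h2 := hind.symm.comp (φ := fun x => x) (ψ := fun w : ℝ≥0 → ℝ => (w u) ^ 2 - (u:ℝ))
      measurable_id (by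
        have := measurable_pi_apply (X := fun _ : ℝ≥0 => ℝ) u
        fun_prop)
    exact h2
  rw [IndepFun_iff_Indep] at h1 ⊢
  exact indep_of_indep_of_le_left h1 hY.comap_le

lemma orth (hX : CBM P X) {τ : ℕ → ℝ≥0} (hτ : Monotone τ) {f : ℕ → Ω → ℝ}
    (hf : ∀ i, Measurable[GX X (τ i)] (f i)) (hf2 : ∀ i, Integrable (fun ω => f i ω ^ 2) P)
    {C : ℝ} (n : ℕ) :
    (∀ i < n, ∫ ω, f i ω ^ 2 ∂P ≤ C) →
    MemLp (fun ω => ∑ i ∈ Finset.range n, f i ω * xi X (τ i) (τ (i + 1) - τ i) ω) 2 P ∧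
    Measurable[GX X (τ n)]
      (fun ω => ∑ i ∈ Finset.range n, f i ω * xi X (τ i) (τ (i + 1) - τ i) ω) ∧
    ∫ ω, (∑ i ∈ Finset.range n, f i ω * xi X (τ i) (τ (i + 1) - τ i) ω) ^ 2 ∂P ≤
      ∑ i ∈ Finset.range n, C * (((τ (i + 1) - τ i : ℝ≥0) : ℝ) ^ 2 * c2) := by
  induction n with
  | zero =>
    intro _
    simp only [Finset.range_zero, Finset.sum_empty]
    refine ⟨MemLp.zero, @measurable_const _ _ _ (GX X (τ 0)) _, ?_⟩
    simp
  | succ n ih =>
    intro hC
    obtain ⟨h1, h2, h3⟩ := ih fun i hi => hC i (by omega)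
    set U : Ω → ℝ := fun ω => ∑ i ∈ Finset.range n, f i ω * xi X (τ i) (τ (i + 1) - τ i) ω with hU
    set z : Ω → ℝ := xi X (τ n) (τ (n + 1) - τ n) with hz
    have hfm : Measurable (f n) := (hf n).mono (GX_le hX _) le_rfl
    have hzm : Measurable z := meas_xi hX _ _
    have hUm : Measurable U := h2.mono (GX_le hX _) le_rfl
    have ind1 : IndepFun (fun ω => U ω * f n ω) z P := by
      refine indep_incr hX _ _ ?_
      exact mm2 h2 (hf n) (φ := fun p => p.1 * p.2) (by fun_prop)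
    have ind2 : IndepFun (fun ω => f n ω ^ 2) (fun ω => z ω ^ 2) P := by
      have := indep_incr hX (τ n) (τ (n + 1) - τ n) (hf n)
      exact this.comp (φ := fun x => x ^ 2) (ψ := fun x => x ^ 2) (by fun_prop) (by fun_prop)
    have hfL : MemLp (f n) 2 P :=
      (memLp_two_iff_integrable_sq hfm.aestronglyMeasurable).mpr (hf2 n)
    have hUf : Integrable (fun ω => U ω * f n ω) P := h1.integrable_mul hfL
    have hzi : Integrable z P := (xi_memLp hX _ _).integrable (by norm_num)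
    have i1 : Integrable (fun ω => (U ω * f n ω) * z ω) P := ind1.integrable_mul hUf hzi
    have i2 : Integrable (fun ω => f n ω ^ 2 * z ω ^ 2) P :=
      ind2.integrable_mul (hf2 n) (xi_sq_int hX _ _)
    have e1 : ∫ ω, (U ω * f n ω) * z ω ∂P = 0 := by
      rw [ind1.integral_fun_mul_eq_mul_integral hUf.1 hzi.1, xi_mean hX, mul_zero]
    have e2 : ∫ ω, f n ω ^ 2 * z ω ^ 2 ∂P ≤
        C * (((τ (n + 1) - τ n : ℝ≥0) : ℝ) ^ 2 * c2) := by
      rw [ind2.integral_fun_mul_eq_mul_integral (hf2 n).1 (xi_sq_int hX _ _).1, xi_var hX]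
      refine mul_le_mul_of_nonneg_right (hC n (by omega)) ?_
      exact mul_nonneg (sq_nonneg _) c2_nonneg
    have i3 : Integrable (fun ω => U ω ^ 2) P := h1.integrable_sq
    have e3 : (fun ω => (∑ i ∈ Finset.range (n + 1), f i ω * xi X (τ i) (τ (i + 1) - τ i) ω)) =
        fun ω => U ω + f n ω * z ω := by
      funext ω
      rw [Finset.sum_range_succ]
    have e4 : (fun ω => (∑ i ∈ Finset.range (n + 1),
        f i ω * xi X (τ i) (τ (i + 1) - τ i) ω) ^ 2) =
        fun ω => U ω ^ 2 + (2 * ((U ω * f n ω) * z ω) + f n ω ^ 2 * z ω ^ 2) := by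
      funext ω
      rw [Finset.sum_range_succ]
      ring
    have i4 : Integrable (fun ω => (∑ i ∈ Finset.range (n + 1),
        f i ω * xi X (τ i) (τ (i + 1) - τ i) ω) ^ 2) P := by
      rw [e4]
      exact i3.add ((i1.const_mul 2).add i2)
    have hm : Measurable (fun ω => (∑ i ∈ Finset.range (n + 1),
        f i ω * xi X (τ i) (τ (i + 1) - τ i) ω)) := by
      rw [e3]
      exact hUm.add (hfm.mul hzm)
    refine ⟨(memLp_two_iff_integrable_sq hm.aestronglyMeasurable).mpr i4, ?_, ?_⟩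
    · rw [e3]
      have hle : GX X (τ n) ≤ GX X (τ (n + 1)) := GX_mono X (hτ (Nat.le_succ n))
      have hzg : Measurable[GX X (τ (n + 1))] z := by
        have e5 : τ n + (τ (n + 1) - τ n) = τ (n + 1) := add_tsub_cancel_of_le (hτ (Nat.le_succ n))
        have h5 : Measurable[GX X (τ (n + 1))] (X (τ n + (τ (n + 1) - τ n))) := by
          rw [e5]
          exact meas_X_GX X le_rfl
        have h6 : Measurable[GX X (τ (n + 1))] (X (τ n)) := meas_X_GX X (hτ (Nat.le_succ n))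
        exact mm2 h5 h6 (φ := fun p => (p.1 - p.2) ^ 2 - ((τ (n + 1) - τ n : ℝ≥0) : ℝ))
          (by fun_prop)
      exact mm3 (h2.mono hle le_rfl) ((hf n).mono hle le_rfl) hzg
        (φ := fun p => p.1 + p.2.1 * p.2.2) (by fun_prop)
    · have i5 : Integrable (fun ω => 2 * ((U ω * f n ω) * z ω) + f n ω ^ 2 * z ω ^ 2) P :=
        (i1.const_mul 2).add i2
      have i6 : Integrable (fun ω => 2 * ((U ω * f n ω) * z ω)) P := i1.const_mul 2
      rw [e4, integral_add i3 i5, integral_add i6 i2,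
        integral_const_mul, e1, Finset.sum_range_succ]
      linarith

lemma Lam_pow4 (r : ℝ) : Lam (fun a => ENNReal.ofReal (a.2 ^ 4)) r = ENNReal.ofReal (r ^ 4 / 5) := by
  unfold Lam
  simp only
  have hi : ∫ θ in (0:ℝ)..1, ((1 - θ) * r) ^ 4 = r ^ 4 / 5 := by
    have h1 : ∀ θ : ℝ, ((1 - θ) * r) ^ 4 = r ^ 4 * (1 - θ) ^ 4 := fun θ => by ring
    simp only [h1]
    rw [intervalIntegral.integral_const_mul,
      intervalIntegral.integral_comp_sub_left (fun x : ℝ => x ^ 4) 1]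
    simp
    ring
  rw [← ofReal_integral_eq_lintegral_ofReal]
  · rw [← integral_Ioc_eq_integral_Ioo, ← intervalIntegral.integral_of_le zero_le_one, hi]
  · have hc : Continuous (fun θ : ℝ => ((1 - θ) * r) ^ 4) := by fun_prop
    exact (hc.integrableOn_Icc (a := 0) (b := 1)).mono_set Ioo_subset_Icc_self
  · exact Eventually.of_forall fun θ => by positivity

lemma lint_q_pow4 (hX : CBM P X) (t : ℝ≥0) :
    ∫⁻ ω, ENNReal.ofReal ((pq X t ω).2 ^ 4) ∂P = ENNReal.ofReal (t ^ 2 * m4) := by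
  have h0 : ∫⁻ ω, ENNReal.ofReal (X t ω ^ 4) ∂P = ENNReal.ofReal (t ^ 2 * m4) := by
    rw [← int_pow4 hX, ofReal_integral_eq_lintegral_ofReal (int_pow4' hX t)
      (Eventually.of_forall fun ω => by positivity)]
  rcases eq_or_lt_of_le (zero_le (a := t)) with h | ht
  · subst h
    have h2 : ∀ ω, (pq X 0 ω).2 = 0 := by
      intro ω
      unfold pq
      simp only
      rw [mx_zero, hX.path_zero, hX.zero, sub_zero]
    simp only [h2]
    simp
  · have m1 : Measurable (fun ω => max 0 (mx (path X ω) 0 t) - X t ω) :=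
      (measurable_const.max (meas_mx hX t)).sub (hX.meas t)
    have m2 : Measurable (fun ω => |0 + X t ω|) := (measurable_const.add (hX.meas t)).abs
    have m3 : Measurable (fun y : ℝ => ENNReal.ofReal (y ^ 4)) := by fun_prop
    have h1 : ∀ ω, (pq X t ω).2 = max 0 (mx (path X ω) 0 t) - X t ω := by
      intro ω
      rw [max_eq_right (show 0 ≤ mx (path X ω) 0 t from (pq_nonneg hX t ω).1)]
      rfl
    simp only [h1]
    have h2 : ∫⁻ ω, ENNReal.ofReal ((max 0 (mx (path X ω) 0 t) - X t ω) ^ 4) ∂P =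
        ∫⁻ y, ENNReal.ofReal (y ^ 4) ∂(P.map (fun ω => max 0 (mx (path X ω) 0 t) - X t ω)) := by
      rw [lintegral_map m3 m1]
    rw [h2, dist_law hX ht le_rfl, lintegral_map m3 m2, ← h0]
    refine lintegral_congr fun ω => ?_
    congr 1
    rw [zero_add]
    exact Even.pow_abs (by decide) _

lemma RR_pow4 (hX : CBM P X) (t : ℝ≥0) :
    Integrable (fun ω => RR X t ω ^ 4) P ∧ ∫ ω, RR X t ω ^ 4 ∂P = 5 * (t ^ 2 * m4) := by
  have h := cond_law hX t (A := univ) (MeasurableSet.univ) (g := fun a => ENNReal.ofReal (a.2 ^ 4))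
    (by fun_prop) (by
      rw [lint_q_pow4 hX]
      exact ENNReal.ofReal_ne_top)
  simp only [Measure.restrict_univ] at h
  rw [lint_q_pow4 hX] at h
  have h1 : ∫⁻ ω, Lam (fun a => ENNReal.ofReal (a.2 ^ 4)) (RR X t ω) ∂P =
      ∫⁻ ω, ENNReal.ofReal (RR X t ω ^ 4 / 5) ∂P := lintegral_congr fun ω => Lam_pow4 _
  rw [h1] at h
  have hm : Measurable (fun ω => RR X t ω ^ 4 / 5) := ((meas_RR hX t).pow_const 4).div_const 5
  have hi : Integrable (fun ω => RR X t ω ^ 4 / 5) P := by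
    refine ⟨hm.aestronglyMeasurable, ?_⟩
    rw [hasFiniteIntegral_iff_ofReal (Eventually.of_forall fun ω => by positivity), ← h]
    exact ENNReal.ofReal_lt_top
  have hi' : Integrable (fun ω => RR X t ω ^ 4) P := by
    have := hi.const_mul 5
    refine this.congr (Eventually.of_forall fun ω => ?_)
    simp only
    ring
  refine ⟨hi', ?_⟩
  have h2 : ∫ ω, RR X t ω ^ 4 / 5 ∂P = t ^ 2 * m4 := by
    rw [integral_eq_lintegral_of_nonneg_ae (Eventually.of_forall fun ω => by positivity)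
      hm.aestronglyMeasurable, ← h]
    exact ENNReal.toReal_ofReal (mul_nonneg (sq_nonneg _) m4_nonneg)
  rw [integral_div] at h2
  linarith

lemma tim_nonneg {h : ℕ → Ω → ℝ} (h0 : ∀ k ω, 0 ≤ h k ω) (hi : ∀ k, Integrable (h k) P)
    {b : ℕ → ℝ} (hb : ∀ᶠ k in atTop, ∫ ω, h k ω ∂P ≤ b k) (hb0 : Tendsto b atTop (𝓝 0)) :
    TendstoInMeasure P h atTop (fun _ => 0) := by
  rw [tendstoInMeasure_iff_measureReal_norm]
  intro ε hε
  have h1 : Tendsto (fun k => b k / ε) atTop (𝓝 0) := by simpa using hb0.div_const ε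
  refine tendsto_of_tendsto_of_tendsto_of_le_of_le' tendsto_const_nhds h1
    (Eventually.of_forall fun k => measureReal_nonneg) ?_
  filter_upwards [hb] with k hk
  rw [le_div_iff₀ hε, mul_comm]
  have h2 := mul_meas_ge_le_integral_of_nonneg (Eventually.of_forall (h0 k)) (hi k) ε
  refine le_trans (le_of_eq ?_) (h2.trans hk)
  congr 2
  ext ω
  simp only [sub_zero, Set.mem_ofPred_eq]
  rw [Real.norm_eq_abs, abs_of_nonneg (h0 k ω)]

end Pool.Agent.Q171.PT
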