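import Pool.Agent.Q171.PT.QVa

/-!
# Quadratic variation: the pathwise part and the conclusion
-/

set_option autoImplicit false

namespace Pool.Agent.Q171.PT

open MeasureTheory ProbabilityTheory Set Filter Topology
open Pool.Agent.TH970
open scoped ENNReal NNReal

/-! ### deterministic lemmas -/

lemma comb {x e : ℕ → ℕ → ℝ} {n : ℕ → ℕ} {Q : ℝ}
    (hG : Tendsto (fun k => ∑ i ∈ Finset.range (n k), x k i ^ 2) atTop (𝓝 Q))
    (hE : Tendsto (fun k => ∑ i ∈ Finset.range (n k), e k i ^ 2) atTop (𝓝 0)) :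
    Tendsto (fun k => ∑ i ∈ Finset.range (n k), (x k i + e k i) ^ 2) atTop (𝓝 Q) := by
  have h1 : Tendsto (fun k => √(∑ i ∈ Finset.range (n k), x k i ^ 2) *
      √(∑ i ∈ Finset.range (n k), e k i ^ 2)) atTop (𝓝 0) := by
    have := (hG.sqrt).mul (hE.sqrt)
    simpa using this
  have h2 : Tendsto (fun k => ∑ i ∈ Finset.range (n k), x k i * e k i) atTop (𝓝 0) := by
    refine squeeze_zero_norm (fun k => ?_) h1
    rw [Real.norm_eq_abs, abs_le]
    constructor
    · have := Real.sum_mul_le_sqrt_mul_sqrt (Finset.range (n k)) (fun i => - x k i) (e k)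
      simp only [neg_mul, Finset.sum_neg_distrib, neg_sq] at this
      linarith
    · exact Real.sum_mul_le_sqrt_mul_sqrt _ _ _
  have h3 := (hG.add (h2.const_mul 2)).add hE
  simp only [mul_zero, add_zero] at h3
  refine h3.congr fun k => ?_
  rw [Finset.mul_sum, ← Finset.sum_add_distrib, ← Finset.sum_add_distrib]
  refine Finset.sum_congr rfl fun i _ => ?_
  ring

lemma mx_incr_le {w : ℝ≥0 → ℝ} (hw : Continuous w) {s t : ℝ≥0} (hst : s ≤ t) {ε : ℝ}
    (hε : 0 ≤ ε) (h : ∀ r, s ≤ r → r ≤ t → w r - w s ≤ ε) : mx w 0 t - mx w 0 s ≤ ε := by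
  have h1 : mx w 0 t ≤ mx w 0 s + ε := by
    refine mx_le zero_le fun v _ hv => ?_
    rcases le_total v s with h2 | h2
    · have := le_mx hw (zero_le (a := v)) h2
      linarith
    · have h3 := h v h2 hv
      have h4 := le_mx hw (zero_le (a := s)) (le_refl s)
      linarith
  linarith

lemma mx_mono' {w : ℝ≥0 → ℝ} (hw : Continuous w) : Monotone (fun t => mx w 0 t) :=
  fun _ _ h => mx_mono hw zero_le h

lemma continuous_mx {w : ℝ≥0 → ℝ} (hw : Continuous w) : Continuous (fun t => mx w 0 t) := by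
  rw [Metric.continuous_iff]
  intro t ε hε
  obtain ⟨δ, hδ, h1⟩ := Metric.continuous_iff.mp hw t (ε / 4) (by positivity)
  refine ⟨δ, hδ, fun s hs => ?_⟩
  have hb : ∀ r, dist r t < δ → |w r - w t| < ε / 4 := fun r hr => by
    have := h1 r hr
    rwa [Real.dist_eq] at this
  rw [Real.dist_eq]
  rcases le_total s t with h | h
  · have h2 : mx w 0 t - mx w 0 s ≤ ε / 2 := by
      refine mx_incr_le hw h (by positivity) fun r hr1 hr2 => ?_
      have h3 : dist r t < δ := by
        refine lt_of_le_of_lt ?_ hs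
        rw [NNReal.dist_eq, NNReal.dist_eq, abs_sub_comm, abs_sub_comm (s:ℝ)]
        have e1 : (r:ℝ) ≤ t := hr2
        have e2 : (s:ℝ) ≤ r := hr1
        rw [abs_of_nonneg (by linarith), abs_of_nonneg (by linarith)]
        linarith
      have h4 := abs_lt.mp (hb r h3)
      have h5 := abs_lt.mp (hb s hs)
      linarith
    have h3 : mx w 0 s ≤ mx w 0 t := mx_mono' hw h
    rw [abs_sub_comm, abs_of_nonneg (by linarith)]
    linarith
  · have h2 : mx w 0 s - mx w 0 t ≤ ε / 2 := by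
      refine mx_incr_le hw h (by positivity) fun r hr1 hr2 => ?_
      have h3 : dist r t < δ := by
        refine lt_of_le_of_lt ?_ hs
        rw [NNReal.dist_eq, NNReal.dist_eq]
        have e1 : (r:ℝ) ≤ s := hr2
        have e2 : (t:ℝ) ≤ r := hr1
        rw [abs_of_nonneg (by linarith), abs_of_nonneg (by linarith)]
        linarith
      have h4 := abs_lt.mp (hb r h3)
      linarith
    have h3 : mx w 0 t ≤ mx w 0 s := mx_mono' hw h
    rw [abs_of_nonneg (by linarith)]
    linarith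

/-- small increments on a compact interval -/
lemma unif_small {f : ℝ≥0 → ℝ} (hf : Continuous f) (t : ℝ≥0) {ε : ℝ} (hε : 0 < ε) :
    ∃ δ : ℝ, 0 < δ ∧ ∀ x y : ℝ≥0, x ≤ t → y ≤ t → |(x:ℝ) - y| < δ → |f x - f y| < ε := by
  have h1 : UniformContinuousOn f (Icc 0 t) :=
    isCompact_Icc.uniformContinuousOn_of_continuous hf.continuousOn
  rw [Metric.uniformContinuousOn_iff] at h1
  obtain ⟨δ, hδ, h2⟩ := h1 ε hε
  refine ⟨δ, hδ, fun x y hx hy hxy => ?_⟩
  have := h2 x ⟨zero_le, hx⟩ y ⟨zero_le, hy⟩ (by rwa [NNReal.dist_eq])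
  rwa [Real.dist_eq] at this

/-- a sequence of partitions of `[0, t]` whose mesh tends to `0` -/
structure Part (t : ℝ≥0) (n : ℕ → ℕ) (π : ℕ → ℕ → ℝ≥0) : Prop where
  mono : ∀ k, Monotone (π k)
  zero : ∀ k, π k 0 = 0
  top : ∀ k, π k (n k) = t
  mesh : ∀ ε : ℝ, 0 < ε → ∀ᶠ k in atTop, ∀ i < n k, (π k (i + 1) : ℝ) - π k i < ε

section
variable {t : ℝ≥0} {n : ℕ → ℕ} {π : ℕ → ℕ → ℝ≥0} (hp : Part t n π)
include hp

lemma part_le {k i : ℕ} (hi : i ≤ n k) : π k i ≤ t := by
  rw [← hp.top k]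
  exact hp.mono k hi

lemma part_comp {φ : ℕ → ℕ} (hφ : Tendsto φ atTop atTop) :
    Part t (fun k => n (φ k)) (fun k => π (φ k)) :=
  ⟨fun k => hp.mono _, fun k => hp.zero _, fun k => hp.top _,
    fun ε hε => hφ.eventually (hp.mesh ε hε)⟩

lemma riemann {f : ℝ≥0 → ℝ} (hf : Continuous f) :
    Tendsto (fun k => ∑ i ∈ Finset.range (n k), f (π k i) * ((π k (i + 1) : ℝ) - π k i)) atTop
      (𝓝 (∫ s in (0:ℝ)..t, f s.toNNReal)) := by
  have hfc : Continuous (fun s : ℝ => f s.toNNReal) := hf.comp continuous_real_toNNReal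
  rw [Metric.tendsto_atTop]
  intro ε hε
  have hpos : 0 < ε / (t + 1) := by positivity
  obtain ⟨δ, hδ, h1⟩ := unif_small hf t hpos
  obtain ⟨K, hK⟩ := eventually_atTop.mp (hp.mesh δ hδ)
  refine ⟨K, fun k hk => ?_⟩
  have hmesh := hK k hk
  have h2 : ∫ s in (0:ℝ)..t, f s.toNNReal =
      ∑ i ∈ Finset.range (n k), ∫ s in (π k i : ℝ)..(π k (i + 1)), f s.toNNReal := by
    rw [intervalIntegral.sum_integral_adjacent_intervals
      (fun i _ => hfc.intervalIntegrable _ _), hp.zero, hp.top]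
    rfl
  rw [Real.dist_eq, h2, ← Finset.sum_sub_distrib]
  have h3 : ∀ i ∈ Finset.range (n k), |f (π k i) * ((π k (i + 1) : ℝ) - π k i) -
      ∫ s in (π k i : ℝ)..(π k (i + 1)), f s.toNNReal| ≤
        ε / (t + 1) * ((π k (i + 1) : ℝ) - π k i) := by
    intro i hi
    have hi' := Finset.mem_range.mp hi
    have hle : (π k i : ℝ) ≤ π k (i + 1) := hp.mono k (Nat.le_succ i)
    have e1 : f (π k i) * ((π k (i + 1) : ℝ) - π k i) =
        ∫ _ in (π k i : ℝ)..(π k (i + 1)), f (π k i) := by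
      rw [intervalIntegral.integral_const, smul_eq_mul, mul_comm]
    rw [e1, ← intervalIntegral.integral_sub intervalIntegrable_const
      (hfc.intervalIntegrable _ _)]
    have h4 := intervalIntegral.norm_integral_le_of_norm_le_const (a := (π k i : ℝ))
      (b := π k (i + 1)) (f := fun s => f (π k i) - f s.toNNReal) (C := ε / (t + 1)) (by
        intro s hs
        rw [uIoc_of_le hle] at hs
        have hs0 : 0 ≤ s := (NNReal.coe_nonneg _).trans hs.1.le
        rw [Real.norm_eq_abs]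
        refine (h1 _ _ (part_le hp hi'.le) ?_ ?_).le
        · have : s.toNNReal ≤ π k (i + 1) := Real.toNNReal_le_iff_le_coe.mpr hs.2
          exact this.trans (part_le hp hi')
        · rw [Real.coe_toNNReal s hs0, abs_sub_comm, abs_of_nonneg (by linarith [hs.1])]
          have := hmesh i hi'
          linarith [hs.2])
    rw [Real.norm_eq_abs, abs_of_nonneg (by linarith : (0:ℝ) ≤ (π k (i + 1) : ℝ) - π k i)] at h4
    exact h4
  calc |∑ i ∈ Finset.range (n k), (f (π k i) * ((π k (i + 1) : ℝ) - π k i) -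
      ∫ s in (π k i : ℝ)..(π k (i + 1)), f s.toNNReal)|
      ≤ ∑ i ∈ Finset.range (n k), ε / (t + 1) * ((π k (i + 1) : ℝ) - π k i) :=
        (Finset.abs_sum_le_sum_abs _ _).trans (Finset.sum_le_sum h3)
    _ = ε / (t + 1) * t := by
        rw [← Finset.mul_sum, Finset.sum_range_sub (fun i => (π k i : ℝ)), hp.zero, hp.top]
        simp
    _ < ε := by
        rw [div_mul_eq_mul_div, div_lt_iff₀ (by positivity)]
        have : (0:ℝ) ≤ t := t.coe_nonneg
        nlinarith

lemma path_rest {w : ℝ≥0 → ℝ} (hw : Continuous w) (hw0 : w 0 = 0) :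
    Tendsto (fun k => ∑ i ∈ Finset.range (n k),
      (4 * (mx w 0 (π k i) - w (π k i)) * (mx w 0 (π k (i + 1)) - mx w 0 (π k i)) +
        2 * (mx w 0 (π k (i + 1)) - mx w 0 (π k i)) ^ 2 -
        4 * (w (π k (i + 1)) - w (π k i)) * (mx w 0 (π k (i + 1)) - mx w 0 (π k i))) ^ 2)
      atTop (𝓝 0) := by
  set C : ℝ := am w t with hC
  have hC0 : 0 ≤ C := am_nonneg hw t
  have hwb : ∀ s, s ≤ t → |w s| ≤ C := fun s hs => le_am hw hs
  have hSb : ∀ s, s ≤ t → mx w 0 s ≤ C := fun s hs =>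
    mx_le zero_le fun v _ hv => (le_abs_self _).trans (hwb v (hv.trans hs))
  have hS0 : ∀ s, 0 ≤ mx w 0 s := fun s => by
    have := le_mx hw (zero_le (a := 0)) (zero_le (a := s))
    rwa [hw0] at this
  have hqn : ∀ s, 0 ≤ mx w 0 s - w s := fun s => by
    have := le_mx hw (zero_le (a := s)) (le_refl s)
    linarith
  rw [Metric.tendsto_atTop]
  intro ε hε
  have hpos : 0 < ε / ((18 * C) ^ 2 * C + 1) := by positivity
  obtain ⟨δ, hδ, h1⟩ := unif_small (continuous_mx hw) t hpos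
  obtain ⟨K, hK⟩ := eventually_atTop.mp (hp.mesh δ hδ)
  refine ⟨K, fun k hk => ?_⟩
  have hmesh := hK k hk
  rw [Real.dist_eq, sub_zero, abs_of_nonneg (Finset.sum_nonneg fun i _ => sq_nonneg _)]
  have h3 : ∀ i ∈ Finset.range (n k),
      (4 * (mx w 0 (π k i) - w (π k i)) * (mx w 0 (π k (i + 1)) - mx w 0 (π k i)) +
        2 * (mx w 0 (π k (i + 1)) - mx w 0 (π k i)) ^ 2 -
        4 * (w (π k (i + 1)) - w (π k i)) * (mx w 0 (π k (i + 1)) - mx w 0 (π k i))) ^ 2 ≤
      (18 * C) ^ 2 * (ε / ((18 * C) ^ 2 * C + 1)) *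
        (mx w 0 (π k (i + 1)) - mx w 0 (π k i)) := by
    intro i hi
    have hi' := Finset.mem_range.mp hi
    have ha := part_le hp hi'.le
    have hb := part_le hp (show i + 1 ≤ n k from hi')
    have hle : (π k i : ℝ) ≤ π k (i + 1) := hp.mono k (Nat.le_succ i)
    set b := mx w 0 (π k (i + 1)) - mx w 0 (π k i) with hbdef
    have hb0 : 0 ≤ b := by
      have : mx w 0 (π k i) ≤ mx w 0 (π k (i + 1)) := mx_mono' hw (hp.mono k (Nat.le_succ i))
      linarith
    have hbε : b ≤ ε / ((18 * C) ^ 2 * C + 1) := by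
      have := h1 (π k (i + 1)) (π k i) hb ha (by
        rw [abs_of_nonneg (by linarith)]
        exact hmesh i hi')
      exact (le_abs_self _).trans this.le
    have e1 : 4 * (mx w 0 (π k i) - w (π k i)) * b + 2 * b ^ 2 -
        4 * (w (π k (i + 1)) - w (π k i)) * b =
        b * (4 * (mx w 0 (π k i) - w (π k i)) + 2 * b - 4 * (w (π k (i + 1)) - w (π k i))) := by
      ring
    rw [e1, mul_pow]
    have f1 := abs_le.mp (hwb _ ha)
    have f2 := abs_le.mp (hwb _ hb)
    have f3 := hSb _ ha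
    have f4 := hSb _ hb
    have f5 := hS0 (π k i)
    have f6 := hqn (π k i)
    have f7 : (4 * (mx w 0 (π k i) - w (π k i)) + 2 * b -
        4 * (w (π k (i + 1)) - w (π k i))) ^ 2 ≤ (18 * C) ^ 2 := by
      apply sq_le_sq'
      · linarith
      · linarith
    calc b ^ 2 * (4 * (mx w 0 (π k i) - w (π k i)) + 2 * b -
        4 * (w (π k (i + 1)) - w (π k i))) ^ 2 ≤ b ^ 2 * (18 * C) ^ 2 := by gcongr
      _ = (18 * C) ^ 2 * b * b := by ring
      _ ≤ _ := by gcongr
  calc ∑ i ∈ Finset.range (n k),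
      (4 * (mx w 0 (π k i) - w (π k i)) * (mx w 0 (π k (i + 1)) - mx w 0 (π k i)) +
        2 * (mx w 0 (π k (i + 1)) - mx w 0 (π k i)) ^ 2 -
        4 * (w (π k (i + 1)) - w (π k i)) * (mx w 0 (π k (i + 1)) - mx w 0 (π k i))) ^ 2
      ≤ ∑ i ∈ Finset.range (n k), (18 * C) ^ 2 * (ε / ((18 * C) ^ 2 * C + 1)) *
        (mx w 0 (π k (i + 1)) - mx w 0 (π k i)) := Finset.sum_le_sum h3
    _ = (18 * C) ^ 2 * (ε / ((18 * C) ^ 2 * C + 1)) * (mx w 0 t - mx w 0 0) := by
        rw [← Finset.mul_sum, Finset.sum_range_sub (fun i => mx w 0 (π k i)), hp.zero, hp.top]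
    _ ≤ (18 * C) ^ 2 * (ε / ((18 * C) ^ 2 * C + 1)) * C := by
        have := hSb t le_rfl
        have := hS0 0
        gcongr
        linarith
    _ < ε := by
        have e : (18 * C) ^ 2 * (ε / ((18 * C) ^ 2 * C + 1)) * C =
            ((18 * C) ^ 2 * C) * ε / ((18 * C) ^ 2 * C + 1) := by ring
        rw [e, div_lt_iff₀ (by positivity)]
        nlinarith [show 0 ≤ (18 * C) ^ 2 * C by positivity]

end

/-! ### the martingale part and its bracket -/

section
variable {Ω : Type*}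

/-- the local martingale part -/
noncomputable def NN (X : ℝ≥0 → Ω → ℝ) (t : ℝ≥0) (ω : Ω) : ℝ :=
  2 * (pq X t ω).2 ^ 2 - X t ω ^ 2 - t

/-- the finite variation part -/
noncomputable def AA (X : ℝ≥0 → Ω → ℝ) (t : ℝ≥0) (ω : Ω) : ℝ :=
  2 * (pq X t ω).1 ^ 2 - 2 * t

/-- the bracket -/
noncomputable def QQ (X : ℝ≥0 → Ω → ℝ) (t : ℝ≥0) (ω : Ω) : ℝ :=
  ∫ s in (0:ℝ)..t, 4 * RR X s.toNNReal ω ^ 2

end

variable {Ω : Type*} [mΩ : MeasurableSpace Ω] {P : Measure Ω} [IsProbabilityMeasure P]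
  {X : ℝ≥0 → Ω → ℝ}

lemma cont_pq (hX : CBM P X) (ω : Ω) : Continuous (fun t => pq X t ω) := by
  have h1 := continuous_mx (hX.cont ω)
  have h2 : Continuous (fun t => X t ω) := hX.cont ω
  unfold pq
  fun_prop

lemma cont_RR (hX : CBM P X) (ω : Ω) : Continuous (fun t => RR X t ω) := by
  have h1 := cont_pq hX ω
  exact h1.fst.add h1.snd

lemma xi_eq (X : ℝ≥0 → Ω → ℝ) {s t : ℝ≥0} (h : s ≤ t) (ω : Ω) :
    xi X s (t - s) ω = (X t ω - X s ω) ^ 2 - ((t:ℝ) - s) := by
  unfold xi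
  rw [add_tsub_cancel_of_le h, NNReal.coe_sub h]

/-- the increments of the martingale part -/
lemma NN_incr (X : ℝ≥0 → Ω → ℝ) {s t : ℝ≥0} (h : s ≤ t) (ω : Ω) :
    NN X t ω - NN X s ω = -(2 * RR X s ω * (X t ω - X s ω)) + (xi X s (t - s) ω +
      (4 * (mx (path X ω) 0 s - X s ω) * (mx (path X ω) 0 t - mx (path X ω) 0 s) +
        2 * (mx (path X ω) 0 t - mx (path X ω) 0 s) ^ 2 -
        4 * (X t ω - X s ω) * (mx (path X ω) 0 t - mx (path X ω) 0 s))) := by
  rw [xi_eq X h, RR_eq]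
  unfold NN pq
  simp only
  ring

lemma path_limit (hX : CBM P X) {t : ℝ≥0} {n : ℕ → ℕ} {π : ℕ → ℕ → ℝ≥0} (hp : Part t n π) (ω : Ω)
    (hU : Tendsto (fun k => ∑ i ∈ Finset.range (n k), 4 * RR X (π k i) ω ^ 2 *
      xi X (π k i) (π k (i + 1) - π k i) ω) atTop (𝓝 0))
    (hV : Tendsto (fun k => ∑ i ∈ Finset.range (n k),
      xi X (π k i) (π k (i + 1) - π k i) ω ^ 2) atTop (𝓝 0)) :
    Tendsto (fun k => ∑ i ∈ Finset.range (n k), (NN X (π k (i + 1)) ω - NN X (π k i) ω) ^ 2)
      atTop (𝓝 (QQ X t ω)) := by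
  have hB := path_rest hp (hX.cont ω) (hX.path_zero ω)
  have hR := riemann hp (f := fun t => 4 * RR X t ω ^ 2) (by
    have := cont_RR hX ω
    fun_prop)
  have hle : ∀ k i, π k i ≤ π k (i + 1) := fun k i => hp.mono k (Nat.le_succ i)
  have h1 : ∀ k, ∑ i ∈ Finset.range (n k), (NN X (π k (i + 1)) ω - NN X (π k i) ω) ^ 2 =
      ∑ i ∈ Finset.range (n k), (-(2 * RR X (π k i) ω * (X (π k (i + 1)) ω - X (π k i) ω)) +
        (xi X (π k i) (π k (i + 1) - π k i) ω +
      (4 * (mx (path X ω) 0 (π k i) - X (π k i) ω) *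
          (mx (path X ω) 0 (π k (i + 1)) - mx (path X ω) 0 (π k i)) +
        2 * (mx (path X ω) 0 (π k (i + 1)) - mx (path X ω) 0 (π k i)) ^ 2 -
        4 * (X (π k (i + 1)) ω - X (π k i) ω) *
          (mx (path X ω) 0 (π k (i + 1)) - mx (path X ω) 0 (π k i))))) ^ 2 := by
    intro k
    refine Finset.sum_congr rfl fun i _ => ?_
    rw [NN_incr X (hle k i)]
  refine Tendsto.congr (fun k => (h1 k).symm) ?_
  refine comb ?_ ?_
  · have h2 := hU.add hR
    rw [zero_add] at h2
    refine h2.congr fun k => ?_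
    rw [← Finset.sum_add_distrib]
    refine Finset.sum_congr rfl fun i _ => ?_
    rw [xi_eq X (hle k i)]
    ring
  · have h2 := (hV.const_mul 2).add (hB.const_mul 2)
    rw [mul_zero, add_zero] at h2
    refine squeeze_zero (fun k => Finset.sum_nonneg fun i _ => sq_nonneg _) (fun k => ?_) h2
    rw [Finset.mul_sum, Finset.mul_sum, ← Finset.sum_add_distrib]
    refine Finset.sum_le_sum fun i _ => ?_
    simp only [path]
    nlinarith [sq_nonneg (xi X (π k i) (π k (i + 1) - π k i) ω -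
      (4 * (mx (path X ω) 0 (π k i) - X (π k i) ω) *
          (mx (path X ω) 0 (π k (i + 1)) - mx (path X ω) 0 (π k i)) +
        2 * (mx (path X ω) 0 (π k (i + 1)) - mx (path X ω) 0 (π k i)) ^ 2 -
        4 * (X (π k (i + 1)) ω - X (π k i) ω) *
          (mx (path X ω) 0 (π k (i + 1)) - mx (path X ω) 0 (π k i))))]

lemma sum_sq_mesh {t : ℝ≥0} {n : ℕ → ℕ} {π : ℕ → ℕ → ℝ≥0} (hp : Part t n π) :
    Tendsto (fun k => ∑ i ∈ Finset.range (n k), (((π k (i + 1) - π k i : ℝ≥0) : ℝ)) ^ 2)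
      atTop (𝓝 0) := by
  rw [Metric.tendsto_atTop]
  intro ε hε
  obtain ⟨K, hK⟩ := eventually_atTop.mp (hp.mesh (ε / (t + 1)) (by positivity))
  refine ⟨K, fun k hk => ?_⟩
  have hmesh := hK k hk
  rw [Real.dist_eq, sub_zero, abs_of_nonneg (Finset.sum_nonneg fun i _ => sq_nonneg _)]
  have hle : ∀ i, π k i ≤ π k (i + 1) := fun i => hp.mono k (Nat.le_succ i)
  calc ∑ i ∈ Finset.range (n k), (((π k (i + 1) - π k i : ℝ≥0) : ℝ)) ^ 2
      ≤ ∑ i ∈ Finset.range (n k), ε / (t + 1) * ((π k (i + 1) : ℝ) - π k i) := by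
        refine Finset.sum_le_sum fun i hi => ?_
        rw [NNReal.coe_sub (hle i), sq]
        have h1 := hmesh i (Finset.mem_range.mp hi)
        have h2 : (π k i : ℝ) ≤ π k (i + 1) := hle i
        exact mul_le_mul_of_nonneg_right h1.le (by linarith)
    _ = ε / (t + 1) * t := by
        rw [← Finset.mul_sum, Finset.sum_range_sub (fun i => (π k i : ℝ)), hp.zero, hp.top]
        simp
    _ < ε := by
        rw [div_mul_eq_mul_div, div_lt_iff₀ (by positivity)]
        have : (0:ℝ) ≤ t := t.coe_nonneg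
        nlinarith

lemma meas_NN (hX : CBM P X) (t : ℝ≥0) : Measurable (NN X t) := by
  have h1 := (meas_pq hX t).snd
  have h2 := hX.meas t
  unfold NN
  fun_prop

/-- the quadratic variation of the martingale part -/
theorem isQV (hX : CBM P X) : IsQV P (NN X) (QQ X) := by
  refine ⟨fun ω => ?_, ?_⟩
  · have hc : Continuous (fun s : ℝ => 4 * RR X s.toNNReal ω ^ 2) := by
      have := (cont_RR hX ω).comp continuous_real_toNNReal
      simp only [Function.comp_def] at this
      fun_prop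
    refine ⟨?_, ?_, ?_⟩
    · have h1 : Continuous (fun t : ℝ => ∫ s in (0:ℝ)..t, 4 * RR X s.toNNReal ω ^ 2) :=
        intervalIntegral.continuous_primitive (fun a b => hc.intervalIntegrable a b) 0
      exact h1.comp NNReal.continuous_coe
    · intro a b hab
      have hab' : (a:ℝ) ≤ b := hab
      have h2 : QQ X b ω - QQ X a ω = ∫ s in (a:ℝ)..b, 4 * RR X s.toNNReal ω ^ 2 := by
        unfold QQ
        rw [intervalIntegral.integral_interval_sub_left (hc.intervalIntegrable _ _)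
          (hc.intervalIntegrable _ _)]
      have h3 : 0 ≤ ∫ s in (a:ℝ)..b, 4 * RR X s.toNNReal ω ^ 2 :=
        intervalIntegral.integral_nonneg hab' fun s _ => by positivity
      simp only
      linarith
    · unfold QQ
      simp
  · intro t n π h1 h2 h3 h4
    have hp : Part t n π := ⟨h1, h2, h3, h4⟩
    have hsq := sum_sq_mesh hp
    set U : ℕ → Ω → ℝ := fun k ω => ∑ i ∈ Finset.range (n k), 4 * RR X (π k i) ω ^ 2 *
      xi X (π k i) (π k (i + 1) - π k i) ω with hU
    set V : ℕ → Ω → ℝ := fun k ω => ∑ i ∈ Finset.range (n k),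
      xi X (π k i) (π k (i + 1) - π k i) ω ^ 2 with hV
    have hf2 : ∀ k i, Integrable (fun ω => (4 * RR X (π k i) ω ^ 2) ^ 2) P := by
      intro k i
      have := (RR_pow4 hX (π k i)).1.const_mul 16
      refine this.congr (Eventually.of_forall fun ω => ?_)
      simp only
      ring
    have hfC : ∀ k, ∀ i < n k, ∫ ω, (4 * RR X (π k i) ω ^ 2) ^ 2 ∂P ≤ 80 * (t ^ 2 * m4) := by
      intro k i hi
      have e : (fun ω => (4 * RR X (π k i) ω ^ 2) ^ 2) = fun ω => 16 * RR X (π k i) ω ^ 4 := by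
        funext ω
        ring
      rw [e, integral_const_mul, (RR_pow4 hX (π k i)).2]
      have h5 : (π k i : ℝ) ≤ t := part_le hp hi.le
      have h6 : (π k i : ℝ) ^ 2 ≤ t ^ 2 := by
        have := (π k i).coe_nonneg
        gcongr
      have := mul_le_mul_of_nonneg_right h6 m4_nonneg
      linarith
    have horth := fun k => orth hX (h1 k) (f := fun i ω => 4 * RR X (π k i) ω ^ 2)
      (fun i => by
        have := meas_RR_GX X (le_refl (π k i))
        exact mm2 this this (φ := fun p => 4 * p.1 ^ 2) (by fun_prop))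
      (hf2 k) (n k) (hfC k)
    have hUt : TendstoInMeasure P (fun k ω => U k ω ^ 2) atTop (fun _ => 0) := by
      refine tim_nonneg (fun k ω => sq_nonneg _) (fun k => (horth k).1.integrable_sq)
        (b := fun k => 80 * (t ^ 2 * m4) * c2 *
          ∑ i ∈ Finset.range (n k), (((π k (i + 1) - π k i : ℝ≥0) : ℝ)) ^ 2) ?_ ?_
      · refine Eventually.of_forall fun k => ?_
        refine (horth k).2.2.trans (le_of_eq ?_)
        rw [Finset.mul_sum]
        refine Finset.sum_congr rfl fun i _ => ?_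
        ring
      · have := hsq.const_mul (80 * ((t:ℝ) ^ 2 * m4) * c2)
        rwa [mul_zero] at this
    have hVt : TendstoInMeasure P V atTop (fun _ => 0) := by
      refine tim_nonneg (fun k ω => Finset.sum_nonneg fun i _ => sq_nonneg _)
        (fun k => integrable_finsetSum _ fun i _ => xi_sq_int hX _ _)
        (b := fun k => c2 *
          ∑ i ∈ Finset.range (n k), (((π k (i + 1) - π k i : ℝ≥0) : ℝ)) ^ 2) ?_ ?_
      · refine Eventually.of_forall fun k => ?_
        rw [hV]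
        simp only
        rw [integral_finsetSum _ fun i _ => xi_sq_int hX _ _, Finset.mul_sum]
        refine Finset.sum_le_sum fun i _ => ?_
        rw [xi_var hX]
        exact le_of_eq (by ring)
      · have := hsq.const_mul c2
        rwa [mul_zero] at this
    have hDm : ∀ k, AEStronglyMeasurable
        (fun ω => ∑ i ∈ Finset.range (n k), (NN X (π k (i + 1)) ω - NN X (π k i) ω) ^ 2) P := by
      intro k
      refine Measurable.aestronglyMeasurable ?_
      refine Finset.measurable_fun_sum _ fun i _ => ?_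
      exact ((meas_NN hX _).sub (meas_NN hX _)).pow_const 2
    rw [exists_seq_tendstoInMeasure_atTop_iff hDm]
    intro ns hns
    obtain ⟨φ₁, hφ₁, ha₁⟩ := (hUt.comp hns.tendsto_atTop).exists_seq_tendsto_ae
    obtain ⟨φ₂, hφ₂, ha₂⟩ := (hVt.comp (hns.tendsto_atTop.comp
      hφ₁.tendsto_atTop)).exists_seq_tendsto_ae
    refine ⟨φ₁ ∘ φ₂, hφ₁.comp hφ₂, ?_⟩
    filter_upwards [ha₁, ha₂] with ω hω₁ hω₂
    have hpc : Part t (fun k => n (ns ((φ₁ ∘ φ₂) k))) (fun k => π (ns ((φ₁ ∘ φ₂) k))) :=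
      part_comp hp (hns.tendsto_atTop.comp (hφ₁.comp hφ₂).tendsto_atTop)
    refine path_limit hX hpc ω ?_ ?_
    · have h5 : Tendsto (fun k => U (ns (φ₁ (φ₂ k))) ω ^ 2) atTop (𝓝 0) :=
        hω₁.comp hφ₂.tendsto_atTop
      have h6 := h5.sqrt
      simp only [Real.sqrt_zero, Real.sqrt_sq_eq_abs] at h6
      exact (tendsto_zero_iff_abs_tendsto_zero _).mpr h6
    · exact hω₂

end Pool.Agent.Q171.PT
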