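import Pool.Agent.TH970.Reflect

/-!
# The joint reflection principle
-/

set_option autoImplicit false

namespace Pool.Agent.Q171.PT

open MeasureTheory ProbabilityTheory Set Filter Topology
open Pool.Agent.TH970
open scoped ENNReal NNReal

variable {Ω : Type*} [MeasurableSpace Ω] {P : Measure Ω} [IsProbabilityMeasure P]
  {X : ℝ≥0 → Ω → ℝ}

/-- the walk crosses `x` and ends below `x - c` -/
def Cb (h : ℝ≥0) (n : ℕ) (x c : ℝ) : Set (ℝ≥0 → ℝ) :=
  {w | (∃ k : ℕ, k ≤ n ∧ x < w (k * h)) ∧ w (n * h) < x - c}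

lemma measurableSet_Cb (h : ℝ≥0) (n : ℕ) (x c : ℝ) : MeasurableSet (Cb h n x c) :=
  (measurableSet_Cr h n x).inter (measurableSet_lt (measurable_pi_apply _) measurable_const)

lemma lt_symm' (hX : CBM P X) (t : ℝ≥0) (x : ℝ) :
    P {ω | X t ω < x} = P {ω | -x < X t ω} := by
  rw [gt_symm hX, neg_neg]

lemma Cb_step (hX : CBM P X) (h : ℝ≥0) (n : ℕ) {x : ℝ} (c : ℝ) (hx : 0 ≤ x) :
    P {ω | path X ω ∈ Cb h (n + 1) x c} = ∫⁻ ω, P {ω' | path X ω' ∈ Cb h n (x - X h ω) c} ∂P := by
  rw [← prob_cat hX h (measurableSet_Cb h (n + 1) x c)]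
  refine lintegral_congr fun ω => ?_
  congr 1
  ext ω'
  simp only [Cb, Set.mem_ofPred_eq]
  constructor
  · rintro ⟨⟨k, hk, hxk⟩, he⟩
    refine ⟨?_, ?_⟩
    · cases k with
      | zero =>
        exfalso
        rw [Nat.cast_zero, zero_mul, cat_left (hX.path_zero ω') zero_le, hX.path_zero ω] at hxk
        linarith
      | succ k =>
        refine ⟨k, by omega, ?_⟩
        rw [cat_mul] at hxk
        simp only [path] at hxk ⊢
        linarith
    · rw [cat_mul] at he
      simp only [path] at he ⊢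
      linarith
  · rintro ⟨⟨k, hk, hxk⟩, he⟩
    refine ⟨⟨k + 1, by omega, ?_⟩, ?_⟩
    · rw [cat_mul]
      simp only [path] at hxk ⊢
      linarith
    · rw [cat_mul]
      simp only [path] at he ⊢
      linarith

lemma disc_le (hX : CBM P X) (h : ℝ≥0) {c : ℝ} (hc : 0 ≤ c) (n : ℕ) : ∀ x : ℝ,
    P {ω | path X ω ∈ Cb h n x c} ≤ P {ω | x + c < X (n * h) ω} := by
  induction n with
  | zero =>
    intro x
    have : {ω | path X ω ∈ Cb h 0 x c} = ∅ := by
      ext ω
      simp only [Cb, Set.mem_ofPred_eq, mem_empty_iff_false, iff_false]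
      rintro ⟨⟨k, hk, hxk⟩, he⟩
      have hk0 : k = 0 := by omega
      subst hk0
      rw [Nat.cast_zero, zero_mul, hX.path_zero] at hxk he
      linarith
    rw [this, measure_empty]
    exact zero_le
  | succ n ih =>
    intro x
    rcases lt_or_ge x 0 with hx | hx
    · have h1 : P {ω | path X ω ∈ Cb h (n + 1) x c} ≤ P {ω | X ((n + 1 : ℕ) * h) ω < x - c} :=
        measure_mono fun ω hω => hω.2
      refine h1.trans ?_
      rw [lt_symm' hX]
      refine measure_mono fun ω hω => ?_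
      simp only [Set.mem_ofPred_eq] at hω ⊢
      linarith
    · rw [Cb_step hX h n c hx, Gt_step hX h n (x + c)]
      refine lintegral_mono fun ω => (ih _).trans (le_of_eq ?_)
      congr 1
      ext ω'
      simp only [Set.mem_ofPred_eq]
      constructor <;> intro h <;> linarith

lemma disc_ge (hX : CBM P X) (h : ℝ≥0) {ε c : ℝ} (hε : 0 < ε) (hc : 0 ≤ c) (n : ℕ) :
    ∀ x : ℝ, -ε ≤ x →
    P {ω | path X ω ∈ Nb h n ε ∧ x + 2 * ε + c < X (n * h) ω} ≤
      P {ω | path X ω ∈ Cb h n x c} := by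
  induction n with
  | zero =>
    intro x hx
    have : {ω | path X ω ∈ Nb h 0 ε ∧ x + 2 * ε + c < X ((0 : ℕ) * h) ω} = ∅ := by
      ext ω
      simp only [Set.mem_ofPred_eq, mem_empty_iff_false, iff_false, not_and]
      intro _ h1
      rw [Nat.cast_zero, zero_mul, hX.zero] at h1
      linarith
    rw [this, measure_empty]
    exact zero_le
  | succ n ih =>
    intro x hx
    rcases lt_or_ge x 0 with hx0 | hx0
    · have h1 : P {ω | X ((n + 1 : ℕ) * h) ω < x - c} ≤ P {ω | path X ω ∈ Cb h (n + 1) x c} := by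
        refine measure_mono fun ω hω => ⟨⟨0, by omega, ?_⟩, hω⟩
        rw [Nat.cast_zero, zero_mul, hX.path_zero]
        exact hx0
      refine le_trans ?_ h1
      rw [lt_symm' hX]
      refine measure_mono fun ω hω => ?_
      have := hω.2
      simp only [Set.mem_ofPred_eq] at this ⊢
      linarith
    · rw [Cb_step hX h n c hx0]
      have hS : MeasurableSet {w : ℝ≥0 → ℝ | w ∈ Nb h (n + 1) ε ∧
          x + 2 * ε + c < w ((n + 1 : ℕ) * h)} :=
        (measurableSet_Nb h (n + 1) ε).inter (measurableSet_lt measurable_const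
          (measurable_pi_apply _))
      have h1 : P {ω | path X ω ∈ Nb h (n + 1) ε ∧ x + 2 * ε + c < X ((n + 1 : ℕ) * h) ω} =
          P {ω | path X ω ∈ {w : ℝ≥0 → ℝ | w ∈ Nb h (n + 1) ε ∧
            x + 2 * ε + c < w ((n + 1 : ℕ) * h)}} := rfl
      rw [h1, ← prob_cat hX h hS]
      refine lintegral_mono fun ω => ?_
      by_cases hω : |X h ω| ≤ ε
      · refine le_trans ?_ (ih (x - X h ω) ?_)
        · refine measure_mono ?_
          rintro ω' ⟨h2, h3⟩
          refine ⟨?_, ?_⟩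
          · intro k hk
            have := h2 (k + 1) (by omega)
            rw [cat_mul, cat_mul] at this
            simpa using this
          · rw [cat_mul] at h3
            simp only [path] at h3
            linarith
        · have := (abs_le.mp hω).2
          linarith
      · have h2 : {ω' | cat h (path X ω) (path X ω') ∈ {w : ℝ≥0 → ℝ | w ∈ Nb h (n + 1) ε ∧
            x + 2 * ε + c < w ((n + 1 : ℕ) * h)}} = ∅ := by
          ext ω'
          simp only [Set.mem_ofPred_eq, mem_empty_iff_false, iff_false, not_and]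
          intro h3
          exfalso
          apply hω
          have := h3 0 (by omega)
          rw [cat_mul, Nat.cast_zero, zero_mul, cat_left (hX.path_zero ω') zero_le,
            hX.path_zero, hX.path_zero] at this
          simpa [path] using this
        rw [h2, measure_empty]
        exact zero_le

lemma joint_le (hX : CBM P X) {T : ℝ≥0} (hT : 0 < T) (x : ℝ) {c : ℝ} (hc : 0 ≤ c) :
    P {ω | x < mx (path X ω) 0 T ∧ X T ω < x - c} ≤ P {ω | x + c < X T ω} := by
  have hmul : ∀ N : ℕ, (((N + 1 : ℕ) : ℝ≥0) * (T / ((N + 1 : ℕ) : ℝ≥0))) = T := fun N =>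
    mul_div_cancel₀ T (by positivity)
  set E : ℕ → Set Ω := fun n => {ω | path X ω ∈ Cb (T / (n + 1 : ℕ)) (n + 1) x c} with hE
  have h1 : {ω | x < mx (path X ω) 0 T ∧ X T ω < x - c} ⊆ ⋃ N, ⋂ n, E (N + n) := by
    rintro ω ⟨hω, hω2⟩
    rw [lt_mx_iff (hX.cont ω)] at hω
    obtain ⟨s, hs, hx⟩ := hω
    obtain ⟨N, hN⟩ := exists_grid (hX.cont ω) hT hs hx
    rw [mem_iUnion]
    refine ⟨N, mem_iInter.mpr fun n => ⟨hN _ (by omega), ?_⟩⟩
    rw [hmul]
    exact hω2
  have hmono : Monotone (fun N => ⋂ n, E (N + n)) := by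
    intro N M hNM ω hω
    rw [mem_iInter] at hω ⊢
    intro n
    have := hω (M - N + n)
    rwa [← add_assoc, Nat.add_sub_cancel' hNM] at this
  refine (measure_mono h1).trans ?_
  rw [hmono.measure_iUnion]
  refine iSup_le fun N => ?_
  refine (measure_mono (iInter_subset _ 0)).trans ?_
  rw [add_zero]
  refine (disc_le hX _ hc _ x).trans ?_
  rw [hmul]

lemma joint_ge_aux (hX : CBM P X) {T : ℝ≥0} (hT : 0 < T) {x : ℝ} (hx : 0 ≤ x) {ε c : ℝ}
    (hε : 0 < ε) (hc : 0 ≤ c) : P {ω | x + 2 * ε + c < X T ω} ≤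
      P {ω | x < mx (path X ω) 0 T ∧ X T ω < x - c} := by
  have hmul : ∀ N : ℕ, (((N + 1 : ℕ) : ℝ≥0) * (T / ((N + 1 : ℕ) : ℝ≥0))) = T := fun N =>
    mul_div_cancel₀ T (by positivity)
  set E : ℕ → Set Ω := fun n => {ω | path X ω ∈ Nb (T / (n + 1 : ℕ)) (n + 1) ε ∧
    x + 2 * ε + c < X T ω} with hE
  have h1 : {ω | x + 2 * ε + c < X T ω} ⊆ ⋃ N, ⋂ n, E (N + n) := by
    intro ω hω
    obtain ⟨N, hN⟩ := eventually_Nb (hX.cont ω) hT hε
    rw [mem_iUnion]
    exact ⟨N, mem_iInter.mpr fun n => ⟨hN _ (by omega), hω⟩⟩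
  have hmono : Monotone (fun N => ⋂ n, E (N + n)) := by
    intro N M hNM ω hω
    rw [mem_iInter] at hω ⊢
    intro n
    have := hω (M - N + n)
    rwa [← add_assoc, Nat.add_sub_cancel' hNM] at this
  refine (measure_mono h1).trans ?_
  rw [hmono.measure_iUnion]
  refine iSup_le fun N => ?_
  refine (measure_mono (iInter_subset _ 0)).trans ?_
  rw [add_zero]
  have h2 := disc_ge hX (T / ((N + 1 : ℕ) : ℝ≥0)) hε hc (N + 1) x (by linarith)
  rw [hmul] at h2
  refine h2.trans (measure_mono ?_)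
  rintro ω ⟨⟨k, hk, hxk⟩, he⟩
  rw [hmul] at he
  refine ⟨?_, he⟩
  rw [lt_mx_iff (hX.cont ω)]
  refine ⟨_, ?_, hxk⟩
  calc (k : ℝ≥0) * (T / ((N + 1 : ℕ) : ℝ≥0)) ≤ ((N + 1 : ℕ) : ℝ≥0) * (T / ((N + 1 : ℕ) : ℝ≥0)) := by
        gcongr
    _ = T := hmul N

/-- The joint reflection principle. -/
lemma joint_reflection (hX : CBM P X) {T : ℝ≥0} (hT : 0 < T) {x c : ℝ} (hx : 0 ≤ x)
    (hc : 0 ≤ c) :
    P {ω | x < mx (path X ω) 0 T ∧ X T ω < x - c} = P {ω | x + c < X T ω} := by
  apply le_antisymm (joint_le hX hT x hc)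
  set E : ℕ → Set Ω := fun n => {ω | x + 2 * (1 / ((n:ℝ) + 1)) + c < X T ω} with hE
  have hmono : Monotone E := by
    intro n m hnm ω hω
    simp only [hE, Set.mem_ofPred_eq] at hω ⊢
    have : 1 / ((m:ℝ) + 1) ≤ 1 / ((n:ℝ) + 1) := by
      apply one_div_le_one_div_of_le (by positivity)
      have : (n:ℝ) ≤ m := by exact_mod_cast hnm
      linarith
    linarith
  have h1 : {ω | x + c < X T ω} ⊆ ⋃ n, E n := by
    intro ω hω
    simp only [Set.mem_ofPred_eq] at hω
    obtain ⟨n, hn⟩ := exists_nat_one_div_lt (show 0 < (X T ω - x - c) / 2 by linarith)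
    rw [mem_iUnion]
    refine ⟨n, ?_⟩
    simp only [hE, Set.mem_ofPred_eq]
    linarith
  refine (measure_mono h1).trans ?_
  rw [hmono.measure_iUnion]
  exact iSup_le fun n => joint_ge_aux hX hT hx (by positivity) hc

end Pool.Agent.Q171.PT
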