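import Pool.Agent.Q171.PT.Joint

/-!
# One step of the pair (maximum, distance to the maximum)
-/

set_option autoImplicit false

namespace Pool.Agent.Q171.PT

open MeasureTheory ProbabilityTheory Set Filter Topology
open Pool.Agent.TH970
open scoped ENNReal NNReal

variable {Ω : Type*} [MeasurableSpace Ω] {P : Measure Ω} [IsProbabilityMeasure P]
  {X : ℝ≥0 → Ω → ℝ}

/-- the state after time `u`, started from `a = (maximum, distance to the maximum)`, when the
increments are given by the path `w` -/
noncomputable def stp (u : ℝ≥0) (a : ℝ × ℝ) (w : ℝ≥0 → ℝ) : ℝ × ℝ :=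
  (max a.1 (a.1 - a.2 + mx w 0 u), max a.1 (a.1 - a.2 + mx w 0 u) - (a.1 - a.2) - w u)

lemma measurable_stp (u : ℝ≥0) :
    Measurable (fun z : (ℝ × ℝ) × (ℝ≥0 → ℝ) => stp u z.1 z.2) := by
  have h1 : Measurable (fun z : (ℝ × ℝ) × (ℝ≥0 → ℝ) => mx z.2 0 u) :=
    (measurable_mx 0 u).comp measurable_snd
  unfold stp
  fun_prop

lemma meas_stp (hX : CBM P X) (u : ℝ≥0) (a : ℝ × ℝ) :
    Measurable (fun ω => stp u a (path X ω)) :=
  (measurable_stp u).comp (measurable_const.prodMk hX.mpath)

/-- the probability that both coordinates are large after time `u` -/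
noncomputable def gg (P : Measure Ω) (X : ℝ≥0 → Ω → ℝ) (u : ℝ≥0) (x y : ℝ) (a : ℝ × ℝ) : ℝ≥0∞ :=
  P {ω | x < (stp u a (path X ω)).1 ∧ y < (stp u a (path X ω)).2}

/-- the real formula -/
noncomputable def gf (P : Measure Ω) (X : ℝ≥0 → Ω → ℝ) (u : ℝ≥0) (x y : ℝ) (p q : ℝ) : ℝ :=
  if p ≤ x then 2 * tl P X u (x + y - p + q) else tl P X u (y - q) + tl P X u (y + q)

/-- tail of the distance to the maximum -/
lemma dist_tail (hX : CBM P X) {T : ℝ≥0} (hT : 0 < T) {q y : ℝ} (hq : 0 ≤ q) (hy : 0 ≤ y) :
    P.real {ω | y < max q (mx (path X ω) 0 T) - X T ω} = tl P X T (y - q) + tl P X T (y + q) := by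
  have hm := meas_mx hX T
  have h1 : {ω | y < max q (mx (path X ω) 0 T) - X T ω} =
      {ω | q < mx (path X ω) 0 T ∧ y < mx (path X ω) 0 T - X T ω} ∪
        ({ω | X T ω < q - y} \ {ω | q < mx (path X ω) 0 T ∧ X T ω < q - y}) := by
    ext ω
    constructor
    · intro h
      simp only [Set.mem_ofPred_eq] at h
      rcases lt_or_ge q (mx (path X ω) 0 T) with h1 | h1
      · left
        rw [max_eq_right h1.le] at h
        exact ⟨h1, h⟩
      · right
        rw [max_eq_left h1] at h
        refine ⟨?_, fun h2 => absurd h2.1 (not_lt.mpr h1)⟩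
        simp only [Set.mem_ofPred_eq]
        linarith
    · rintro (⟨h1, h2⟩ | ⟨h1, h2⟩)
      · simp only [Set.mem_ofPred_eq]
        rw [max_eq_right h1.le]
        exact h2
      · simp only [Set.mem_ofPred_eq] at h1 h2 ⊢
        have h3 := le_max_left q (mx (path X ω) 0 T)
        linarith
  have hd : Disjoint {ω | q < mx (path X ω) 0 T ∧ y < mx (path X ω) 0 T - X T ω}
      ({ω | X T ω < q - y} \ {ω | q < mx (path X ω) 0 T ∧ X T ω < q - y}) := by
    rw [Set.disjoint_left]
    rintro ω ⟨h1, _⟩ ⟨h2, h3⟩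
    exact h3 ⟨h1, h2⟩
  have hm1 : MeasurableSet {ω | X T ω < q - y} := measurableSet_lt (hX.meas T) measurable_const
  have hm2 : MeasurableSet {ω | q < mx (path X ω) 0 T ∧ X T ω < q - y} :=
    (measurableSet_lt measurable_const hm).inter hm1
  rw [h1, measureReal_union hd (hm1.diff hm2), joint_tail hX hT hq hy,
    measureReal_sdiff (s₁ := {ω | X T ω < q - y}) (fun ω hω => hω.2) hm2,
    real_refl hX hT hq (by linarith)]
  have h2 : P.real {ω | X T ω < q - y} = tl P X T (y - q) := by
    simp only [Measure.real, tl]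
    rw [lt_symm' hX, neg_sub]
  rw [h2]
  have e : 2 * q - (q - y) = y + q := by ring
  have e2 : q + y = y + q := by ring
  rw [e, e2]
  ring

lemma gg_eq (hX : CBM P X) {T : ℝ≥0} (hT : 0 < T) {x y p q : ℝ} (hy : 0 ≤ y)
    (hq : 0 ≤ q) : gg P X T x y (p, q) = ENNReal.ofReal (gf P X T x y p q) := by
  have h0 : gg P X T x y (p, q) = ENNReal.ofReal
      (P.real {ω | x < (stp T (p, q) (path X ω)).1 ∧ y < (stp T (p, q) (path X ω)).2}) := by
    rw [ofReal_measureReal]
    rfl
  rw [h0]
  congr 1
  unfold gf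
  split_ifs with hp
  · have h1 : {ω | x < (stp T (p, q) (path X ω)).1 ∧ y < (stp T (p, q) (path X ω)).2} =
        {ω | x - p + q < mx (path X ω) 0 T ∧ y < mx (path X ω) 0 T - X T ω} := by
      ext ω
      change (x < max p (p - q + mx (path X ω) 0 T) ∧
        y < max p (p - q + mx (path X ω) 0 T) - (p - q) - X T ω) ↔
        (x - p + q < mx (path X ω) 0 T ∧ y < mx (path X ω) 0 T - X T ω)
      constructor
      · rintro ⟨h1, h2⟩
        have h3 : x < p - q + mx (path X ω) 0 T := by
          rcases lt_max_iff.mp h1 with h | h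
          · exact absurd h (not_lt.mpr hp)
          · exact h
        rw [max_eq_right (by linarith)] at h2
        refine ⟨?_, ?_⟩
        · linarith
        · linarith
      · rintro ⟨h1, h2⟩
        rw [max_eq_right (by linarith)]
        refine ⟨by linarith, by linarith⟩
    rw [h1, joint_tail hX hT (by linarith) hy]
    congr 2
    ring
  · have h1 : {ω | x < (stp T (p, q) (path X ω)).1 ∧ y < (stp T (p, q) (path X ω)).2} =
        {ω | y < max q (mx (path X ω) 0 T) - X T ω} := by
      ext ω
      change (x < max p (p - q + mx (path X ω) 0 T) ∧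
        y < max p (p - q + mx (path X ω) 0 T) - (p - q) - X T ω) ↔
        (y < max q (mx (path X ω) 0 T) - X T ω)
      have h2 : max p (p - q + mx (path X ω) 0 T) - (p - q) =
          max q (mx (path X ω) 0 T) := by
        rw [← max_sub_sub_right]
        congr 1 <;> ring
      rw [h2]
      constructor
      · rintro ⟨_, h⟩
        exact h
      · intro h
        refine ⟨lt_of_lt_of_le (not_le.mp hp) (le_max_left _ _), h⟩
    rw [h1, dist_tail hX hT hq hy]

/-- the average over the segment `p + q = r` -/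
noncomputable def Lam (g : ℝ × ℝ → ℝ≥0∞) (r : ℝ) : ℝ≥0∞ :=
  ∫⁻ θ in Ioo (0:ℝ) 1, g (θ * r, (1 - θ) * r)

lemma measurable_Lam {g : ℝ × ℝ → ℝ≥0∞} (hg : Measurable g) : Measurable (Lam g) := by
  unfold Lam
  have h : Measurable (fun z : ℝ × ℝ => g (z.2 * z.1, (1 - z.2) * z.1)) :=
    hg.comp (by fun_prop)
  exact h.lintegral_prod_right'

lemma tl_int (hX : CBM P X) {T : ℝ≥0} (hT : 0 < T) (a b : ℝ) :
    IntervalIntegrable (tl P X T) volume a b := (tl_cont hX hT).intervalIntegrable a b

/-- the average of the formula -/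
lemma avg_gf (hX : CBM P X) {T : ℝ≥0} (hT : 0 < T) {x y r : ℝ} (hx : 0 ≤ x) (hr : 0 ≤ r) :
    ∫ s in (0:ℝ)..r, gf P X T x y s (r - s) = ∫ z in (x + y - r)..(x + y + r), tl P X T z := by
  have hc := tl_cont hX hT
  rcases le_or_gt r x with h | h
  · have h1 : EqOn (fun s => gf P X T x y s (r - s)) (fun s => 2 * tl P X T ((x + y + r) - 2 * s))
        (uIcc 0 r) := by
      intro s hs
      rw [uIcc_of_le hr] at hs
      simp only [gf]
      rw [if_pos (hs.2.trans h)]
      congr 2
      ring
    rw [intervalIntegral.integral_congr h1, intervalIntegral.integral_const_mul,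
      intervalIntegral.integral_comp_sub_mul (tl P X T) two_ne_zero (x + y + r)]
    rw [smul_eq_mul, ← mul_assoc, mul_inv_cancel₀ two_ne_zero, one_mul]
    congr 1 <;> ring
  · have hA : ∀ a b : ℝ, IntervalIntegrable (fun s => 2 * tl P X T ((x + y + r) - 2 * s))
        volume a b := fun a b => Continuous.intervalIntegrable (by fun_prop) a b
    have hB : ∀ a b : ℝ, IntervalIntegrable (fun s => tl P X T (y - r + s) + tl P X T (y + r - s))
        volume a b := fun a b => Continuous.intervalIntegrable (by fun_prop) a b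
    have h1 : ∀ s, s ∈ Ioc 0 x → gf P X T x y s (r - s) = 2 * tl P X T ((x + y + r) - 2 * s) := by
      intro s hs
      simp only [gf]
      rw [if_pos hs.2]
      congr 2
      ring
    have h2 : ∀ s, s ∈ Ioc x r → gf P X T x y s (r - s) =
        tl P X T (y - r + s) + tl P X T (y + r - s) := by
      intro s hs
      simp only [gf]
      rw [if_neg (not_le.mpr hs.1)]
      congr 2 <;> ring
    have i1 : IntervalIntegrable (fun s => gf P X T x y s (r - s)) volume 0 x := by
      refine (hA 0 x).congr ?_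
      rw [uIoc_of_le hx]
      intro s hs
      exact (h1 s hs).symm
    have i2 : IntervalIntegrable (fun s => gf P X T x y s (r - s)) volume x r := by
      refine (hB x r).congr ?_
      rw [uIoc_of_le h.le]
      intro s hs
      exact (h2 s hs).symm
    rw [← intervalIntegral.integral_add_adjacent_intervals i1 i2]
    have e1 : ∫ s in (0:ℝ)..x, gf P X T x y s (r - s) =
        ∫ z in (y + r - x)..(x + y + r), tl P X T z := by
      rw [intervalIntegral.integral_congr_ae (g := fun s => 2 * tl P X T ((x + y + r) - 2 * s))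
        (Eventually.of_forall (by rw [uIoc_of_le hx]; exact fun s hs => h1 s hs)),
        intervalIntegral.integral_const_mul,
        intervalIntegral.integral_comp_sub_mul (tl P X T) two_ne_zero (x + y + r)]
      rw [smul_eq_mul, ← mul_assoc, mul_inv_cancel₀ two_ne_zero, one_mul]
      congr 1 <;> ring
    have e2 : ∫ s in x..r, gf P X T x y s (r - s) =
        (∫ z in (x + y - r)..y, tl P X T z) + ∫ z in y..(y + r - x), tl P X T z := by
      rw [intervalIntegral.integral_congr_ae
        (g := fun s => tl P X T (y - r + s) + tl P X T (y + r - s))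
        (Eventually.of_forall (by rw [uIoc_of_le h.le]; exact fun s hs => h2 s hs))]
      rw [intervalIntegral.integral_add (Continuous.intervalIntegrable (by fun_prop) _ _)
        (Continuous.intervalIntegrable (by fun_prop) _ _)]
      rw [intervalIntegral.integral_comp_add_left (tl P X T) (y - r),
        intervalIntegral.integral_comp_sub_left (tl P X T) (y + r)]
      congr 1
      · congr 1 <;> ring
      · congr 1
        ring
    rw [e1, e2, add_comm, add_assoc, intervalIntegral.integral_add_adjacent_intervals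
      (tl_int hX hT _ _) (tl_int hX hT _ _), intervalIntegral.integral_add_adjacent_intervals
      (tl_int hX hT _ _) (tl_int hX hT _ _)]

lemma gf_nonneg (T : ℝ≥0) (x y p q : ℝ) : 0 ≤ gf P X T x y p q := by
  unfold gf
  split_ifs
  · exact mul_nonneg zero_le_two (tl_nonneg _ _ _ _)
  · exact add_nonneg (tl_nonneg _ _ _ _) (tl_nonneg _ _ _ _)

lemma measurable_gf (hX : CBM P X) {T : ℝ≥0} (hT : 0 < T) (x y : ℝ) :
    Measurable (fun a : ℝ × ℝ => gf P X T x y a.1 a.2) := by
  have hc := (tl_cont hX hT).measurable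
  unfold gf
  refine Measurable.ite (measurableSet_le measurable_fst measurable_const) ?_ ?_
  · exact (hc.comp (by fun_prop)).const_mul 2
  · exact (hc.comp (by fun_prop)).add (hc.comp (by fun_prop))

lemma tl_le_one (T : ℝ≥0) (z : ℝ) : tl P X T z ≤ 1 := measureReal_le_one

lemma gf_le (T : ℝ≥0) (x y p q : ℝ) : gf P X T x y p q ≤ 2 := by
  unfold gf
  split_ifs
  · linarith [tl_le_one (P := P) (X := X) T (x + y - p + q)]
  · linarith [tl_le_one (P := P) (X := X) T (y - q), tl_le_one (P := P) (X := X) T (y + q)]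

lemma Lam_gg (hX : CBM P X) {T : ℝ≥0} (hT : 0 < T) {x y r : ℝ} (hx : 0 ≤ x) (hy : 0 ≤ y)
    (hr : 0 < r) : Lam (gg P X T x y) r =
      ENNReal.ofReal (r⁻¹ * ∫ z in (x + y - r)..(x + y + r), tl P X T z) := by
  unfold Lam
  have h1 : ∀ θ ∈ Ioo (0:ℝ) 1, gg P X T x y (θ * r, (1 - θ) * r) =
      ENNReal.ofReal (gf P X T x y (θ * r) (r - θ * r)) := by
    intro θ hθ
    have h2 : 0 ≤ (1 - θ) * r := mul_nonneg (by linarith [hθ.2]) hr.le
    rw [gg_eq hX hT hy h2]
    congr 2
    ring
  rw [setLIntegral_congr_fun measurableSet_Ioo h1]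
  have hm : Measurable (fun θ : ℝ => gf P X T x y (θ * r) (r - θ * r)) :=
    (measurable_gf hX hT x y).comp (by fun_prop : Measurable fun θ : ℝ => (θ * r, r - θ * r))
  rw [← ofReal_integral_eq_lintegral_ofReal]
  · congr 1
    rw [← avg_gf hX hT hx hr.le, ← integral_Ioc_eq_integral_Ioo,
      ← intervalIntegral.integral_of_le zero_le_one,
      intervalIntegral.integral_comp_mul_right (fun s => gf P X T x y s (r - s)) hr.ne']
    rw [smul_eq_mul, zero_mul, one_mul]
  · refine Measure.integrableOn_of_bounded (M := 2) (by simp) hm.aestronglyMeasurable ?_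
    refine Eventually.of_forall fun θ => ?_
    rw [Real.norm_eq_abs, abs_of_nonneg (gf_nonneg _ _ _ _ _)]
    exact gf_le _ _ _ _ _
  · exact Eventually.of_forall fun θ => gf_nonneg _ _ _ _ _

lemma Lam_shift (hX : CBM P X) {T : ℝ≥0} (hT : 0 < T) {x y h r : ℝ} (hx : 0 ≤ x) (hy : 0 ≤ y)
    (hh : 0 ≤ h) (hr : 0 ≤ r) :
    Lam (gg P X T (x + h) y) r = Lam (gg P X T x (y + h)) r := by
  rcases eq_or_lt_of_le hr with rfl | hr
  · unfold Lam
    refine setLIntegral_congr_fun measurableSet_Ioo fun θ hθ => ?_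
    simp only [mul_zero]
    rw [gg_eq hX hT hy le_rfl, gg_eq hX hT (by linarith) le_rfl]
    unfold gf
    rw [if_pos (by linarith), if_pos hx]
    congr 3
    ring
  · rw [Lam_gg hX hT (by linarith) hy hr, Lam_gg hX hT hx (by linarith) hr]
    have e : x + h + y = x + (y + h) := by ring
    rw [e]

end Pool.Agent.Q171.PT
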