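import Pool.Agent.Q171.PT.Step

/-!
# A measure on the quadrant whose tails depend only on the sum is uniform on the segments
-/

set_option autoImplicit false

namespace Pool.Agent.Q171.PT

open MeasureTheory ProbabilityTheory Set Filter Topology
open scoped ENNReal NNReal

/-- the family of the quadrants -/
def Rect : Set (Set (ℝ × ℝ)) := image2 (fun s t => s ×ˢ t) (range Ioi) (range Ioi)

lemma isPi_Ioi : IsPiSystem (range (Ioi : ℝ → Set ℝ)) := by
  rintro _ ⟨a, rfl⟩ _ ⟨b, rfl⟩ _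
  exact ⟨max a b, by rw [Ioi_inter_Ioi]⟩

lemma isPi_Rect : IsPiSystem Rect := isPi_Ioi.prod isPi_Ioi

lemma span_Ioi : IsCountablySpanning (range (Ioi : ℝ → Set ℝ)) := by
  refine ⟨fun n => Ioi (-(n:ℝ)), fun n => ⟨_, rfl⟩, ?_⟩
  refine eq_univ_of_forall fun x => ?_
  obtain ⟨n, hn⟩ := exists_nat_gt (-x)
  exact mem_iUnion.mpr ⟨n, by simp only [mem_Ioi]; linarith⟩

lemma gen_Rect : (inferInstance : MeasurableSpace (ℝ × ℝ)) = MeasurableSpace.generateFrom Rect := by
  unfold Rect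
  rw [← generateFrom_prod_eq span_Ioi span_Ioi, ← borel_eq_generateFrom_Ioi,
    ← (inferInstance : BorelSpace ℝ).measurable_eq]

lemma scale_lintegral {r : ℝ} (hr : 0 < r) (G : ℝ → ℝ≥0∞) :
    ∫⁻ s in Ioo (0:ℝ) r, G s = ENNReal.ofReal r * ∫⁻ θ in Ioo (0:ℝ) 1, G (θ * r) := by
  have h1 := Real.smul_map_volume_mul_right hr.ne'
  have hme : MeasurableEmbedding (fun x : ℝ => x * r) :=
    (Homeomorph.mulRight₀ r hr.ne').measurableEmbedding
  calc ∫⁻ s in Ioo (0:ℝ) r, G s
      = ∫⁻ s, (Ioo (0:ℝ) r).indicator G s := (lintegral_indicator measurableSet_Ioo _).symm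
    _ = ∫⁻ s, (Ioo (0:ℝ) r).indicator G s
          ∂(ENNReal.ofReal |r| • Measure.map (fun x => x * r) volume) := by rw [h1]
    _ = ENNReal.ofReal r * ∫⁻ θ, (Ioo (0:ℝ) r).indicator G (θ * r) := by
        rw [lintegral_smul_measure, hme.lintegral_map, abs_of_pos hr, smul_eq_mul]
    _ = ENNReal.ofReal r * ∫⁻ θ in Ioo (0:ℝ) 1, G (θ * r) := by
        congr 1
        rw [← lintegral_indicator measurableSet_Ioo]
        refine lintegral_congr fun θ => ?_
        by_cases h : θ ∈ Ioo (0:ℝ) 1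
        · have h2 : θ * r ∈ Ioo (0:ℝ) r := ⟨mul_pos h.1 hr, by nlinarith [h.2]⟩
          rw [indicator_of_mem h, indicator_of_mem h2]
        · have h2 : θ * r ∉ Ioo (0:ℝ) r := by
            intro h3
            apply h
            refine ⟨?_, ?_⟩
            · by_contra h4
              push Not at h4
              nlinarith [h3.1]
            · by_contra h4
              push Not at h4
              nlinarith [h3.2]
          rw [indicator_of_notMem h, indicator_of_notMem h2]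

/-- integration over the segment through `(p, q)` -/
lemma seg_lintegral {p q : ℝ} (hp : 0 < p) (hq : 0 < q) (g : ℝ × ℝ → ℝ≥0∞) :
    (∫⁻ h in Ioo 0 q, g (p + h, q - h)) + (∫⁻ h in Ioo 0 p, g (p - h, q + h)) =
      ENNReal.ofReal (p + q) * Lam g (p + q) := by
  have hpq : 0 < p + q := by linarith
  have e0 : Lam g (p + q) = ∫⁻ θ in Ioo (0:ℝ) 1, (fun s => g (s, p + q - s)) (θ * (p + q)) := by
    unfold Lam
    refine setLIntegral_congr_fun measurableSet_Ioo fun θ _ => ?_
    simp only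
    congr 2
    ring
  rw [e0, ← scale_lintegral hpq (fun s => g (s, p + q - s))]
  have e1 : ∫⁻ h in Ioo 0 q, g (p + h, q - h) = ∫⁻ s in Ioo p (p + q), g (s, p + q - s) := by
    rw [← lintegral_indicator measurableSet_Ioo, ← lintegral_indicator measurableSet_Ioo,
      ← lintegral_add_left_eq_self ((Ioo p (p + q)).indicator fun s => g (s, p + q - s)) p]
    refine lintegral_congr fun h => ?_
    by_cases hh : h ∈ Ioo 0 q
    · have h2 : p + h ∈ Ioo p (p + q) := ⟨by linarith [hh.1], by linarith [hh.2]⟩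
      rw [indicator_of_mem hh, indicator_of_mem h2]
      congr 2
      ring
    · have h2 : p + h ∉ Ioo p (p + q) := fun h3 => hh ⟨by linarith [h3.1], by linarith [h3.2]⟩
      rw [indicator_of_notMem hh, indicator_of_notMem h2]
  have e2 : ∫⁻ h in Ioo 0 p, g (p - h, q + h) = ∫⁻ s in Ioo 0 p, g (s, p + q - s) := by
    rw [← lintegral_indicator measurableSet_Ioo, ← lintegral_indicator measurableSet_Ioo,
      ← lintegral_sub_left_eq_self ((Ioo 0 p).indicator fun s => g (s, p + q - s)) p]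
    refine lintegral_congr fun h => ?_
    by_cases hh : h ∈ Ioo 0 p
    · have h2 : p - h ∈ Ioo 0 p := ⟨by linarith [hh.2], by linarith [hh.1]⟩
      rw [indicator_of_mem hh, indicator_of_mem h2]
      congr 2
      ring
    · have h2 : p - h ∉ Ioo 0 p := fun h3 => hh ⟨by linarith [h3.2], by linarith [h3.1]⟩
      rw [indicator_of_notMem hh, indicator_of_notMem h2]
  rw [e1, e2, add_comm]
  have h3 : Ioo 0 (p + q) = Ioc 0 p ∪ Ioo p (p + q) :=
    (Ioc_union_Ioo_eq_Ioo hp.le (by linarith)).symm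
  have h4 : ∫⁻ s in Ioo 0 p, g (s, p + q - s) = ∫⁻ s in Ioc 0 p, g (s, p + q - s) :=
    setLIntegral_congr Ioo_ae_eq_Ioc
  rw [h4, h3, lintegral_union measurableSet_Ioo]
  rw [Set.disjoint_left]
  intro s h5 h6
  exact absurd h5.2 (not_le.mpr h6.1)

section
variable (ν : Measure (ℝ × ℝ)) [IsFiniteMeasure ν]

/-- shift of the first coordinate -/
noncomputable def sh1 (h : ℝ) : Measure (ℝ × ℝ) :=
  (ν.restrict {a | h < a.1}).map (fun a => (a.1 - h, a.2))

/-- shift of the second coordinate -/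
noncomputable def sh2 (h : ℝ) : Measure (ℝ × ℝ) :=
  (ν.restrict {a | h < a.2}).map (fun a => (a.1, a.2 - h))

variable {ν}

lemma ms1 (h : ℝ) : MeasurableSet {a : ℝ × ℝ | h < a.1} :=
  measurableSet_lt measurable_const measurable_fst

lemma ms2 (h : ℝ) : MeasurableSet {a : ℝ × ℝ | h < a.2} :=
  measurableSet_lt measurable_const measurable_snd

lemma sh_eq (hQ : ∀ᵐ a ∂ν, 0 < a.1 ∧ 0 < a.2)
    (ht : ∀ x y h : ℝ, 0 ≤ x → 0 ≤ y → 0 ≤ h →
      ν (Ioi (x + h) ×ˢ Ioi y) = ν (Ioi x ×ˢ Ioi (y + h))) {h : ℝ} (hh : 0 ≤ h) :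
    sh1 ν h = sh2 ν h := by
  have m1 : Measurable (fun a : ℝ × ℝ => (a.1 - h, a.2)) := by fun_prop
  have m2 : Measurable (fun a : ℝ × ℝ => (a.1, a.2 - h)) := by fun_prop
  have key : ∀ x y : ℝ, sh1 ν h (Ioi x ×ˢ Ioi y) = ν (Ioi (max x 0 + h) ×ˢ Ioi (max y 0)) := by
    intro x y
    unfold sh1
    rw [Measure.map_apply m1 (measurableSet_Ioi.prod measurableSet_Ioi),
      Measure.restrict_apply (m1 (measurableSet_Ioi.prod measurableSet_Ioi))]
    refine measure_congr ?_
    filter_upwards [hQ] with a ha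
    refine propext ⟨?_, ?_⟩
    · rintro ⟨⟨h1, h2⟩, h3⟩
      simp only [mem_Ioi] at h1 h2
      have h4 : h < a.1 := h3
      refine ⟨?_, ?_⟩
      · simp only [mem_Ioi]
        have : max x 0 < a.1 - h := max_lt h1 (by linarith)
        linarith
      · simp only [mem_Ioi]
        exact max_lt h2 ha.2
    · rintro ⟨h1, h2⟩
      simp only [mem_Ioi] at h1 h2
      have h3 := le_max_left x 0
      have h4 := le_max_right x 0
      have h5 := le_max_left y 0
      refine ⟨⟨?_, ?_⟩, ?_⟩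
      · simp only [mem_Ioi]; linarith
      · simp only [mem_Ioi]; linarith
      · change h < a.1
        linarith
  have key2 : ∀ x y : ℝ, sh2 ν h (Ioi x ×ˢ Ioi y) = ν (Ioi (max x 0) ×ˢ Ioi (max y 0 + h)) := by
    intro x y
    unfold sh2
    rw [Measure.map_apply m2 (measurableSet_Ioi.prod measurableSet_Ioi),
      Measure.restrict_apply (m2 (measurableSet_Ioi.prod measurableSet_Ioi))]
    refine measure_congr ?_
    filter_upwards [hQ] with a ha
    refine propext ⟨?_, ?_⟩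
    · rintro ⟨⟨h1, h2⟩, h3⟩
      simp only [mem_Ioi] at h1 h2
      have h4 : h < a.2 := h3
      refine ⟨?_, ?_⟩
      · simp only [mem_Ioi]
        exact max_lt h1 ha.1
      · simp only [mem_Ioi]
        have : max y 0 < a.2 - h := max_lt h2 (by linarith)
        linarith
    · rintro ⟨h1, h2⟩
      simp only [mem_Ioi] at h1 h2
      have h3 := le_max_left x 0
      have h4 := le_max_right y 0
      have h5 := le_max_left y 0
      refine ⟨⟨?_, ?_⟩, ?_⟩
      · simp only [mem_Ioi]; linarith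
      · simp only [mem_Ioi]; linarith
      · change h < a.2
        linarith
  have hfin : IsFiniteMeasure (sh1 ν h) := by unfold sh1; infer_instance
  refine ext_of_generate_finite Rect gen_Rect isPi_Rect ?_ ?_
  · rintro _ ⟨_, ⟨x, rfl⟩, _, ⟨y, rfl⟩, rfl⟩
    simp only
    rw [key, key2, ht _ _ _ (le_max_right _ _) (le_max_right _ _) hh]
  · unfold sh1 sh2
    rw [Measure.map_apply m1 MeasurableSet.univ, Measure.map_apply m2 MeasurableSet.univ,
      preimage_univ, preimage_univ, Measure.restrict_apply_univ, Measure.restrict_apply_univ]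
    have h1 : ν {a | h < a.1} = ν (Ioi (0 + h) ×ˢ Ioi 0) := by
      refine measure_congr ?_
      filter_upwards [hQ] with a ha
      refine propext ⟨fun h1 => ⟨?_, ha.2⟩, fun h1 => ?_⟩
      · have h2 : h < a.1 := h1
        simp only [mem_Ioi]
        linarith
      · have h2 := h1.1
        simp only [mem_Ioi] at h2
        change h < a.1
        linarith
    have h2 : ν {a | h < a.2} = ν (Ioi 0 ×ˢ Ioi (0 + h)) := by
      refine measure_congr ?_
      filter_upwards [hQ] with a ha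
      refine propext ⟨fun h1 => ⟨ha.1, ?_⟩, fun h1 => ?_⟩
      · have h2 : h < a.2 := h1
        simp only [mem_Ioi]
        linarith
      · have h2 := h1.2
        simp only [mem_Ioi] at h2
        change h < a.2
        linarith
    rw [h1, h2, ht 0 0 h le_rfl le_rfl hh]

/-- exchange of the coordinates along the segments -/
lemma exch (hQ : ∀ᵐ a ∂ν, 0 < a.1 ∧ 0 < a.2)
    (ht : ∀ x y h : ℝ, 0 ≤ x → 0 ≤ y → 0 ≤ h →
      ν (Ioi (x + h) ×ˢ Ioi y) = ν (Ioi x ×ˢ Ioi (y + h)))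
    {f : ℝ × ℝ → ℝ → ℝ≥0∞} (hf : Measurable (Function.uncurry f)) :
    ∫⁻ a, (∫⁻ h in Ioo 0 a.1, f (a.1 - h, a.2) h) ∂ν =
      ∫⁻ a, (∫⁻ h in Ioo 0 a.2, f (a.1, a.2 - h) h) ∂ν := by
  have m1 : ∀ h : ℝ, Measurable (fun a : ℝ × ℝ => (a.1 - h, a.2)) := fun h => by fun_prop
  have m2 : ∀ h : ℝ, Measurable (fun a : ℝ × ℝ => (a.1, a.2 - h)) := fun h => by fun_prop
  have mf : ∀ h : ℝ, Measurable (fun a => f a h) := fun h =>
    hf.comp (measurable_id.prodMk measurable_const)
  have e1 : ∀ a : ℝ × ℝ, (∫⁻ h in Ioo 0 a.1, f (a.1 - h, a.2) h) =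
      ∫⁻ h in Ioi (0:ℝ), {a : ℝ × ℝ | h < a.1}.indicator (fun a => f (a.1 - h, a.2) h) a := by
    intro a
    rw [← lintegral_indicator measurableSet_Ioo, ← lintegral_indicator measurableSet_Ioi]
    refine lintegral_congr fun h => ?_
    simp only [indicator_apply, mem_Ioo, mem_Ioi, Set.mem_ofPred_eq]
    by_cases h1 : 0 < h <;> by_cases h2 : h < a.1 <;> simp [h1, h2]
  have e2 : ∀ a : ℝ × ℝ, (∫⁻ h in Ioo 0 a.2, f (a.1, a.2 - h) h) =
      ∫⁻ h in Ioi (0:ℝ), {a : ℝ × ℝ | h < a.2}.indicator (fun a => f (a.1, a.2 - h) h) a := by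
    intro a
    rw [← lintegral_indicator measurableSet_Ioo, ← lintegral_indicator measurableSet_Ioi]
    refine lintegral_congr fun h => ?_
    simp only [indicator_apply, mem_Ioo, mem_Ioi, Set.mem_ofPred_eq]
    by_cases h1 : 0 < h <;> by_cases h2 : h < a.2 <;> simp [h1, h2]
  rw [lintegral_congr e1, lintegral_congr e2]
  have hM1 : Measurable (Function.uncurry fun (a : ℝ × ℝ) (h : ℝ) =>
      {a : ℝ × ℝ | h < a.1}.indicator (fun a => f (a.1 - h, a.2) h) a) := by
    have : (Function.uncurry fun (a : ℝ × ℝ) (h : ℝ) =>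
      {a : ℝ × ℝ | h < a.1}.indicator (fun a => f (a.1 - h, a.2) h) a) =
        {z : (ℝ × ℝ) × ℝ | z.2 < z.1.1}.indicator
          (fun z => Function.uncurry f ((z.1.1 - z.2, z.1.2), z.2)) := by
      funext z
      simp only [indicator_apply, Function.uncurry, Set.mem_ofPred_eq]
    rw [this]
    refine Measurable.indicator ?_ ?_
    · exact hf.comp (by fun_prop)
    · exact measurableSet_lt (by fun_prop) (by fun_prop)
  have hM2 : Measurable (Function.uncurry fun (a : ℝ × ℝ) (h : ℝ) =>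
      {a : ℝ × ℝ | h < a.2}.indicator (fun a => f (a.1, a.2 - h) h) a) := by
    have : (Function.uncurry fun (a : ℝ × ℝ) (h : ℝ) =>
      {a : ℝ × ℝ | h < a.2}.indicator (fun a => f (a.1, a.2 - h) h) a) =
        {z : (ℝ × ℝ) × ℝ | z.2 < z.1.2}.indicator
          (fun z => Function.uncurry f ((z.1.1, z.1.2 - z.2), z.2)) := by
      funext z
      simp only [indicator_apply, Function.uncurry, Set.mem_ofPred_eq]
    rw [this]
    refine Measurable.indicator ?_ ?_
    · exact hf.comp (by fun_prop)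
    · exact measurableSet_lt (by fun_prop) (by fun_prop)
  rw [lintegral_lintegral_swap hM1.aemeasurable, lintegral_lintegral_swap hM2.aemeasurable]
  refine setLIntegral_congr_fun measurableSet_Ioi fun h hh => ?_
  rw [lintegral_indicator (ms1 h), lintegral_indicator (ms2 h)]
  have h1 : ∫⁻ a in {a : ℝ × ℝ | h < a.1}, f (a.1 - h, a.2) h ∂ν = ∫⁻ a, f a h ∂(sh1 ν h) := by
    unfold sh1
    rw [lintegral_map (mf h) (m1 h)]
  have h2 : ∫⁻ a in {a : ℝ × ℝ | h < a.2}, f (a.1, a.2 - h) h ∂ν = ∫⁻ a, f a h ∂(sh2 ν h) := by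
    unfold sh2
    rw [lintegral_map (mf h) (m2 h)]
  rw [h1, h2, sh_eq hQ ht (le_of_lt hh)]

/-- A measure on the quadrant whose tails depend only on the sum is uniform on the segments. -/
theorem unif_of_tail (hQ : ∀ᵐ a ∂ν, 0 < a.1 ∧ 0 < a.2)
    (ht : ∀ x y h : ℝ, 0 ≤ x → 0 ≤ y → 0 ≤ h →
      ν (Ioi (x + h) ×ˢ Ioi y) = ν (Ioi x ×ˢ Ioi (y + h)))
    {g : ℝ × ℝ → ℝ≥0∞} (hg : Measurable g) :
    ∫⁻ a, g a ∂ν = ∫⁻ a, Lam g (a.1 + a.2) ∂ν := by
  set w : ℝ → ℝ≥0∞ := fun r => (ENNReal.ofReal r)⁻¹ with hw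
  have hwm : Measurable w := by
    rw [hw]
    exact (ENNReal.measurable_ofReal).inv
  have h1 := exch hQ ht (f := fun a h => w (a.1 + a.2 + h) * g (a.1 + h, a.2)) (by
    refine Measurable.mul ?_ ?_
    · exact hwm.comp (by fun_prop)
    · exact hg.comp (by fun_prop))
  have h2 := exch hQ ht (f := fun a h => w (a.1 + a.2 + h) * g (a.1, a.2 + h)) (by
    refine Measurable.mul ?_ ?_
    · exact hwm.comp (by fun_prop)
    · exact hg.comp (by fun_prop))
  simp only at h1 h2
  have mg1 : ∀ a : ℝ × ℝ, Measurable (fun h : ℝ => g (a.1 + h, a.2 - h)) := fun a =>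
    hg.comp (by fun_prop)
  have mg2 : ∀ a : ℝ × ℝ, Measurable (fun h : ℝ => g (a.1 - h, a.2 + h)) := fun a =>
    hg.comp (by fun_prop)
  have a1 : ∀ a : ℝ × ℝ, (∫⁻ h in Ioo 0 a.1, w (a.1 - h + a.2 + h) * g (a.1 - h + h, a.2)) =
      w (a.1 + a.2) * g a * ENNReal.ofReal a.1 := by
    intro a
    have : ∀ h : ℝ, w (a.1 - h + a.2 + h) * g (a.1 - h + h, a.2) = w (a.1 + a.2) * g a := by
      intro h
      have e1 : a.1 - h + a.2 + h = a.1 + a.2 := by ring
      have e2 : a.1 - h + h = a.1 := by ring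
      rw [e1, e2]
    simp only [this]
    rw [setLIntegral_const, Real.volume_Ioo, sub_zero]
  have a2 : ∀ a : ℝ × ℝ, (∫⁻ h in Ioo 0 a.2, w (a.1 + (a.2 - h) + h) * g (a.1 + h, a.2 - h)) =
      w (a.1 + a.2) * ∫⁻ h in Ioo 0 a.2, g (a.1 + h, a.2 - h) := by
    intro a
    have : ∀ h : ℝ, w (a.1 + (a.2 - h) + h) * g (a.1 + h, a.2 - h) =
        w (a.1 + a.2) * g (a.1 + h, a.2 - h) := by
      intro h
      have e1 : a.1 + (a.2 - h) + h = a.1 + a.2 := by ring
      rw [e1]
    simp only [this]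
    rw [lintegral_const_mul _ (mg1 a)]
  have b1 : ∀ a : ℝ × ℝ, (∫⁻ h in Ioo 0 a.1, w (a.1 - h + a.2 + h) * g (a.1 - h, a.2 + h)) =
      w (a.1 + a.2) * ∫⁻ h in Ioo 0 a.1, g (a.1 - h, a.2 + h) := by
    intro a
    have : ∀ h : ℝ, w (a.1 - h + a.2 + h) * g (a.1 - h, a.2 + h) =
        w (a.1 + a.2) * g (a.1 - h, a.2 + h) := by
      intro h
      have e1 : a.1 - h + a.2 + h = a.1 + a.2 := by ring
      rw [e1]
    simp only [this]
    rw [lintegral_const_mul _ (mg2 a)]
  have b2 : ∀ a : ℝ × ℝ, (∫⁻ h in Ioo 0 a.2, w (a.1 + (a.2 - h) + h) * g (a.1, a.2 - h + h)) =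
      w (a.1 + a.2) * g a * ENNReal.ofReal a.2 := by
    intro a
    have : ∀ h : ℝ, w (a.1 + (a.2 - h) + h) * g (a.1, a.2 - h + h) = w (a.1 + a.2) * g a := by
      intro h
      have e1 : a.1 + (a.2 - h) + h = a.1 + a.2 := by ring
      have e2 : a.2 - h + h = a.2 := by ring
      rw [e1, e2]
    simp only [this]
    rw [setLIntegral_const, Real.volume_Ioo, sub_zero]
  rw [lintegral_congr a1, lintegral_congr a2] at h1
  rw [lintegral_congr b1, lintegral_congr b2] at h2
  have hws : Measurable (fun a : ℝ × ℝ => w (a.1 + a.2)) := hwm.comp (by fun_prop)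
  have m3 : Measurable (fun a : ℝ × ℝ => w (a.1 + a.2) * g a * ENNReal.ofReal a.1) :=
    (hws.mul hg).mul (ENNReal.measurable_ofReal.comp measurable_fst)
  have hI1 : Measurable (fun a : ℝ × ℝ => ∫⁻ h in Ioo 0 a.2, g (a.1 + h, a.2 - h)) := by
    have e : (fun a : ℝ × ℝ => ∫⁻ h in Ioo 0 a.2, g (a.1 + h, a.2 - h)) =
        fun a : ℝ × ℝ => ∫⁻ h, {z : (ℝ × ℝ) × ℝ | z.2 ∈ Ioo 0 z.1.2}.indicator
          (fun z => g (z.1.1 + z.2, z.1.2 - z.2)) (a, h) := by
      funext a
      rw [← lintegral_indicator measurableSet_Ioo]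
      refine lintegral_congr fun h => ?_
      simp only [indicator_apply, Set.mem_ofPred_eq]
    rw [e]
    have hm : Measurable ({z : (ℝ × ℝ) × ℝ | z.2 ∈ Ioo 0 z.1.2}.indicator
          (fun z => g (z.1.1 + z.2, z.1.2 - z.2))) := by
      refine Measurable.indicator (hg.comp (by fun_prop)) ?_
      exact (measurableSet_lt measurable_const measurable_snd).inter
        (measurableSet_lt measurable_snd (by fun_prop))
    exact hm.lintegral_prod_right'
  have h3 : ∫⁻ a, g a ∂ν = ∫⁻ a, (w (a.1 + a.2) * g a * ENNReal.ofReal a.1 +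
      w (a.1 + a.2) * g a * ENNReal.ofReal a.2) ∂ν := by
    refine lintegral_congr_ae ?_
    filter_upwards [hQ] with a ha
    rw [← mul_add, ← ENNReal.ofReal_add ha.1.le ha.2.le, mul_comm, ← mul_assoc]
    have hpos : ENNReal.ofReal (a.1 + a.2) ≠ 0 := by
      simp only [ne_eq, ENNReal.ofReal_eq_zero, not_le]
      linarith
    rw [ENNReal.mul_inv_cancel hpos ENNReal.ofReal_ne_top, one_mul]
  have m4 : Measurable (fun a : ℝ × ℝ => w (a.1 + a.2) *
      ∫⁻ h in Ioo 0 a.2, g (a.1 + h, a.2 - h)) := hws.mul hI1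
  rw [h3, lintegral_add_left m3, h1, ← h2, ← lintegral_add_left m4]
  refine lintegral_congr_ae ?_
  filter_upwards [hQ] with a ha
  rw [← mul_add, seg_lintegral ha.1 ha.2, ← mul_assoc]
  have hpos : ENNReal.ofReal (a.1 + a.2) ≠ 0 := by
    simp only [ne_eq, ENNReal.ofReal_eq_zero, not_le]
    linarith [ha.1, ha.2]
  rw [ENNReal.inv_mul_cancel hpos ENNReal.ofReal_ne_top, one_mul]

end

end Pool.Agent.Q171.PT
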